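import Pool.Agent.Full.Net.Strand
import Pool.Agent.Full.Perc.BK

/-!
# The flip identity

Reversing all arrows of the six vertex network of a region with open walls changes the sign of the
phases of the walls.  `flip`: for arbitrary real phases `φ` of the ends the average of the product over
the strands of `2 cos (turning * π / 12 + φ - φ)` is the same with the opposite sign of the turning, if
all closed strands turn by `±4` quarter turns.  `flip_one`: if the turning of the strand from `x` to `y`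
(`x` before `y`) is `th y - th x - 2` quarter turns, the average of the product of
`wc (th y - th x - 1)` is one.
-/

set_option autoImplicit false

namespace Full.Corner
open Finset Function Full.Net

/-- the primitive 24th root of unity -/
noncomputable def q₀ : ℂ := Complex.exp (((Real.pi / 12 : ℝ) : ℂ) * Complex.I)

lemma q₀_ne : q₀ ≠ 0 := Complex.exp_ne_zero _

lemma exp_zpow (r : ℝ) (n : ℤ) : Complex.exp ((r : ℂ) * Complex.I) ^ n =
    Complex.exp (((n * r : ℝ) : ℂ) * Complex.I) := by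
  rw [← Complex.exp_int_mul]
  congr 1
  push_cast
  ring

lemma exp_two_cos (r : ℝ) : Complex.exp ((r : ℂ) * Complex.I) +
    Complex.exp (((-r : ℝ) : ℂ) * Complex.I) = ((2 * Real.cos r : ℝ) : ℂ) := by
  push_cast
  rw [Complex.two_cos]

lemma exp_mul' (a b : ℝ) : Complex.exp ((a : ℂ) * Complex.I) * Complex.exp ((b : ℂ) * Complex.I) =
    Complex.exp (((a + b : ℝ) : ℂ) * Complex.I) := by
  rw [← Complex.exp_add]
  congr 1
  push_cast
  ring

variable {τ : Type*} [DecidableEq τ] {T : Finset τ} {g : Half τ → Half τ}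

open Classical in
/-- the factors of the ends: `exp (i φ)` for a leaving arrow -/
noncomputable def bph (g : Half τ → Half τ) (φ : Half τ → ℝ) (x : Half τ) (b : Bool) : ℂ :=
  if g x = x then Complex.exp ((((if b then φ x else -φ x) : ℝ) : ℂ) * Complex.I) else 1

lemma bph_glued (φ : Half τ → ℝ) {x : Half τ} (h : g x ≠ x) (b : Bool) : bph g φ x b = 1 := if_neg h

/-- all closed strands turn by four quarter turns -/
def LoopFour (T : Finset τ) (g : Half τ → Half τ) : Prop :=
  ∀ ω ⊆ T, ∀ x, x.1 ∈ T → (∀ y, Conn (mate ω) g x y → g y ≠ y) → lturn ω g x = 4 ∨ lturn ω g x = -4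

lemma loopOne_of (h : LoopFour T g) (φ : Half τ → ℝ) {q : ℂ} (hq : q ^ (4 : ℤ) + q ^ (-4 : ℤ) = 1)
    {ω : Finset τ} (hω : ω ⊆ T) : LoopOne T g q ω (bph g φ) := by
  intro x hx hc
  unfold lw
  have h1 : ∀ y, Conn (mate ω) g x y → ∀ b, bph g φ y b = 1 := fun y hy b => bph_glued φ (hc y hy) b
  rw [amp_one h1, ampr_one h1, one_mul, one_mul]
  rcases h ω hω x hx hc with h2 | h2
  · rw [h2]; exact hq
  · rw [h2, neg_neg, add_comm]; exact hq

lemma q₀_four : q₀ ^ (4 : ℤ) + q₀ ^ (-4 : ℤ) = 1 := by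
  unfold q₀
  rw [exp_zpow, exp_zpow]
  have e : (((-4 : ℤ) : ℝ) * (Real.pi / 12)) = -(((4 : ℤ) : ℝ) * (Real.pi / 12)) := by
    push_cast; ring
  rw [e, exp_two_cos]
  have e2 : (((4 : ℤ) : ℝ) * (Real.pi / 12)) = Real.pi / 3 := by push_cast; ring
  rw [e2, Real.cos_pi_div_three]
  norm_num

/-- the weight of an open strand -/
lemma sw_bph (hG : Glu T g) (φ : Half τ → ℝ) (ω : Finset τ) (s : ℤ) {e : Half τ} (he : Bd T g e) :
    sw (q₀ ^ s) ω g (bph g φ) e =
      ((2 * Real.cos (s * sturn ω g e * (Real.pi / 12) + φ (other (mate ω) g e) - φ e) : ℝ) : ℂ) := by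
  rw [sw_eq hG _ ω he (fun y _ hy b => bph_glued φ hy b)]
  have h1 := hG.other_bd (ω := ω) he
  have e1 : ∀ b, bph g φ e b = Complex.exp ((((if b then φ e else -φ e) : ℝ) : ℂ) * Complex.I) :=
    fun b => if_pos he.2
  have e2 : ∀ b, bph g φ (other (mate ω) g e) b = Complex.exp ((((if b then
      φ (other (mate ω) g e) else -φ (other (mate ω) g e)) : ℝ) : ℂ) * Complex.I) :=
    fun b => if_pos h1.2
  rw [e1, e1, e2, e2, ← zpow_mul, ← zpow_mul]
  unfold q₀
  rw [exp_zpow, exp_zpow, exp_mul', exp_mul', exp_mul', exp_mul', ← exp_two_cos]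
  congr 3
  · congr 1
    simp only [Bool.false_eq_true, if_false, if_true]
    push_cast
    ring
  · congr 1
    simp only [Bool.false_eq_true, if_false, if_true]
    push_cast
    ring

/-- **the flip identity** for arbitrary phases of the ends -/
theorem flip (hG : Glu T g) (hl : LoopFour T g) (φ : Half τ → ℝ) (S : Finset τ → Finset (Half τ))
    (hS : ∀ ω ⊆ T, Sel (hs T) (mate ω) g (S ω)) :
    ∑ ω ∈ T.powerset, ∏ e ∈ S ω,
        2 * Real.cos (sturn ω g e * (Real.pi / 12) + φ (other (mate ω) g e) - φ e) =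
      ∑ ω ∈ T.powerset, ∏ e ∈ S ω,
        2 * Real.cos (-(sturn ω g e * (Real.pi / 12)) + φ (other (mate ω) g e) - φ e) := by
  have hq1 : (q₀ ^ (1 : ℤ)) ^ (4 : ℤ) + (q₀ ^ (1 : ℤ)) ^ (-4 : ℤ) = 1 := by
    rw [zpow_one]; exact q₀_four
  have hq2 : (q₀ ^ (-1 : ℤ)) ^ (4 : ℤ) + (q₀ ^ (-1 : ℤ)) ^ (-4 : ℤ) = 1 := by
    rw [← zpow_mul, ← zpow_mul, show (-1 : ℤ) * 4 = -4 by norm_num,
      show (-1 : ℤ) * (-4) = 4 by norm_num, add_comm]
    exact q₀_four
  have h1 := net_strands hG (zpow_ne_zero 1 q₀_ne) (bph g φ)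
    (fun ω hω => loopOne_of hl φ hq1 hω) S hS
  have h2 := net_strands hG (zpow_ne_zero (-1) q₀_ne) (bph g φ)
    (fun ω hω => loopOne_of hl φ hq2 hω) S hS
  have h3 : cq (q₀ ^ (-1 : ℤ)) = cq (q₀ ^ (1 : ℤ)) := by
    rw [zpow_neg, cq_inv]
  rw [h3] at h2
  have h4 := h1.symm.trans h2
  rw [← Finset.mul_sum, ← Finset.mul_sum] at h4
  have h5 := mul_left_cancel₀ (pow_ne_zero _ (by norm_num : (1 / 2 : ℂ) ≠ 0)) h4
  have h6 : ∀ s : ℤ, ∑ ω ∈ T.powerset, ∏ e ∈ S ω, sw (q₀ ^ s) ω g (bph g φ) e =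
      ((∑ ω ∈ T.powerset, ∏ e ∈ S ω, 2 * Real.cos (s * sturn ω g e * (Real.pi / 12) +
        φ (other (mate ω) g e) - φ e) : ℝ) : ℂ) := by
    intro s
    rw [Complex.ofReal_sum]
    refine Finset.sum_congr rfl fun ω hω => ?_
    rw [Complex.ofReal_prod]
    exact Finset.prod_congr rfl fun e he =>
      sw_bph hG φ ω s (mem_bd.1 ((hS ω (Finset.mem_powerset.1 hω)).1 he))
  rw [h6, h6, Complex.ofReal_inj] at h5
  refine Eq.trans (Finset.sum_congr rfl fun ω _ => Finset.prod_congr rfl fun e _ => ?_)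
    (h5.trans (Finset.sum_congr rfl fun ω _ => Finset.prod_congr rfl fun e _ => ?_))
  · congr 3
    push_cast
    ring
  · congr 3
    push_cast
    ring

/-- one end of every strand: the one with the smaller position -/
noncomputable def sel (T : Finset τ) (g : Half τ → Half τ) (pos : Half τ → ℤ) (ω : Finset τ) :
    Finset (Half τ) := by
  classical
  exact (hs T).filter fun x => g x = x ∧ pos x < pos (other (mate ω) g x)

lemma mem_sel {pos : Half τ → ℤ} {ω : Finset τ} {x : Half τ} : x ∈ sel T g pos ω ↔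
    Bd T g x ∧ pos x < pos (other (mate ω) g x) := by
  classical
  unfold sel Bd
  rw [Finset.mem_filter, mem_hs, and_assoc]

lemma sel_spec (hG : Glu T g) {pos : Half τ → ℤ}
    (hpos : ∀ x, Bd T g x → ∀ y, Bd T g y → pos x = pos y → x = y) (ω : Finset τ) :
    Sel (hs T) (mate ω) g (sel T g pos ω) := by
  refine ⟨fun x hx => mem_bd.2 (mem_sel.1 hx).1, fun e he => ?_⟩
  have hb := mem_bd.1 he
  have hb' := hG.other_bd (ω := ω) hb
  have hne : pos e ≠ pos (other (mate ω) g e) := fun h =>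
    hG.other_ne hb (hpos _ hb _ hb' h).symm
  rw [mem_sel, mem_sel, hG.other_other hb]
  constructor
  · rintro ⟨-, h1⟩ ⟨-, h2⟩
    exact lt_asymm h1 h2
  · intro h1
    refine ⟨hb', ?_⟩
    have h2 : ¬ pos e < pos (other (mate ω) g e) := fun h => h1 ⟨hb, h⟩
    omega

/-- the number of strands does not depend on the configuration -/
lemma card_sel (hG : Glu T g) {S : Finset (Half τ)} {ω : Finset τ}
    (hS : Sel (hs T) (mate ω) g S) : 2 * S.card = (Net.ends (hs T) g).card := by
  classical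
  have h1 : (Net.ends (hs T) g \ S).card = S.card := by
    refine Finset.card_bij' (fun x _ => other (mate ω) g x) (fun x _ => other (mate ω) g x)
      ?_ ?_ ?_ ?_
    · intro x hx
      rw [Finset.mem_sdiff] at hx
      exact (hS.2 x hx.1).2 hx.2
    · intro x hx
      have hb := mem_bd.1 (hS.1 hx)
      rw [Finset.mem_sdiff]
      refine ⟨mem_bd.2 (hG.other_bd hb), fun h => ?_⟩
      exact (hS.2 x (hS.1 hx)).1 h hx
    · intro x hx
      rw [Finset.mem_sdiff] at hx
      exact hG.other_other (mem_bd.1 hx.1)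
    · intro x hx
      exact hG.other_other (mem_bd.1 (hS.1 hx))
  have h2 := Finset.card_sdiff_add_card_eq_card hS.1
  omega

/-- the weight of an arc, `n` in units of `π / 6` -/
noncomputable def wc (n : ℤ) : ℝ := 2 * Real.cos (n * (Real.pi / 6)) / Real.sqrt 3

/-- **the flip identity for natural phases** -/
theorem flip_one (hG : Glu T g) (hl : LoopFour T g) (pos th : Half τ → ℤ)
    (hpos : ∀ x, Bd T g x → ∀ y, Bd T g y → pos x = pos y → x = y)
    (hlaw : ∀ ω ⊆ T, ∀ x, Bd T g x → pos x < pos (other (mate ω) g x) →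
      sturn ω g x = th (other (mate ω) g x) - th x - 2) :
    Full.Perc.Ex T (fun ω => ∏ x ∈ sel T g pos ω, wc (th (other (mate ω) g x) - th x - 1)) = 1 := by
  have h1 := flip hG hl (fun x => th x * (Real.pi / 12)) (sel T g pos)
    (fun ω _ => sel_spec hG hpos ω)
  have h3 : (0 : ℝ) < Real.sqrt 3 := Real.sqrt_pos.2 (by norm_num)
  have hcard : ∀ ω, (sel T g pos ω).card = (Net.ends (hs T) g).card / 2 := by
    intro ω
    have := card_sel hG (sel_spec hG hpos ω)
    omega
  set c := (Net.ends (hs T) g).card / 2 with hc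
  -- the flipped side
  have h4 : ∑ ω ∈ T.powerset, ∏ e ∈ sel T g pos ω, 2 * Real.cos (-(sturn ω g e * (Real.pi / 12)) +
      (th (other (mate ω) g e) * (Real.pi / 12)) - th e * (Real.pi / 12)) =
      2 ^ T.card * Real.sqrt 3 ^ c := by
    have h5 : ∀ ω ∈ T.powerset, ∏ e ∈ sel T g pos ω, 2 * Real.cos (-(sturn ω g e *
        (Real.pi / 12)) + (th (other (mate ω) g e) * (Real.pi / 12)) - th e * (Real.pi / 12)) =
        Real.sqrt 3 ^ c := by
      intro ω hω
      rw [Finset.prod_congr rfl (g := fun _ => Real.sqrt 3), Finset.prod_const, hcard]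
      intro e he
      obtain ⟨he1, he2⟩ := mem_sel.1 he
      rw [hlaw ω (Finset.mem_powerset.1 hω) e he1 he2]
      have e1 : (-(((th (other (mate ω) g e) - th e - 2 : ℤ) : ℝ) * (Real.pi / 12)) +
          (th (other (mate ω) g e) * (Real.pi / 12)) - th e * (Real.pi / 12)) = Real.pi / 6 := by
        push_cast
        ring
      rw [e1, Real.cos_pi_div_six]
      ring
    rw [Finset.sum_congr rfl h5, Finset.sum_const, Finset.card_powerset, nsmul_eq_mul]
    push_cast
    ring
  -- the natural side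
  have h6 : ∑ ω ∈ T.powerset, ∏ e ∈ sel T g pos ω, 2 * Real.cos (sturn ω g e * (Real.pi / 12) +
      (th (other (mate ω) g e) * (Real.pi / 12)) - th e * (Real.pi / 12)) =
      (∑ ω ∈ T.powerset, ∏ x ∈ sel T g pos ω, wc (th (other (mate ω) g x) - th x - 1)) *
        Real.sqrt 3 ^ c := by
    rw [Finset.sum_mul]
    refine Finset.sum_congr rfl fun ω hω => ?_
    rw [← hcard ω, ← Finset.prod_const, ← Finset.prod_mul_distrib]
    refine Finset.prod_congr rfl fun e he => ?_
    obtain ⟨he1, he2⟩ := mem_sel.1 he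
    rw [hlaw ω (Finset.mem_powerset.1 hω) e he1 he2]
    unfold wc
    rw [div_mul_cancel₀ _ h3.ne']
    congr 2
    push_cast
    ring
  have h7 : (∑ ω ∈ T.powerset, ∏ x ∈ sel T g pos ω, wc (th (other (mate ω) g x) - th x - 1)) *
        Real.sqrt 3 ^ c = 2 ^ T.card * Real.sqrt 3 ^ c := h6.symm.trans (h1.trans h4)
  have h8 := mul_right_cancel₀ (pow_ne_zero c h3.ne') h7
  unfold Full.Perc.Ex
  rw [h8, div_self (by positivity)]

end Full.Corner
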