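import Pool.Agent.Full.Def.Inst
import Pool.Agent.Full.Walk.Band

/-!
# Dyadic counts at a corner

`longs T m ω`: the boundary half edges of the region `T` whose strand ends at distance at least `m`.
If all exponential moments of the number of long strands are bounded (`LongBound`), then the
exponential moments of the number of the strands around a corner are polynomial in the size of the
window.
-/

set_option autoImplicit false

namespace Full.Corner

open Finset Full.Mom Function

section defs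
variable {ι : Type*}

/-- the tiles of `T` with bit `true` -/
def conf (τ : ℤ × ℤ → ι) (T : Finset (ℤ × ℤ)) (ω : ι → Bool) : Finset (ℤ × ℤ) :=
  T.filter (fun t => ω (τ t) = true)

lemma mem_conf {τ : ℤ × ℤ → ι} {T : Finset (ℤ × ℤ)} {ω : ι → Bool} {t : ℤ × ℤ} :
    t ∈ conf τ T ω ↔ t ∈ T ∧ ω (τ t) = true := mem_filter

end defs

/-- distance of two tiles -/
def sd (t t' : ℤ × ℤ) : ℕ := max (t.1 - t'.1).natAbs (t.2 - t'.2).natAbs

open scoped Classical in
/-- the boundary half edges of `T` whose strand ends at distance at least `m` -/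
noncomputable def longs (T : Finset (ℤ × ℤ)) (m : ℕ) (ω : Finset (ℤ × ℤ)) :
    Finset (Half (ℤ × ℤ)) :=
  (T ×ˢ (univ : Finset Dir)).filter
    (fun x => plane.glue T x = x ∧ m ≤ sd x.1 (other (mate ω) (plane.glue T) x).1)

/-- every region `T` in a box of side `K m` has few strands of length at least `m` -/
def LongBound (K : ℕ) (Q C : ℝ) : Prop :=
  ∀ (ι : Type) [Fintype ι] [DecidableEq ι] (τ : ℤ × ℤ → ι) (m : ℕ) (a : ℤ × ℤ)
    (T : Finset (ℤ × ℤ)), 1 ≤ m →
    (∀ t ∈ T, a.1 ≤ t.1 ∧ t.1 < a.1 + K * m ∧ a.2 ≤ t.2 ∧ t.2 < a.2 + K * m) →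
    Set.InjOn τ T → avg (fun ω => Q ^ (longs T m (conf τ T ω)).card) ≤ C

/-! ### the strands of a smaller region -/

section sub
variable {A T : Finset (ℤ × ℤ)}

lemma glue_sub (hA : A ⊆ T) {x : Half (ℤ × ℤ)} (h : plane.glue T x = x) : plane.glue A x = x := by
  obtain ⟨t, d⟩ := x
  rw [plane_glue] at h ⊢
  split_ifs at h with h1
  · exact absurd (congrArg Prod.snd h) (Dir.opp_ne d)
  · rw [if_neg fun h2 => h1 ⟨hA h2.1, hA h2.2⟩]

lemma glue_sub_ne (hA : A ⊆ T) {x : Half (ℤ × ℤ)} (h : plane.glue A x ≠ x) :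
    plane.glue A x = plane.glue T x := by
  obtain ⟨t, d⟩ := x
  rw [plane_glue] at h ⊢
  rw [plane_glue]
  split_ifs at h with h1
  · rw [if_pos h1, if_pos ⟨hA h1.1, hA h1.2⟩]
  · exact absurd rfl h

lemma conn_sub (hA : A ⊆ T) {ω : Finset (ℤ × ℤ)} {x z : Half (ℤ × ℤ)}
    (h : Conn (mate ω) (plane.glue A) x z) : Conn (mate ω) (plane.glue T) x z := by
  induction h with
  | refl => exact Conn.refl _
  | @tail y z _ h2 ih =>
    rcases h2 with rfl | rfl
    · exact ih.trans (Conn.m_step _)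
    · by_cases h3 : plane.glue A y = y
      · rw [h3]; exact ih
      · rw [glue_sub_ne hA h3]
        exact ih.trans (Conn.g_step _)

/-- the strand of the smaller region ends where the strand of the larger one ends, or at the boundary
between the two regions -/
theorem other_sub (hA : A ⊆ T) {ω : Finset (ℤ × ℤ)} {x : Half (ℤ × ℤ)} (hx : x.1 ∈ A)
    (hT : plane.glue T x = x) :
    (other (mate ω) (plane.glue A) x).1 ∈ A ∧
      (other (mate ω) (plane.glue A) x = other (mate ω) (plane.glue T) x ∨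
        ∃ d : Dir, (other (mate ω) (plane.glue A) x).1 + d.vec ∈ T ∧
          (other (mate ω) (plane.glue A) x).1 + d.vec ∉ A) := by
  have hGA := plane.glu A
  have hGT := plane.glu T
  have hxA : Bd A (plane.glue A) x := ⟨hx, glue_sub hA hT⟩
  have h1 := hGA.other_bd (ω := ω) hxA
  have h2 := hGA.other_ne (ω := ω) hxA
  set z := other (mate ω) (plane.glue A) x with hz
  refine ⟨h1.1, ?_⟩
  by_cases h3 : plane.glue T z = z
  · left
    symm
    rw [(hGT.two ω).other_eq_iff hT (hGT.periodic ω x) h3]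
    exact ⟨conn_sub hA (Two.conn_other x), h2⟩
  · right
    obtain ⟨t, d⟩ := z
    rw [plane_glue] at h3
    have h4 := h1.2
    rw [plane_glue] at h4
    have h5 : t ∈ T ∧ t + d.vec ∈ T := by
      by_contra h6
      rw [if_neg h6] at h3
      exact h3 rfl
    have h6 : ¬ (t ∈ A ∧ t + d.vec ∈ A) := by
      intro h7
      rw [if_pos h7] at h4
      exact Dir.opp_ne d (congrArg Prod.snd h4)
    exact ⟨d, h5.2, fun h7 => h6 ⟨h1.1, h7⟩⟩

end sub

/-! ### the dyadic count -/

open scoped Classical in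
/-- the boundary half edges whose strand goes at least as far as their level `l` -/
noncomputable def feet (l : ℤ × ℤ → ℕ) (T : Finset (ℤ × ℤ)) (ω : Finset (ℤ × ℤ)) :
    Finset (Half (ℤ × ℤ)) :=
  (T ×ˢ (univ : Finset Dir)).filter
    (fun x => plane.glue T x = x ∧ l x.1 ≤ sd x.1 (other (mate ω) (plane.glue T) x).1 + 1)

/-- the dyadic region number `k` -/
def reg (l : ℤ × ℤ → ℕ) (T : Finset (ℤ × ℤ)) (k : ℕ) : Finset (ℤ × ℤ) :=
  T.filter (fun t => 2 ^ k ≤ l t ∧ l t < 2 ^ (k + 3))

lemma sd_vec (t : ℤ × ℤ) (d : Dir) : sd t (t + d.vec) ≤ 1 ∧ sd (t + d.vec) t ≤ 1 := by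
  obtain ⟨i, j⟩ := t
  cases d <;> simp [sd, Dir.vec]

lemma feet_reg {l : ℤ × ℤ → ℕ} (hl : ∀ t t', l t ≤ l t' + sd t t') {T ω : Finset (ℤ × ℤ)} {k : ℕ}
    {x : Half (ℤ × ℤ)} (hx : x ∈ feet l T ω) (h1 : 2 ^ (k + 1) ≤ l x.1) (h2 : l x.1 < 2 ^ (k + 2)) :
    x ∈ longs (reg l T k) (2 ^ k) ω := by
  classical
  unfold feet at hx
  rw [mem_filter, mem_product] at hx
  obtain ⟨⟨h3, -⟩, h4, h5⟩ := hx
  have e1 : 2 ^ (k + 1) = 2 * 2 ^ k := by ring
  have e2 : 2 ^ (k + 2) = 4 * 2 ^ k := by ring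
  have e3 : 2 ^ (k + 3) = 8 * 2 ^ k := by ring
  have e4 : 1 ≤ 2 ^ k := Nat.one_le_two_pow
  have hsub : reg l T k ⊆ T := filter_subset _ _
  have hxA : x.1 ∈ reg l T k := by
    unfold reg
    rw [mem_filter]
    exact ⟨h3, by omega, by omega⟩
  obtain ⟨h6, h7⟩ := other_sub hsub (ω := ω) hxA h4
  unfold longs
  rw [mem_filter, mem_product]
  refine ⟨⟨hxA, mem_univ _⟩, glue_sub hsub h4, ?_⟩
  rcases h7 with h7 | ⟨d, h7, h8⟩
  · rw [h7]
    omega
  · set z := other (mate ω) (plane.glue (reg l T k)) x with hz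
    have h9 : l (z.1 + d.vec) < 2 ^ k ∨ 2 ^ (k + 3) ≤ l (z.1 + d.vec) := by
      by_contra h10
      apply h8
      unfold reg
      rw [mem_filter]
      exact ⟨h7, by omega, by omega⟩
    have h10 := sd_vec z.1 d
    have h11 := hl z.1 (z.1 + d.vec)
    have h12 := hl (z.1 + d.vec) z.1
    have h13 := hl x.1 z.1
    have h14 := hl z.1 x.1
    have h15 : sd z.1 x.1 = sd x.1 z.1 := by
      unfold sd
      rw [← Int.natAbs_neg, neg_sub, ← Int.natAbs_neg (z.1.2 - x.1.2), neg_sub]
    rw [h15] at h14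
    omega

lemma longs_congr {T ω ω' : Finset (ℤ × ℤ)} {m : ℕ} (h : ∀ t ∈ T, t ∈ ω ↔ t ∈ ω') :
    longs T m ω = longs T m ω' := by
  classical
  unfold longs
  apply filter_congr
  intro x hx
  rw [mem_product] at hx
  rw [other_congr_conf (plane.glu T) h hx.1]

theorem avg_feet_le {ι : Type} [Fintype ι] [DecidableEq ι] {τ : ℤ × ℤ → ι} {l : ℤ × ℤ → ℕ}
    {T : Finset (ℤ × ℤ)} {Q D : ℝ} (hl : ∀ t t', l t ≤ l t' + sd t t') (hτ : Set.InjOn τ T)
    (hQ : 1 ≤ Q) (hD : 1 ≤ D) (hLB : LongBound 16 (Q ^ 3) D) {a : ℤ × ℤ}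
    (hbox : ∀ t ∈ T, a.1 - l t ≤ t.1 ∧ t.1 < a.1 + l t ∧ a.2 - l t ≤ t.2 ∧ t.2 < a.2 + l t)
    {B : ℕ} (hB : ∀ t ∈ T, l t < 2 ^ (B + 1)) :
    avg (fun ω => Q ^ (feet l T (conf τ T ω)).card) ≤ Q ^ 16 * (3 * D ^ B) := by
  classical
  -- the half edges of level one
  have hone : ∀ ω : ι → Bool, ((feet l T (conf τ T ω)).filter (fun x => l x.1 < 2)).card ≤ 16 := by
    intro ω
    calc ((feet l T (conf τ T ω)).filter (fun x => l x.1 < 2)).card
        ≤ (((Finset.Ico (a.1 - 1) (a.1 + 1)) ×ˢ (Finset.Ico (a.2 - 1) (a.2 + 1))) ×ˢ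
            (univ : Finset Dir)).card := by
          apply card_le_card
          intro x hx
          rw [mem_filter] at hx
          obtain ⟨hx, h2⟩ := hx
          unfold feet at hx
          rw [mem_filter, mem_product] at hx
          have h3 := hbox _ hx.1.1
          simp only [mem_product, mem_Ico, mem_univ, and_true]
          omega
      _ = 16 := by
          simp [card_product]
          rfl
  -- the other ones
  have hsum : ∀ ω : ι → Bool, (feet l T (conf τ T ω)).card ≤ 16 +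
      ∑ k ∈ range B, (longs (reg l T k) (2 ^ k) (conf τ (reg l T k) ω)).card := by
    intro ω
    have h1 : (feet l T (conf τ T ω)).card =
        ((feet l T (conf τ T ω)).filter (fun x => l x.1 < 2)).card +
          ((feet l T (conf τ T ω)).filter (fun x => ¬ l x.1 < 2)).card :=
      (card_filter_add_card_filter_not _).symm
    rw [h1]
    refine add_le_add (hone ω) ?_
    calc ((feet l T (conf τ T ω)).filter (fun x => ¬ l x.1 < 2)).card
        ≤ ((range B).biUnion (fun k => longs (reg l T k) (2 ^ k) (conf τ (reg l T k) ω))).card := by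
          apply card_le_card
          intro x hx
          rw [mem_filter] at hx
          obtain ⟨hx, h2⟩ := hx
          rw [mem_biUnion]
          have h3 : x.1 ∈ T := by
            unfold feet at hx
            rw [mem_filter, mem_product] at hx
            exact hx.1.1
          have h4 := hB _ h3
          obtain ⟨k, hk⟩ : ∃ k, Nat.log 2 (l x.1) = k + 1 := by
            have : 0 < Nat.log 2 (l x.1) := Nat.log_pos (by norm_num) (by omega)
            exact ⟨Nat.log 2 (l x.1) - 1, by omega⟩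
          have h5 : 2 ^ (k + 1) ≤ l x.1 := by
            rw [← hk]
            exact Nat.pow_log_le_self 2 (by omega)
          have h6 : l x.1 < 2 ^ (k + 2) := by
            have := Nat.lt_pow_succ_log_self (b := 2) (by norm_num) (l x.1)
            rw [hk] at this
            exact this
          refine ⟨k, ?_, ?_⟩
          · rw [mem_range]
            have h7 : 2 ^ (k + 1) < 2 ^ (B + 1) := lt_of_le_of_lt h5 h4
            have h8 := (Nat.pow_lt_pow_iff_right (by norm_num : 1 < 2)).1 h7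
            omega
          · have h7 := feet_reg hl hx h5 h6
            rwa [longs_congr (ω' := conf τ (reg l T k) ω)] at h7
            intro t ht
            rw [mem_conf, mem_conf]
            have : t ∈ T := (filter_subset _ _) ht
            exact ⟨fun h => ⟨ht, h.2⟩, fun h => ⟨this, h.2⟩⟩
      _ ≤ _ := card_biUnion_le
  -- moments
  have hQ0 : 0 ≤ Q := by linarith
  have main : avg (fun ω => Q ^ ∑ k ∈ range B,
      (longs (reg l T k) (2 ^ k) (conf τ (reg l T k) ω)).card) ≤ (3 : ℕ) * D ^ B := by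
    refine Full.Walk.avg_pow_classes (B := B) (r := 3) (fun k => k % 3)
      (fun k _ => Nat.mod_lt _ (by norm_num)) (by norm_num)
      (A := fun k => τ '' (reg l T k : Set (ℤ × ℤ)))
      (Y := fun k ω => (longs (reg l T k) (2 ^ k) (conf τ (reg l T k) ω)).card)
      ?_ ?_ (fun ω => le_rfl) hQ hD ?_
    · intro k hk k' hk' hne hcl
      have key : ∀ k k' : ℕ, k < k' → k % 3 = k' % 3 →
          Disjoint (τ '' (reg l T k : Set (ℤ × ℤ))) (τ '' (reg l T k' : Set (ℤ × ℤ))) := by
        intro k k' hlt hcl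
        rw [Set.disjoint_left]
        rintro i ⟨t, ht, rfl⟩ ⟨t', ht', he⟩
        unfold reg at ht ht'
        rw [mem_coe, mem_filter] at ht ht'
        have e1 : t' = t := hτ ht'.1 ht.1 he
        rw [e1] at ht'
        have e2 : 2 ^ (k + 3) ≤ 2 ^ k' := Nat.pow_le_pow_right (by norm_num) (by omega)
        omega
      rcases lt_or_gt_of_ne hne with hlt | hlt
      · exact key k k' hlt hcl
      · exact (key k' k hlt hcl.symm).symm
    · intro k _ ω ω' hw
      have h1 : conf τ (reg l T k) ω = conf τ (reg l T k) ω' := by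
        ext t
        rw [mem_conf, mem_conf]
        refine and_congr_right fun ht => ?_
        rw [hw _ ⟨t, ht, rfl⟩]
      show (longs _ _ (conf τ (reg l T k) ω)).card = (longs _ _ (conf τ (reg l T k) ω')).card
      rw [h1]
    · intro k _
      refine hLB ι τ (2 ^ k) (a.1 - 2 ^ (k + 3), a.2 - 2 ^ (k + 3)) (reg l T k) Nat.one_le_two_pow
        ?_ (hτ.mono (fun t ht => (filter_subset _ _) ht))
      intro t ht
      unfold reg at ht
      rw [mem_filter] at ht
      have h1 := hbox t ht.1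
      have h2 : ((l t : ℕ) : ℤ) < 2 ^ (k + 3) := by exact_mod_cast ht.2.2
      have h3 : ((16 : ℕ) : ℤ) * ((2 ^ k : ℕ) : ℤ) = 2 * 2 ^ (k + 3) := by push_cast; ring
      rw [h3]
      simp only
      omega
  calc avg (fun ω => Q ^ (feet l T (conf τ T ω)).card)
      ≤ avg (fun ω => Q ^ 16 * Q ^ ∑ k ∈ range B,
          (longs (reg l T k) (2 ^ k) (conf τ (reg l T k) ω)).card) := by
        apply avg_mono
        intro ω
        rw [← pow_add]
        exact pow_le_pow_right₀ hQ (hsum ω)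
    _ = Q ^ 16 * avg (fun ω => Q ^ ∑ k ∈ range B,
          (longs (reg l T k) (2 ^ k) (conf τ (reg l T k) ω)).card) := avg_mul_left _ _
    _ ≤ Q ^ 16 * (3 * D ^ B) := by
        apply mul_le_mul_of_nonneg_left _ (by positivity)
        exact_mod_cast main

/-! ### corners -/

/-- distance of the unit interval `[k, k + 1]` from `0`, plus one -/
def lev (k : ℤ) : ℕ := if 0 ≤ k then k.toNat + 1 else (-k).toNat

/-- the level of a tile with respect to the corner `c` -/
def lev2 (c t : ℤ × ℤ) : ℕ := max (lev (t.1 - c.1)) (lev (t.2 - c.2))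

lemma lev_lip (i j : ℤ) : lev i ≤ lev j + (i - j).natAbs := by
  unfold lev
  split_ifs <;> omega

lemma lev2_lip (c t t' : ℤ × ℤ) : lev2 c t ≤ lev2 c t' + sd t t' := by
  have h1 := lev_lip (t.1 - c.1) (t'.1 - c.1)
  have h2 := lev_lip (t.2 - c.2) (t'.2 - c.2)
  have e1 : t.1 - c.1 - (t'.1 - c.1) = t.1 - t'.1 := by ring
  have e2 : t.2 - c.2 - (t'.2 - c.2) = t.2 - t'.2 := by ring
  rw [e1] at h1
  rw [e2] at h2
  unfold lev2 sd
  omega

lemma lev_box (k : ℤ) : -(lev k : ℤ) ≤ k ∧ k < lev k := by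
  unfold lev
  split_ifs <;> constructor <;> push_cast <;> omega

lemma lev_le {k : ℤ} {m : ℕ} (h1 : -(m : ℤ) ≤ k) (h2 : k < m) : lev k ≤ m := by
  unfold lev
  split_ifs <;> omega

open scoped Classical in
/-- the strands of `T` from the half edges in `P` to half edges in `R` -/
noncomputable def joins (P R : Half (ℤ × ℤ) → Prop) (T ω : Finset (ℤ × ℤ)) :
    Finset (Half (ℤ × ℤ)) :=
  (T ×ˢ (univ : Finset Dir)).filter
    (fun x => plane.glue T x = x ∧ P x ∧ R (other (mate ω) (plane.glue T) x))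

/-- **polynomial exponential moments at a corner**: if all strands from `P` to `R` go around the corner
`c`, then the exponential moments of their number in a window of size `m` are at most polynomial
in `m` -/
theorem avg_joins_le {Q D : ℝ} (hQ : 1 ≤ Q) (hD : 1 ≤ D) (hLB : LongBound 16 (Q ^ 3) D)
    {ι : Type} [Fintype ι] [DecidableEq ι] {τ : ℤ × ℤ → ι} {T : Finset (ℤ × ℤ)} {c : ℤ × ℤ} {m : ℕ}
    (hm : 1 ≤ m) (hτ : Set.InjOn τ T)
    (hbox : ∀ t ∈ T, c.1 - m ≤ t.1 ∧ t.1 < c.1 + m ∧ c.2 - m ≤ t.2 ∧ t.2 < c.2 + m)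
    {P R : Half (ℤ × ℤ) → Prop}
    (hPR : ∀ x y : Half (ℤ × ℤ), x.1 ∈ T → y.1 ∈ T → P x → R y → lev2 c x.1 ≤ sd x.1 y.1 + 1) :
    avg (fun ω => Q ^ (joins P R T (conf τ T ω)).card) ≤ Q ^ 16 * 3 * (m : ℝ) ^ Real.logb 2 D := by
  classical
  have hsub : ∀ ω : ι → Bool, joins P R T (conf τ T ω) ⊆ feet (lev2 c) T (conf τ T ω) := by
    intro ω x hx
    unfold joins at hx
    rw [mem_filter, mem_product] at hx
    obtain ⟨⟨h1, h2⟩, h3, h4, h5⟩ := hx
    unfold feet
    rw [mem_filter, mem_product]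
    exact ⟨⟨h1, h2⟩, h3, hPR _ _ h1 ((plane.glu T).other_bd ⟨h1, h3⟩).1 h4 h5⟩
  have h1 := avg_feet_le (ι := ι) (τ := τ) (l := lev2 c) (T := T) (Q := Q) (D := D) (a := c)
    (lev2_lip c) hτ hQ hD hLB (B := Nat.log 2 m) (by
      intro t _
      have h1 := lev_box (t.1 - c.1)
      have h2 := lev_box (t.2 - c.2)
      unfold lev2
      push_cast
      have h3 := le_max_left (lev (t.1 - c.1) : ℤ) (lev (t.2 - c.2))
      have h4 := le_max_right (lev (t.1 - c.1) : ℤ) (lev (t.2 - c.2))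
      omega) (by
      intro t ht
      have h1 := hbox t ht
      have h2 : lev2 c t ≤ m := max_le (lev_le (by omega) (by omega)) (lev_le (by omega) (by omega))
      exact lt_of_le_of_lt h2 (Nat.lt_pow_succ_log_self (by norm_num) m))
  have hm' : (1 : ℝ) ≤ m := by exact_mod_cast hm
  have h2 : D ^ Nat.log 2 m ≤ (m : ℝ) ^ Real.logb 2 D := by
    have e1 : (m : ℝ) ^ Real.logb 2 D = D ^ Real.logb 2 m := by
      rw [Real.logb, Real.logb, Real.rpow_def_of_pos (by linarith),
        Real.rpow_def_of_pos (by linarith)]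
      congr 1
      ring
    rw [e1, ← Real.rpow_natCast]
    apply Real.rpow_le_rpow_of_exponent_le hD
    rw [Real.le_logb_iff_rpow_le (by norm_num) (by linarith), Real.rpow_natCast]
    exact_mod_cast Nat.pow_log_le_self 2 (by omega)
  calc avg (fun ω => Q ^ (joins P R T (conf τ T ω)).card)
      ≤ avg (fun ω => Q ^ (feet (lev2 c) T (conf τ T ω)).card) :=
        avg_mono fun ω => pow_le_pow_right₀ hQ (card_le_card (hsub ω))
    _ ≤ Q ^ 16 * (3 * D ^ Nat.log 2 m) := h1
    _ ≤ Q ^ 16 * (3 * (m : ℝ) ^ Real.logb 2 D) := by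
        have : (0 : ℝ) ≤ Q ^ 16 := by positivity
        apply mul_le_mul_of_nonneg_left _ this
        linarith
    _ = _ := by ring

/-! ### the square window -/

/-- the square window `[0, m) × [0, m)` -/
noncomputable def sq (m : ℕ) : Finset (ℤ × ℤ) := Finset.Ico 0 (m : ℤ) ×ˢ Finset.Ico 0 (m : ℤ)

/-- the reflex window: `[-m, m) × [-m, m)` without the lower left quadrant -/
noncomputable def rfx (m : ℕ) : Finset (ℤ × ℤ) :=
  (Finset.Ico (-(m : ℤ)) m ×ˢ Finset.Ico (-(m : ℤ)) m).filter (fun t => 0 ≤ t.1 ∨ 0 ≤ t.2)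

/-- strands from the left side to the lower side of the square window -/
theorem avg_sq_le {Q D : ℝ} (hQ : 1 ≤ Q) (hD : 1 ≤ D) (hLB : LongBound 16 (Q ^ 3) D)
    {ι : Type} [Fintype ι] [DecidableEq ι] {τ : ℤ × ℤ → ι} {m : ℕ} (hm : 1 ≤ m)
    (hτ : Set.InjOn τ (sq m)) :
    avg (fun ω => Q ^ (joins (fun x => x.1.1 = 0 ∧ x.2 = .W) (fun y => y.1.2 = 0 ∧ y.2 = .S)
      (sq m) (conf τ (sq m) ω)).card) ≤ Q ^ 16 * 3 * (m : ℝ) ^ Real.logb 2 D := by
  refine avg_joins_le (c := (0, 0)) hQ hD hLB hm hτ ?_ ?_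
  · intro t ht
    unfold sq at ht
    rw [mem_product, mem_Ico, mem_Ico] at ht
    simp only
    omega
  · intro x y hx hy h1 h2
    unfold sq at hx hy
    rw [mem_product, mem_Ico, mem_Ico] at hx hy
    unfold lev2 sd lev
    simp only
    rw [h1.1, h2.1]
    split_ifs <;> omega

/-- strands from the vertical wall to the horizontal wall of the reflex window -/
theorem avg_rfx_le {Q D : ℝ} (hQ : 1 ≤ Q) (hD : 1 ≤ D) (hLB : LongBound 16 (Q ^ 3) D)
    {ι : Type} [Fintype ι] [DecidableEq ι] {τ : ℤ × ℤ → ι} {m : ℕ} (hm : 1 ≤ m)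
    (hτ : Set.InjOn τ (rfx m)) :
    avg (fun ω => Q ^ (joins (fun x => x.1.1 = 0 ∧ x.1.2 < 0 ∧ x.2 = .W)
      (fun y => y.1.2 = 0 ∧ y.1.1 < 0 ∧ y.2 = .S)
      (rfx m) (conf τ (rfx m) ω)).card) ≤ Q ^ 16 * 3 * (m : ℝ) ^ Real.logb 2 D := by
  refine avg_joins_le (c := (0, 0)) hQ hD hLB hm hτ ?_ ?_
  · intro t ht
    unfold rfx at ht
    rw [mem_filter, mem_product, mem_Ico, mem_Ico] at ht
    simp only
    omega
  · intro x y hx hy h1 h2
    unfold rfx at hx hy
    rw [mem_filter, mem_product, mem_Ico, mem_Ico] at hx hy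
    unfold lev2 sd lev
    simp only
    rw [h1.1, h2.1]
    have h3 := h1.2.1
    have h4 := h2.2.1
    split_ifs <;> omega

end Full.Corner
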