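import Pool.Agent.Full.Corner.Prod
import Pool.Agent.Full.Corner.Dyadic

/-!
# `CornerMoments` from the dyadic counts
-/

set_option autoImplicit false
set_option linter.unusedSectionVars false

namespace Full.Corner
open Function Relation Finset Full Full.Mom Full.Walk
open Full.Perc (Ex Ex_mono Ex_congr Ex_nonneg)

/-- the average over the subsets of `T` in the form of the dyadic counts -/
theorem Ex_eq_avg_conf {T : Finset (ℤ × ℤ)} (hT : T.Nonempty) :
    ∃ τ : ℤ × ℤ → T, Set.InjOn τ T ∧ ∀ f : Finset (ℤ × ℤ) → ℝ,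
      Ex T f = avg (fun ω : T → Bool => f (conf τ T ω)) := by
  classical
  refine ⟨fun t => if h : t ∈ T then ⟨t, h⟩ else ⟨hT.choose, hT.choose_spec⟩, ?_, ?_⟩
  · intro t ht t' ht' h
    have ht1 : t ∈ T := ht
    have ht1' : t' ∈ T := ht'
    simp only [ht1, ht1', dif_pos] at h
    exact congrArg Subtype.val h
  · intro f
    rw [Ex_eq_avg]
    congr 1
    funext ω
    congr 1
    ext t
    rw [mem_ofBits, mem_conf]
    constructor
    · rintro ⟨h, h1⟩
      exact ⟨h, by rw [dif_pos h]; exact h1⟩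
    · rintro ⟨h, h1⟩
      rw [dif_pos h] at h1
      exact ⟨h, h1⟩

lemma card_joins (T ω : Finset (ℤ × ℤ)) (A B : Set (Half (ℤ × ℤ))) :
    (joins (fun x => x ∈ A) (fun x => x ∈ B) T ω).card = pc T ω A B := by
  classical
  unfold joins pc cnt bdF
  rw [filter_filter]

lemma logb_max {D m : ℝ} (hm : 1 ≤ m) : m ^ Real.logb 2 D ≤ m ^ max (Real.logb 2 D) 0 :=
  Real.rpow_le_rpow_of_exponent_le hm (le_max_left _ _)

/-- **polynomial moments at the corners** -/
theorem cornerMoments {D : ℝ} (hD : 1 ≤ D) (h : LongBound 16 ((4 / 3 : ℝ) ^ 3) D) :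
    CornerMoments := by
  refine ⟨max (Real.logb 2 D) 0, (4 / 3 : ℝ) ^ 16 * 3, le_max_right _ _, by norm_num, ?_⟩
  intro m hm
  have hm' : (1 : ℝ) ≤ m := by exact_mod_cast hm
  have hm0 : (0 : ℤ) < m := by exact_mod_cast hm
  constructor
  · have hne : (Q m).Nonempty := ⟨(0, 0), by rw [mem_Q]; simp only; omega⟩
    obtain ⟨τ, hτ, he⟩ := Ex_eq_avg_conf hne
    rw [he]
    have h1 := avg_joins_le (c := (0, 0)) (P := fun x => x ∈ dset .W ∧ x.1.1 = 0)
      (R := fun x => x ∈ dset .S ∧ x.1.2 = 0)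
      (by norm_num : (1 : ℝ) ≤ 4 / 3) hD h hm hτ ?_ ?_
    · refine le_trans (le_of_eq ?_) (h1.trans ?_)
      · congr 1
        funext ω
        congr 1
        rw [← card_joins]
        unfold joins
        congr 1
        ext x
        simp only [mem_filter]
        constructor
        · rintro ⟨a1, a2, a3, a4⟩
          have hb : Bd (Q m) (plane.glue (Q m)) x := ⟨(mem_product.1 a1).1, a2⟩
          have hb' := (plane.glu (Q m)).other_bd (ω := conf τ (Q m) ω) hb
          obtain ⟨b1, b2⟩ := bd_plane.1 hb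
          obtain ⟨b3, b4⟩ := bd_plane.1 hb'
          have a3' : x.2 = .W := a3
          have a4' : (other (mate (conf τ (Q m) ω)) (plane.glue (Q m)) x).2 = .S := a4
          rw [a3'] at b2
          rw [a4'] at b4
          rw [mem_Q] at b1 b2 b3 b4
          simp only [Dir.vec, Prod.fst_add, Prod.snd_add] at b1 b2 b3 b4
          exact ⟨a1, a2, ⟨a3, by omega⟩, ⟨a4, by omega⟩⟩
        · rintro ⟨a1, a2, ⟨a3, -⟩, ⟨a4, -⟩⟩
          exact ⟨a1, a2, a3, a4⟩
      · have := logb_max (D := D) hm'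
        have h0 : (0 : ℝ) ≤ (4 / 3 : ℝ) ^ 16 * 3 := by norm_num
        exact mul_le_mul_of_nonneg_left this h0
    · intro t ht
      rw [mem_Q] at ht
      simp only
      omega
    · intro x y hx hy h1 h2
      rw [mem_Q] at hx hy
      unfold lev2 sd lev
      simp only
      rw [h1.2, h2.2]
      split_ifs <;> omega
  · have hne : (Lw m).Nonempty := ⟨(-1, -1), by rw [mem_Lw]; simp only; omega⟩
    obtain ⟨τ, hτ, he⟩ := Ex_eq_avg_conf hne
    rw [he]
    have h1 := avg_joins_le (c := (0, 0)) (P := fun x => x ∈ RA)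
      (R := fun x => x ∈ RB)
      (by norm_num : (1 : ℝ) ≤ 4 / 3) hD h hm hτ ?_ ?_
    · refine le_trans (le_of_eq ?_) (h1.trans ?_)
      · congr 1
        funext ω
        congr 1
        rw [← card_joins]
      · have := logb_max (D := D) hm'
        have h0 : (0 : ℝ) ≤ (4 / 3 : ℝ) ^ 16 * 3 := by norm_num
        exact mul_le_mul_of_nonneg_left this h0
    · intro t ht
      rw [mem_Lw] at ht
      simp only
      omega
    · intro x y hx hy h1 h2
      rw [mem_Lw] at hx hy
      have c1 : x.1.1 = -1 := h1.2.1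
      have c2 : 0 ≤ x.1.2 := h1.2.2
      have c3 : y.1.2 = -1 := h2.2.1
      have c4 : 0 ≤ y.1.1 := h2.2.2
      unfold lev2 sd lev
      simp only
      rw [c1, c3]
      split_ifs <;> omega

end Full.Corner
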