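import Pool.Agent.Full.Macro.Chart
import Pool.Agent.Full.Corner.Moments

/-!
# Long strands of planar regions

All exponential moments of the number of the long strands of an arbitrary region in a box, from the
macroscopic counts (`Full.Macro`).  This gives `LongMoments` and `LongBound`.
-/

set_option autoImplicit false
set_option linter.unusedSectionVars false

namespace Full.Corner
open Function Relation Finset Full Full.Mom
open Full.Perc (Ex Ex_mono Ex_congr Ex_nonneg)
open Full.Walk (RswQ)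

/-- the box chart around a point of the plane -/
def pbox (T : Finset (ℤ × ℤ)) (r : ℕ) (a : ℤ × ℤ) : Macro.Box T (plane.glue T) r where
  φ := fun i j => (i + a.1, j + a.2)
  Λ := fun i j => Walk.bx (2 * r + 1) i j ∧ (i + a.1, j + a.2) ∈ T
  sub := fun _ _ h => h.1
  mem := fun _ _ h => h.2
  inj := fun i j i' j' _ _ h => by
    simp only [Prod.mk.injEq, add_left_inj] at h
    exact h
  glue := fun i j d h hb => by
    rw [plane_glue]
    have e : ((i + a.1, j + a.2) : ℤ × ℤ) + (Macro.sd d).vec = (i + d.dx + a.1, j + d.dy + a.2) := by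
      cases d <;> simp only [Macro.sd, Dir.vec, Walk.Dir.dx, Walk.Dir.dy, Prod.mk_add_mk] <;>
        ext <;> simp only <;> ring
    by_cases h1 : (i + d.dx + a.1, j + d.dy + a.2) ∈ T
    · right
      rw [e, if_pos ⟨h.2, h1⟩, Macro.sd_neg]
      exact ⟨⟨hb, h1⟩, rfl⟩
    · left
      rw [e, if_neg (fun h2 => h1 h2.2)]

/-- half of a set which is closed under an involution without fixed points -/
lemma exists_half {α : Type*} [DecidableEq α] (L : Finset α) (o : α → α) (ho : ∀ x ∈ L, o x ≠ x)
    (hoo : ∀ x ∈ L, o (o x) = x) :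
    ∃ S ⊆ L, L.card ≤ 2 * S.card ∧ ∀ x ∈ S, ∀ y ∈ S, y ≠ o x := by
  classical
  set S := L.filter (fun x => ¬ (o x ∈ L ∧ WellOrderingRel (o x) x)) with hS
  refine ⟨S, filter_subset _ _, ?_, ?_⟩
  · have h1 : L ⊆ S ∪ S.image o := by
      intro x hx
      by_cases h2 : x ∈ S
      · exact mem_union_left _ h2
      · apply mem_union_right
        rw [hS, mem_filter, not_and, not_not] at h2
        obtain ⟨h3, h4⟩ := h2 hx
        rw [mem_image]
        refine ⟨o x, ?_, hoo x hx⟩
        rw [hS, mem_filter, hoo x hx]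
        refine ⟨h3, ?_⟩
        rintro ⟨-, h5⟩
        exact asymm h4 h5
    calc L.card ≤ (S ∪ S.image o).card := card_le_card h1
      _ ≤ S.card + (S.image o).card := card_union_le _ _
      _ ≤ S.card + S.card := by
          have := card_image_le (s := S) (f := o)
          omega
      _ = 2 * S.card := by ring
  · rintro x hx y hy rfl
    rw [hS, mem_filter] at hx hy
    obtain ⟨h1, h2⟩ := hx
    obtain ⟨h3, h4⟩ := hy
    rw [hoo x h1] at h4
    rcases trichotomous_of (WellOrderingRel (α := α)) x (o x) with h | h | h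
    · exact h4 ⟨h1, h⟩
    · exact ho x h1 h.symm
    · exact h2 ⟨h3, h⟩

open scoped Classical in
/-- the boundary half edges whose strand goes to distance at least `m` -/
noncomputable def far (T ω : Finset (ℤ × ℤ)) (m : ℕ) : Finset (Half (ℤ × ℤ)) :=
  (bdF T (plane.glue T)).filter
    (fun x => ∃ z, Full.Conn (mate ω) (plane.glue T) x z ∧ m ≤ sd x.1 z.1)

lemma card_bdF_le (T : Finset (ℤ × ℤ)) (g : Half (ℤ × ℤ) → Half (ℤ × ℤ)) :
    (bdF T g).card ≤ 4 * T.card := by
  unfold bdF
  refine (card_filter_le _ _).trans ?_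
  rw [card_product, mul_comm]
  exact Nat.mul_le_mul_right _ (by decide)

/-- **all exponential moments of the number of the long strands** -/
theorem far_moment {q : ℝ} (hq : RswQ q) (K : ℕ) {B : ℝ} (hB : 1 ≤ B) :
    ∃ C : ℝ, 1 ≤ C ∧ ∀ (m : ℕ) (a : ℤ × ℤ) (T : Finset (ℤ × ℤ)), 1 ≤ m →
      (∀ t ∈ T, a.1 ≤ t.1 ∧ t.1 < a.1 + K * m ∧ a.2 ≤ t.2 ∧ t.2 < a.2 + K * m) →
      Ex T (fun ω => B ^ (far T ω m).card) ≤ C := by
  obtain ⟨C1, hC1, h1⟩ := Macro.macro_moment hq (one_le_pow₀ hB : 1 ≤ B ^ 2) ((4 * K) * (4 * K))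
  refine ⟨max C1 (B ^ (4 * ((4 * K) * (4 * K)))), le_max_of_le_left hC1, ?_⟩
  intro m a T hm hT
  classical
  by_cases hm5 : m < 5
  · -- small boxes
    refine le_max_of_le_right ?_
    rw [← Full.Perc.Ex_const T (B ^ (4 * ((4 * K) * (4 * K))))]
    refine Ex_mono fun ω _ => pow_le_pow_right₀ hB ?_
    unfold far
    refine (card_filter_le _ _).trans ((card_bdF_le _ _).trans ?_)
    have h2 : T ⊆ (Finset.Ico a.1 (a.1 + (4 * K : ℕ))) ×ˢ (Finset.Ico a.2 (a.2 + (4 * K : ℕ))) := by
      intro t ht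
      have h3 := hT t ht
      have h4 : (K : ℤ) * m ≤ 4 * K := by
        have : (m : ℤ) ≤ 4 := by omega
        nlinarith
      rw [mem_product, mem_Ico, mem_Ico]
      push_cast
      omega
    have h3 := card_le_card h2
    rw [card_product, Int.card_Ico, Int.card_Ico] at h3
    have e1 : (a.1 + ((4 * K : ℕ) : ℤ) - a.1).toNat = 4 * K := by omega
    have e2 : (a.2 + ((4 * K : ℕ) : ℤ) - a.2).toNat = 4 * K := by omega
    rw [e1, e2] at h3
    exact Nat.mul_le_mul_left 4 h3
  · refine le_max_of_le_left ?_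
    set r : ℕ := (m - 2) / 3 with hr
    have hr1 : 1 ≤ r := by omega
    have hr2 : 3 * r + 1 < m := by omega
    have hr3 : m ≤ 7 * r := by omega
    set c : Fin (4 * K) × Fin (4 * K) → Macro.Box T (plane.glue T) r := fun p =>
      pbox T r (a.1 + r * (2 * (p.1 : ℕ) + 1), a.2 + r * (2 * (p.2 : ℕ) + 1)) with hc
    refine le_trans (Ex_mono fun ω _ => ?_) (h1 (ℤ × ℤ) T (plane.glue T) r _ c (by
      rw [Fintype.card_prod, Fintype.card_fin]) hr1)
    rw [← pow_mul]
    apply pow_le_pow_right₀ hB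
    have hG := plane.glu T
    have hbd : ∀ x ∈ far T ω m, Bd T (plane.glue T) x := fun x hx => by
      unfold far at hx
      rw [mem_filter, mem_bdF] at hx
      exact hx.1
    obtain ⟨S, hSL, hcard, hne⟩ := exists_half (far T ω m) (other (mate ω) (plane.glue T))
      (fun x hx => hG.other_ne (hbd x hx)) (fun x hx => hG.other_other (hbd x hx))
    refine hcard.trans (Nat.mul_le_mul_left 2 ?_)
    apply Macro.macro_count hG hr1 c ω S
    · intro x hx y hy hxy
      rcases (hG.conn_iff (hbd x (hSL hx)) (hbd y (hSL hy))).1 hxy with h2 | h2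
      · exact h2.symm
      · exact absurd h2 (hne x hx y hy)
    · intro y hy
      have hy' := hSL hy
      unfold far at hy'
      rw [mem_filter, mem_bdF] at hy'
      obtain ⟨hyb, z, hz, hd⟩ := hy'
      have hyT := hT _ hyb.1
      have hzT := hT _ (hG.conn_mem hz hyb.1)
      have hrz : (0 : ℤ) < 2 * r := by omega
      -- the chart
      have hp : ∀ u v : ℤ, v ≤ u → u < v + K * m → ∃ p : Fin (4 * K),
          v + r * (2 * (p : ℕ) + 1) - r ≤ u ∧ u < v + r * (2 * (p : ℕ) + 1) + r := by
        intro u v h2 h3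
        have h4 : 0 ≤ (u - v) / (2 * r) := Int.ediv_nonneg (by omega) hrz.le
        have h5 : (u - v) / (2 * r) < 4 * K := by
          rw [Int.ediv_lt_iff_lt_mul hrz]
          have h6 : (K : ℤ) * m ≤ K * (7 * r) := by
            apply mul_le_mul_of_nonneg_left _ (by positivity)
            exact_mod_cast hr3
          have h7 : (0 : ℤ) ≤ K * r := by positivity
          nlinarith
        refine ⟨⟨((u - v) / (2 * r)).toNat, by omega⟩, ?_⟩
        have e : (((((u - v) / (2 * r)).toNat : ℕ)) : ℤ) = (u - v) / (2 * r) := Int.toNat_of_nonneg h4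
        simp only
        rw [e]
        have h8 := Int.mul_ediv_add_emod (u - v) (2 * r)
        have h9 := Int.emod_nonneg (u - v) hrz.ne'
        have h10 := Int.emod_lt_of_pos (u - v) hrz
        have e2 : (r : ℤ) * (2 * ((u - v) / (2 * r)) + 1) = 2 * r * ((u - v) / (2 * r)) + r := by ring
        rw [e2]
        generalize 2 * (r : ℤ) * ((u - v) / (2 * r)) = X at *
        omega
      obtain ⟨p1, hp1⟩ := hp y.1.1 a.1 (by omega) (by omega)
      obtain ⟨p2, hp2⟩ := hp y.1.2 a.2 (by omega) (by omega)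
      refine ⟨(p1, p2), ?_, ?_⟩
      · refine ⟨y.1.1 - (a.1 + r * (2 * (p1 : ℕ) + 1)), y.1.2 - (a.2 + r * (2 * (p2 : ℕ) + 1)), ?_, ?_, ?_⟩
        · refine ⟨?_, ?_⟩
          · unfold Walk.bx
            omega
          · simp only [sub_add_cancel]
            exact hyb.1
        · unfold Walk.bx
          omega
        · simp only [hc, pbox, sub_add_cancel]
      · intro hh
        obtain ⟨i, j, h2, h3⟩ := hh z hz
        have h4 := h2.1
        unfold Walk.bx at h4
        have h5 : z.1.1 = i + (a.1 + r * (2 * (p1 : ℕ) + 1)) := congrArg Prod.fst h3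
        have h6 : z.1.2 = j + (a.2 + r * (2 * (p2 : ℕ) + 1)) := congrArg Prod.snd h3
        unfold sd at hd
        omega

/-- **`LongMoments`** -/
theorem longMoments_of_rsw {q : ℝ} (hq : RswQ q) : LongMoments := by
  classical
  intro B hB
  obtain ⟨C, -, hC⟩ := far_moment hq 8 hB
  refine ⟨C, fun m hm T hT => ?_⟩
  refine le_trans (Ex_mono fun ω _ => pow_le_pow_right₀ hB ?_) (hC ((m + 1) / 2) (0, 0) T (by omega)
    (fun t ht => ?_))
  · unfold lng far
    apply card_le_card
    intro x hx
    rw [mem_filter] at hx ⊢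
    refine ⟨hx.1, ?_⟩
    obtain ⟨z, h1, h2⟩ := hx.2
    refine ⟨z, h1, ?_⟩
    unfold sd
    rcases h2 with h2 | h2
    · have := Int.natCast_natAbs (x.1.1 - z.1.1)
      omega
    · have := Int.natCast_natAbs (x.1.2 - z.1.2)
      omega
  · have := hT t ht
    push_cast
    omega

/-- averages over arbitrary index systems -/
theorem avg_conf {ι : Type*} [Fintype ι] [DecidableEq ι] {τ : ℤ × ℤ → ι} {T : Finset (ℤ × ℤ)}
    (hτ : Set.InjOn τ T) (f : Finset (ℤ × ℤ) → ℝ) :
    avg (fun ω : ι → Bool => f (conf τ T ω)) = Ex T f := by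
  classical
  have h1 := Full.Walk.avg_bits (fun i j => τ (i, j)) T
    (fun t ht t' ht' h => hτ ht ht' h) (fun b => f (T.filter fun t => b t.1 t.2 = true))
    (fun b b' h => by
      congr 1
      apply filter_congr
      intro t ht
      rw [h t ht])
  refine Eq.trans ?_ (h1.trans ?_)
  · rfl
  · refine Ex_congr fun S hS => ?_
    congr 1
    ext t
    rw [mem_filter]
    unfold Full.Walk.sbits
    simp only [Prod.mk.eta, decide_eq_true_eq]
    exact ⟨fun h => h.2, fun h => ⟨hS h, h⟩⟩

/-- **`LongBound`** -/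
theorem longBound {q : ℝ} (hq : RswQ q) (K : ℕ) {B : ℝ} (hB : 1 ≤ B) :
    ∃ D : ℝ, 1 ≤ D ∧ LongBound K B D := by
  classical
  obtain ⟨C, hC1, hC⟩ := far_moment hq K hB
  refine ⟨C, hC1, ?_⟩
  intro ι _ _ τ m a T hm hT hτ
  rw [avg_conf hτ (fun S => B ^ (longs T m S).card)]
  refine le_trans (Ex_mono fun ω _ => pow_le_pow_right₀ hB ?_) (hC m a T hm hT)
  unfold longs far bdF
  rw [filter_filter]
  apply card_le_card
  intro x hx
  rw [mem_filter] at hx ⊢
  exact ⟨hx.1, hx.2.1, _, Two.conn_other x, hx.2.2⟩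

/-- **`CornerMoments`** -/
theorem cornerMoments' {q : ℝ} (hq : RswQ q) : CornerMoments := by
  obtain ⟨D, hD, h⟩ := longBound hq 16 (B := (4 / 3 : ℝ) ^ 3) (one_le_pow₀ (by norm_num))
  exact cornerMoments hD h

end Full.Corner
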