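import Pool.Agent.Full.Corner.Shapes
import Pool.Agent.Full.Turn.Final
import Pool.Agent.Full.Corner.Long
import Pool.Agent.Full.Walk.RswIn

/-!
# The turning law of the square and of the L-shape

The last inputs of `corner_product`: `TurnLaw` for the square and for the L-shape, hence the flip
identities `Ex (Q (2 * m)) (fRect m) = 1` and `Ex (Lsh m) (fL m) = 1`.
-/

set_option autoImplicit false

namespace Full.Shp
open Function Relation Full

theorem nst_eq_ks {τ : Type*} (g : Half τ → Half τ) (x : Half τ) : nst g x = Turn.ks g x := by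
  unfold nst Turn.ks
  rfl

theorem bt_eq {τ : Type*} (g : Half τ → Half τ) (x : Half τ) : Turn.bt g x = 2 - nst g x := by
  rw [nst_eq_ks]; rfl

/-- a plane region which is simply connected has the turning law -/
theorem good_plane {T : Finset (ℤ × ℤ)} (h : SC T (plane.glue T)) : Turn.Good T (plane.glue T) :=
  ⟨plane.glu T, plane.straight_glue T, flat_plane T, open_plane T, h⟩

open Corner in
theorem turnLaw_of {T : Finset (ℤ × ℤ)} (h : SC T (plane.glue T)) {L : ℤ}
    {pos th : Half (ℤ × ℤ) → ℤ} (hl : Lab T (plane.glue T) L pos th) : TurnLaw T pos th := by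
  refine ⟨(good_plane h).loopFour, fun x hx y hy e => hl.inj x y hx hy e, ?_⟩
  intro ω _ x hx hlt
  refine (good_plane h).sturn_lab ω (L := L) pos th (fun x hx y hy e => hl.inj x y hx hy e)
    (fun x hx => (hl.rng x hx).2) (fun x hx h1 => ?_) hx hlt
  have h2 := hl.step x hx h1
  rw [bt_eq]
  exact h2

open Corner in
theorem turnLaw_Q (n : ℕ) : TurnLaw (Q n) (posR n) thR := turnLaw_of (sc_Q n) (lab_Q n)

open Corner in
theorem turnLaw_Q2 (m : ℕ) : TurnLaw (Q (2 * m)) (posR (2 * m)) thR := by
  have h := turnLaw_Q (2 * m)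
  rwa [Nat.cast_mul, Nat.cast_ofNat] at h

open Corner in
theorem turnLaw_Lsh (m : ℕ) : TurnLaw (Lsh m) (posL m) thR := turnLaw_of (sc_Lsh m) (lab_Lsh m)

open Corner in
/-- the flip identity of the square -/
theorem Ex_fRect_one (m : ℕ) : Perc.Ex (Q (2 * m)) (fRect m) = 1 := Ex_fRect (turnLaw_Q2 m)

open Corner in
/-- the flip identity of the L-shape -/
theorem Ex_fL_one (m : ℕ) : Perc.Ex (Lsh m) (fL m) = 1 := Ex_fL (turnLaw_Lsh m)

open Corner in
/-- **the corner product** (unconditional): the factor of a convex corner times the factor of a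
reflex corner is at most `C m ^ ε` -/
theorem corner_le {ε : ℝ} (hε : 0 < ε) :
    ∃ C : ℝ, 1 ≤ C ∧ ∀ m : ℕ, 1 ≤ m → cvx m * rflx m ≤ C * (m : ℝ) ^ ε := by
  obtain ⟨q, hq⟩ := Walk.exists_q
  exact corner_product (longMoments_of_rsw hq) (cornerMoments' hq) (fun m _ => Ex_fRect_one m)
    (fun m _ => Ex_fL_one m) hε

end Full.Shp
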