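import Pool.Agent.Full.Corner.Mono

/-!
# Corner windows in all orientations

`a`, `b : Bool` select a quadrant of the corner `v`: the tiles with `v.1 ≤ t.1` iff `a` and
`v.2 ≤ t.2` iff `b`.  `cwin a b v m` is this quadrant of the square of radius `m` around `v`,
`rwin a b v m` is the square without this quadrant.
-/

set_option autoImplicit false
set_option linter.unusedSectionVars false

namespace Full.Corner
open Function Relation Finset Full
open Full.Perc (Ex Ex_mono Ex_congr Ex_nonneg)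

/-- the square of radius `m` around the corner `v` -/
noncomputable def bwin (v : ℤ × ℤ) (m : ℕ) : Finset (ℤ × ℤ) :=
  Finset.Ico (v.1 - m) (v.1 + m) ×ˢ Finset.Ico (v.2 - m) (v.2 + m)

lemma mem_bwin {v : ℤ × ℤ} {m : ℕ} {t : ℤ × ℤ} :
    t ∈ bwin v m ↔ (v.1 - m ≤ t.1 ∧ t.1 < v.1 + m) ∧ v.2 - m ≤ t.2 ∧ t.2 < v.2 + m := by
  unfold bwin
  rw [mem_product, mem_Ico, mem_Ico]

/-- the tile `t` is in the quadrant `(a, b)` of the corner `v` -/
def Quad (a b : Bool) (v t : ℤ × ℤ) : Prop := (v.1 ≤ t.1 ↔ a = true) ∧ (v.2 ≤ t.2 ↔ b = true)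

open scoped Classical in
/-- the window of a convex corner -/
noncomputable def cwin (a b : Bool) (v : ℤ × ℤ) (m : ℕ) : Finset (ℤ × ℤ) :=
  (bwin v m).filter fun t => Quad a b v t

open scoped Classical in
/-- the window of a reflex corner -/
noncomputable def rwin (a b : Bool) (v : ℤ × ℤ) (m : ℕ) : Finset (ℤ × ℤ) :=
  (bwin v m).filter fun t => ¬ Quad a b v t

lemma mem_cwin {a b : Bool} {v : ℤ × ℤ} {m : ℕ} {t : ℤ × ℤ} :
    t ∈ cwin a b v m ↔ t ∈ bwin v m ∧ Quad a b v t := by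
  unfold cwin
  simp only [mem_filter]

lemma mem_rwin {a b : Bool} {v : ℤ × ℤ} {m : ℕ} {t : ℤ × ℤ} :
    t ∈ rwin a b v m ↔ t ∈ bwin v m ∧ ¬ Quad a b v t := by
  unfold rwin
  simp only [mem_filter]

/-- direction of the vertical wall of a convex corner -/
def cV (a : Bool) : Set (Half (ℤ × ℤ)) := {x | x.2 = if a then .W else .E}
/-- direction of the horizontal wall of a convex corner -/
def cH (b : Bool) : Set (Half (ℤ × ℤ)) := {x | x.2 = if b then .S else .N}

/-- the vertical wall of a reflex corner -/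
def rV (a b : Bool) (v : ℤ × ℤ) : Set (Half (ℤ × ℤ)) :=
  {x | x.2 = (if a then .E else .W) ∧ x.1.1 = (if a then v.1 - 1 else v.1) ∧
    (v.2 ≤ x.1.2 ↔ b = true)}
/-- the horizontal wall of a reflex corner -/
def rH (a b : Bool) (v : ℤ × ℤ) : Set (Half (ℤ × ℤ)) :=
  {x | x.2 = (if b then .N else .S) ∧ x.1.2 = (if b then v.2 - 1 else v.2) ∧
    (v.1 ≤ x.1.1 ↔ a = true)}

/-- the isometry which maps the model windows onto the windows of the corner `v` -/
def isoC (a b : Bool) (v : ℤ × ℤ) : PIso :=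
  match a, b with
  | true, true => trans v.1 v.2
  | false, true => reflX (v.1 - 1) v.2
  | true, false => reflY v.1 (v.2 - 1)
  | false, false => reflXY (v.1 - 1) (v.2 - 1)

lemma cwin_eq (a b : Bool) (v : ℤ × ℤ) (m : ℕ) : cwin a b v m = (Q m).image (isoC a b v).φ := by
  ext ⟨i, j⟩
  rw [mem_cwin, mem_bwin, mem_image]
  unfold Quad
  cases a <;> cases b <;> simp only [isoC, trans, reflX, reflY, reflXY, mem_Q]
  · constructor
    · intro h
      exact ⟨(v.1 - 1 - i, v.2 - 1 - j), by simp only at h ⊢; simp at h; omega, by simp⟩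
    · rintro ⟨⟨a, b⟩, h1, h2⟩
      simp only [Prod.mk.injEq] at h1 h2 ⊢
      simp
      omega
  · constructor
    · intro h
      exact ⟨(v.1 - 1 - i, j - v.2), by simp only at h ⊢; simp at h; omega, by simp⟩
    · rintro ⟨⟨a, b⟩, h1, h2⟩
      simp only [Prod.mk.injEq] at h1 h2 ⊢
      simp
      omega
  · constructor
    · intro h
      exact ⟨(i - v.1, v.2 - 1 - j), by simp only at h ⊢; simp at h; omega, by simp⟩
    · rintro ⟨⟨a, b⟩, h1, h2⟩
      simp only [Prod.mk.injEq] at h1 h2 ⊢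
      simp
      omega
  · constructor
    · intro h
      exact ⟨(i - v.1, j - v.2), by simp only at h ⊢; simp at h; omega, by simp⟩
    · rintro ⟨⟨a, b⟩, h1, h2⟩
      simp only [Prod.mk.injEq] at h1 h2 ⊢
      simp
      omega

lemma rwin_eq (a b : Bool) (v : ℤ × ℤ) (m : ℕ) : rwin a b v m = (Lw m).image (isoC a b v).φ := by
  ext ⟨i, j⟩
  rw [mem_rwin, mem_bwin, mem_image]
  unfold Quad
  cases a <;> cases b <;> simp only [isoC, trans, reflX, reflY, reflXY, mem_Lw]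
  · constructor
    · intro h
      exact ⟨(v.1 - 1 - i, v.2 - 1 - j), by simp only at h ⊢; simp at h; omega, by simp⟩
    · rintro ⟨⟨a, b⟩, h1, h2⟩
      simp only [Prod.mk.injEq] at h1 h2 ⊢
      simp
      omega
  · constructor
    · intro h
      exact ⟨(v.1 - 1 - i, j - v.2), by simp only at h ⊢; simp at h; omega, by simp⟩
    · rintro ⟨⟨a, b⟩, h1, h2⟩
      simp only [Prod.mk.injEq] at h1 h2 ⊢
      simp
      omega
  · constructor
    · intro h
      exact ⟨(i - v.1, v.2 - 1 - j), by simp only at h ⊢; simp at h; omega, by simp⟩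
    · rintro ⟨⟨a, b⟩, h1, h2⟩
      simp only [Prod.mk.injEq] at h1 h2 ⊢
      simp
      omega
  · constructor
    · intro h
      exact ⟨(i - v.1, j - v.2), by simp only at h ⊢; simp at h; omega, by simp⟩
    · rintro ⟨⟨a, b⟩, h1, h2⟩
      simp only [Prod.mk.injEq] at h1 h2 ⊢
      simp
      omega

/-- the average over a convex corner window -/
theorem Ex_cwin (a b : Bool) (v : ℤ × ℤ) (m : ℕ) (F : ℕ → ℝ) :
    Ex (cwin a b v m) (fun ω => F (pc (cwin a b v m) ω (cV a) (cH b))) =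
      Ex (Q m) (fun ω => F (pc (Q m) ω (dset .W) (dset .S))) := by
  rw [cwin_eq]
  refine Ex_pc (isoC a b v) (Q m) ?_ ?_ F
  · rintro ⟨t, d⟩ -
    cases a <;> cases b <;> cases d <;>
      simp [isoC, trans, reflX, reflY, reflXY, cV, dset, Dir.opp]
  · rintro ⟨t, d⟩ -
    cases a <;> cases b <;> cases d <;>
      simp [isoC, trans, reflX, reflY, reflXY, cH, dset, Dir.opp]

/-- the average over a reflex corner window -/
theorem Ex_rwin (a b : Bool) (v : ℤ × ℤ) (m : ℕ) (F : ℕ → ℝ) :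
    Ex (rwin a b v m) (fun ω => F (pc (rwin a b v m) ω (rV a b v) (rH a b v))) =
      Ex (Lw m) (fun ω => F (pc (Lw m) ω RA RB)) := by
  rw [rwin_eq]
  refine Ex_pc (isoC a b v) (Lw m) ?_ ?_ F
  · rintro ⟨⟨i, j⟩, d⟩ -
    cases a <;> cases b <;> cases d <;>
      simp [isoC, trans, reflX, reflY, reflXY, rV, RA, Dir.opp] <;> omega
  · rintro ⟨⟨i, j⟩, d⟩ -
    cases a <;> cases b <;> cases d <;>
      simp [isoC, trans, reflX, reflY, reflXY, rH, RB, Dir.opp] <;> omega

theorem Ex_cwin_kap (a b : Bool) (v : ℤ × ℤ) (m : ℕ) :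
    Ex (cwin a b v m) (fun ω => kap ^ pc (cwin a b v m) ω (cV a) (cH b)) = cvx m :=
  Ex_cwin a b v m fun n => kap ^ n

theorem Ex_cwin_rh (a b : Bool) (v : ℤ × ℤ) (m : ℕ) :
    Ex (cwin a b v m) (fun ω => rh ^ pc (cwin a b v m) ω (cV a) (cH b)) = cvx' m :=
  Ex_cwin a b v m fun n => rh ^ n

theorem Ex_rwin_rh (a b : Bool) (v : ℤ × ℤ) (m : ℕ) :
    Ex (rwin a b v m) (fun ω => rh ^ pc (rwin a b v m) ω (rV a b v) (rH a b v)) = rflx m :=
  Ex_rwin a b v m fun n => rh ^ n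

/-- products of corner factors -/
theorem corner_pow {k l : ℕ} (hkl : k ≤ l)
    (h : ∀ ε : ℝ, 0 < ε → ∃ C : ℝ, 1 ≤ C ∧ ∀ m : ℕ, 1 ≤ m → cvx m * rflx m ≤ C * (m : ℝ) ^ ε)
    {ε : ℝ} (hε : 0 < ε) :
    ∃ C : ℝ, 1 ≤ C ∧ ∀ m : ℕ, 1 ≤ m → cvx m ^ k * rflx m ^ l ≤ C * (m : ℝ) ^ ε := by
  obtain ⟨C, hC, h1⟩ := h (ε / (k + 1)) (by positivity)
  refine ⟨C ^ k, one_le_pow₀ hC, fun m hm => ?_⟩
  have hm' : (1 : ℝ) ≤ m := by exact_mod_cast hm
  have h0 := rflx_nonneg m
  have h2 := rflx_le_one m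
  have h3 := cvx_nonneg m
  calc cvx m ^ k * rflx m ^ l ≤ cvx m ^ k * rflx m ^ k :=
        mul_le_mul_of_nonneg_left (pow_le_pow_of_le_one h0 h2 hkl) (by positivity)
    _ = (cvx m * rflx m) ^ k := (mul_pow _ _ _).symm
    _ ≤ (C * (m : ℝ) ^ (ε / (k + 1))) ^ k := pow_le_pow_left₀ (by positivity) (h1 m hm) k
    _ = C ^ k * (m : ℝ) ^ (ε / (k + 1) * k) := by
        rw [mul_pow, ← Real.rpow_natCast ((m : ℝ) ^ (ε / (k + 1))), ← Real.rpow_mul (by linarith)]
    _ ≤ C ^ k * (m : ℝ) ^ ε := by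
        apply mul_le_mul_of_nonneg_left _ (by positivity)
        apply Real.rpow_le_rpow_of_exponent_le hm'
        rw [div_mul_eq_mul_div, div_le_iff₀ (by positivity)]
        nlinarith

end Full.Corner
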