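import Pool.Agent.Full.Corner.Prod
import Pool.Agent.Full.Corner.Flip

/-!
# The flip identities of the square and of the L-shape

From the turning law (`TurnLaw`) with explicit labels.
-/

set_option autoImplicit false
set_option linter.unusedSectionVars false

namespace Full.Corner
open Function Relation Finset Full Full.Net
open Full.Perc (Ex Ex_mono Ex_congr Ex_nonneg)

section general
variable {τ : Type*} [DecidableEq τ] {T : Finset τ} {g : Half τ → Half τ}

/-- a product over the strands is a product over the pairs of sides -/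
theorem prod_sel {κ : Type*} (K : Finset κ) (hG : Glu T g) {pos : Half τ → ℤ} {ω : Finset τ}
    {w : Half τ → ℝ} {A B : κ → Set (Half τ)} {c : κ → ℝ}
    (hw : ∀ x, Bd T g x → pos x < pos (other (mate ω) g x) → w x = ∏ k ∈ K,
      (open scoped Classical in if x ∈ A k ∧ other (mate ω) g x ∈ B k then c k else 1))
    (hp : ∀ k ∈ K, ∀ x y, Bd T g x → Bd T g y → x ∈ A k → y ∈ B k → pos x < pos y) :
    ∏ x ∈ sel T g pos ω, w x = ∏ k ∈ K, c k ^ cnt T g ω (A k) (B k) := by
  classical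
  have h1 : ∏ x ∈ sel T g pos ω, w x = ∏ x ∈ sel T g pos ω, ∏ k ∈ K,
      (if x ∈ A k ∧ other (mate ω) g x ∈ B k then c k else 1) := by
    refine prod_congr rfl fun x hx => ?_
    rw [mem_sel] at hx
    rw [hw x hx.1 hx.2]
  rw [h1, prod_comm]
  refine prod_congr rfl fun k hk => ?_
  rw [prod_ite, prod_const, prod_const_one, mul_one]
  congr 1
  unfold cnt
  congr 1
  ext x
  rw [mem_filter, mem_filter, mem_sel, mem_bdF]
  constructor
  · rintro ⟨⟨h2, -⟩, h3⟩
    exact ⟨h2, h3⟩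
  · rintro ⟨h2, h3⟩
    exact ⟨⟨h2, hp k hk _ _ h2 (hG.other_bd h2) h3.1 h3.2⟩, h3⟩

end general

/-- the turning law of a region of the plane with explicit labels: `pos` is the position of the
boundary half edges, counterclockwise from a base point, `th` their direction in quarter turns -/
structure TurnLaw (T : Finset (ℤ × ℤ)) (pos th : Half (ℤ × ℤ) → ℤ) : Prop where
  loops : LoopFour T (plane.glue T)
  inj : ∀ x, Bd T (plane.glue T) x → ∀ y, Bd T (plane.glue T) y → pos x = pos y → x = y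
  law : ∀ ω ⊆ T, ∀ x, Bd T (plane.glue T) x → pos x < pos (other (mate ω) (plane.glue T) x) →
    sturn ω (plane.glue T) x = th (other (mate ω) (plane.glue T) x) - th x - 2

lemma wc_zero : wc 0 = kap := by
  unfold wc kap
  simp

lemma wc_one : wc 1 = 1 := by
  unfold wc
  have h : (((1 : ℤ) : ℝ) * (Real.pi / 6)) = Real.pi / 6 := by push_cast; ring
  rw [h, Real.cos_pi_div_six, mul_div_cancel₀ _ (by norm_num)]
  exact div_self sqrt3_pos.ne'

lemma wc_neg (n : ℤ) : wc (-n) = wc n := by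
  unfold wc
  have h : (((-n : ℤ) : ℝ) * (Real.pi / 6)) = -((n : ℝ) * (Real.pi / 6)) := by push_cast; ring
  rw [h, Real.cos_neg]

lemma wc_two : wc 2 = rh := by
  unfold wc rh
  have h : (((2 : ℤ) : ℝ) * (Real.pi / 6)) = Real.pi / 3 := by push_cast; ring
  rw [h, Real.cos_pi_div_three]
  norm_num

/-! ### the square -/

/-- directions of the sides, counterclockwise from the upper left corner -/
def thR (x : Half (ℤ × ℤ)) : ℤ :=
  match x.2 with | .W => 0 | .S => 1 | .E => 2 | .N => 3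

/-- positions on the boundary of the square of side `n` -/
def posR (n : ℤ) (x : Half (ℤ × ℤ)) : ℤ :=
  match x.2 with
  | .W => n - 1 - x.1.2
  | .S => n + x.1.1
  | .E => 2 * n + x.1.2
  | .N => 3 * n + (n - 1 - x.1.1)

/-- pairs of sides of the square with weight different from one -/
def prA : Fin 4 → Dir
  | 0 => .W | 1 => .S | 2 => .E | 3 => .W
/-- pairs of sides of the square with weight different from one -/
def prB : Fin 4 → Dir
  | 0 => .S | 1 => .E | 2 => .N | 3 => .N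

theorem Ex_fRect {m : ℕ} (H : TurnLaw (Q (2 * m)) (posR (2 * m)) thR) :
    Ex (Q (2 * m)) (fRect m) = 1 := by
  have h1 := flip_one (plane.glu (Q (2 * m))) H.loops (posR (2 * m)) thR H.inj H.law
  rw [← h1]
  refine Ex_congr fun ω _ => ?_
  symm
  rw [prod_sel (univ : Finset (Fin 4)) (plane.glu (Q (2 * m))) (A := fun k => dset (prA k))
    (B := fun k => dset (prB k)) (c := fun k => bsR k)]
  · rw [Fin.prod_univ_four]
    unfold fRect
    have e : ∀ A B, pc (Q (2 * m)) ω A B = pc (Q (2 * m)) ω B A := cnt_symm (plane.glu _) ω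
    rw [e (dset .E) (dset .S)]
    rfl
  · intro x hx hp
    have hy := (plane.glu (Q (2 * m))).other_bd (ω := ω) hx
    set y := other (mate ω) (plane.glue (Q (2 * m))) x with hyd
    clear_value y
    obtain ⟨⟨i, j⟩, d⟩ := x
    obtain ⟨⟨i', j'⟩, d'⟩ := y
    obtain ⟨g1, g2⟩ := bd_plane.1 hx
    obtain ⟨g3, g4⟩ := bd_plane.1 hy
    rw [mem_Q] at g1 g2 g3 g4
    push_cast at g1 g2 g3 g4
    rw [Fin.prod_univ_four]
    cases d <;> cases d' <;>
      simp only [Dir.vec, Prod.mk_add_mk, posR, thR, prA, prB, dset, bsR, Set.mem_ofPred_eq,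
        reduceCtorEq, and_true, and_false, if_true, if_false, mul_one, one_mul]
        at g1 g2 g3 g4 hp ⊢ <;>
      first
      | exact wc_zero
      | exact wc_one
      | exact wc_two
      | (exact (wc_neg 1).trans wc_one)
      | (exfalso; omega)
  · intro k _ x y hx hy hA hB
    obtain ⟨⟨i, j⟩, d⟩ := x
    obtain ⟨⟨i', j'⟩, d'⟩ := y
    obtain ⟨g1, g2⟩ := bd_plane.1 hx
    obtain ⟨g3, g4⟩ := bd_plane.1 hy
    rw [mem_Q] at g1 g2 g3 g4
    push_cast at g1 g2 g3 g4
    simp only [dset, Set.mem_ofPred_eq] at hA hB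
    subst hA hB
    fin_cases k <;> simp only [Dir.vec, Prod.mk_add_mk, posR, prA, prB] at g1 g2 g3 g4 ⊢ <;> omega

/-! ### the L-shape -/

/-- positions on the boundary of the L-shape -/
def posL (m : ℤ) (x : Half (ℤ × ℤ)) : ℤ :=
  match x.2 with
  | .W => 4 * m - 1 - x.1.2
  | .S => 4 * m + x.1.1
  | .E => if x.1.2 < 2 * m then 8 * m + x.1.2 else 12 * m + (x.1.2 - 2 * m)
  | .N => if 2 * m ≤ x.1.1 then 10 * m + (4 * m - 1 - x.1.1) else 14 * m + (2 * m - 1 - x.1.1)

lemma prod_nine {f : Fin 9 → ℝ} : ∏ k, f k =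
    (f 0 * f 1 * f 2 * f 3 * f 4 * f 5) * (f 6 * f 7 * f 8) := by
  rw [Fin.prod_univ_castSucc, Fin.prod_univ_eight]
  have e0 : (Fin.castSucc (0 : Fin 8)) = (0 : Fin 9) := rfl
  have e1 : (Fin.castSucc (1 : Fin 8)) = (1 : Fin 9) := rfl
  have e2 : (Fin.castSucc (2 : Fin 8)) = (2 : Fin 9) := rfl
  have e3 : (Fin.castSucc (3 : Fin 8)) = (3 : Fin 9) := rfl
  have e4 : (Fin.castSucc (4 : Fin 8)) = (4 : Fin 9) := rfl
  have e5 : (Fin.castSucc (5 : Fin 8)) = (5 : Fin 9) := rfl
  have e6 : (Fin.castSucc (6 : Fin 8)) = (6 : Fin 9) := rfl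
  have e7 : (Fin.castSucc (7 : Fin 8)) = (7 : Fin 9) := rfl
  have e8 : (Fin.last 8) = (8 : Fin 9) := rfl
  rw [e0, e1, e2, e3, e4, e5, e6, e7, e8]
  ring

/-- the number of the side of the L-shape, counterclockwise -/
def sideL (m : ℤ) (x : Half (ℤ × ℤ)) : Fin 6 :=
  match x.2 with
  | .W => 0
  | .S => 1
  | .E => if x.1.2 < 2 * m then 2 else 4
  | .N => if 2 * m ≤ x.1.1 then 3 else 5

/-- direction of a side of the L-shape -/
def thS : Fin 6 → ℤ
  | 0 => 0 | 1 => 1 | 2 => 2 | 3 => 3 | 4 => 2 | 5 => 3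

lemma thR_side (m : ℤ) (x : Half (ℤ × ℤ)) : thR x = thS (sideL m x) := by
  obtain ⟨⟨i, j⟩, d⟩ := x
  cases d <;> simp only [thR, sideL, thS] <;> split_ifs <;> rfl

/-- pairs of sides of the L-shape with weight different from one -/
def plA : Fin 9 → Fin 6
  | 0 => 0 | 1 => 1 | 2 => 2 | 3 => 4 | 4 => 0 | 5 => 3 | 6 => 1 | 7 => 2 | 8 => 0
/-- pairs of sides of the L-shape with weight different from one -/
def plB : Fin 9 → Fin 6
  | 0 => 1 | 1 => 2 | 2 => 3 | 3 => 5 | 4 => 5 | 5 => 4 | 6 => 4 | 7 => 5 | 8 => 3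
/-- the weights of these pairs -/
noncomputable def plc : Fin 9 → ℝ
  | 0 => kap | 1 => kap | 2 => kap | 3 => kap | 4 => rh | 5 => rh | 6 => kap | 7 => kap | 8 => rh

lemma plAB (k : Fin 9) : plA k < plB k := by
  fin_cases k <;> decide

lemma table (a b : Fin 6) (hab : a ≤ b) : wc (thS b - thS a - 1) =
    ∏ k : Fin 9, (if a = plA k ∧ b = plB k then plc k else 1) := by
  rw [prod_nine]
  fin_cases a <;> fin_cases b <;> first | (exfalso; revert hab; decide) | skip
  all_goals simp (decide := true) only [if_true, if_false, mul_one, one_mul, plc, thS]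
  all_goals first
    | exact wc_zero
    | exact wc_one
    | exact wc_two
    | (exact (wc_neg 1).trans wc_one)
    | (exact (wc_neg 2).trans wc_two)

lemma sideL_set (m : ℤ) (x : Half (ℤ × ℤ)) : (sideL m x = 0 ↔ x.2 = .W) ∧ (sideL m x = 1 ↔ x.2 = .S) ∧
    (sideL m x = 2 ↔ x.2 = .E ∧ x.1.2 < 2 * m) ∧ (sideL m x = 3 ↔ x.2 = .N ∧ 2 * m ≤ x.1.1) ∧
    (sideL m x = 4 ↔ x.2 = .E ∧ 2 * m ≤ x.1.2) ∧ (sideL m x = 5 ↔ x.2 = .N ∧ x.1.1 < 2 * m) := by
  obtain ⟨⟨i, j⟩, d⟩ := x
  cases d <;> simp only [sideL] <;> (try split_ifs) <;> simp_all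

lemma pos_side {m : ℕ} {x y : Half (ℤ × ℤ)} (hx : Bd (Lsh m) (plane.glue (Lsh m)) x)
    (hy : Bd (Lsh m) (plane.glue (Lsh m)) y) (h : sideL m x < sideL m y) :
    posL m x < posL m y := by
  obtain ⟨⟨i, j⟩, d⟩ := x
  obtain ⟨⟨i', j'⟩, d'⟩ := y
  obtain ⟨g1, g2⟩ := bd_plane.1 hx
  obtain ⟨g3, g4⟩ := bd_plane.1 hy
  rw [mem_Lsh] at g1 g2 g3 g4
  cases d <;> cases d' <;>
    simp only [Dir.vec, Prod.mk_add_mk, posL, sideL] at g1 g2 g3 g4 h ⊢ <;>
    (try split_ifs at h ⊢) <;> first | (exfalso; revert h; decide) | omega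

theorem Ex_fL {m : ℕ} (H : TurnLaw (Lsh m) (posL m) thR) : Ex (Lsh m) (fL m) = 1 := by
  have h1 := flip_one (plane.glu (Lsh m)) H.loops (posL m) thR H.inj H.law
  rw [← h1]
  refine Ex_congr fun ω _ => ?_
  symm
  rw [prod_sel (univ : Finset (Fin 9)) (plane.glu (Lsh m)) (A := fun k => {x | sideL m x = plA k})
    (B := fun k => {x | sideL m x = plB k}) (c := plc)]
  · rw [prod_nine]
    have e0 : {x : Half (ℤ × ℤ) | sideL m x = 0} = dset .W := Set.ext fun x => (sideL_set m x).1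
    have e1 : {x : Half (ℤ × ℤ) | sideL m x = 1} = dset .S := Set.ext fun x => (sideL_set m x).2.1
    have e2 : {x : Half (ℤ × ℤ) | sideL m x = 2} = lD m := Set.ext fun x => (sideL_set m x).2.2.1
    have e3 : {x : Half (ℤ × ℤ) | sideL m x = 3} = lC m := Set.ext fun x => (sideL_set m x).2.2.2.1
    have e4 : {x : Half (ℤ × ℤ) | sideL m x = 4} = lB m :=
      Set.ext fun x => (sideL_set m x).2.2.2.2.1
    have e5 : {x : Half (ℤ × ℤ) | sideL m x = 5} = lA m :=
      Set.ext fun x => (sideL_set m x).2.2.2.2.2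
    unfold fL
    have e : ∀ A B, pc (Lsh m) ω A B = pc (Lsh m) ω B A := cnt_symm (plane.glu _) ω
    rw [e (lD m) (dset .S), e (lB m) (lC m), e (lB m) (dset .S)]
    simp only [plA, plB, plc, e0, e1, e2, e3, e4, e5]
    rfl
  · intro x hx hp
    have hy := (plane.glu (Lsh m)).other_bd (ω := ω) hx
    have h2 : sideL m x ≤ sideL m (other (mate ω) (plane.glue (Lsh m)) x) := by
      by_contra h3
      rw [not_le] at h3
      exact absurd (pos_side hy hx h3) (not_lt.2 hp.le)
    rw [thR_side m, thR_side m x, table _ _ h2]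
    refine prod_congr rfl fun k _ => ?_
    by_cases h4 : sideL m x = plA k ∧ sideL m (other (mate ω) (plane.glue (Lsh m)) x) = plB k
    · exact (if_pos h4).trans (if_pos h4).symm
    · exact (if_neg h4).trans (if_neg h4).symm
  · intro k _ x y hx hy hA hB
    apply pos_side hx hy
    have hA' : sideL m x = plA k := hA
    have hB' : sideL m y = plB k := hB
    rw [hA', hB']
    exact plAB k

end Full.Corner
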