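import Pool.Agent.Full.Corner.PlaneNext
import Pool.Agent.Full.Corner.Ident
import Pool.Agent.Full.Turn.Law

/-!
# The square and the L-shape

Labels of the boundary half edges, counterclockwise from the upper left corner: left side (downwards),
lower side, right side(s), upper side(s).  Plane regions: inner corners are surrounded by four tiles
(`flat_plane`), no closed component (`open_plane`); the square and the L-shape are simply connected.
-/

set_option autoImplicit false

namespace Full.Shp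
open Function Relation Full

/-- the number of steps of the rotation from a boundary half edge to the next one -/
noncomputable def nst {τ : Type*} (g : Half τ → Half τ) (x : Half τ) : ℕ :=
  open Classical in
  if h : ∃ k, 1 ≤ k ∧ g ((rot g)^[k] x) = (rot g)^[k] x then Nat.find h else 0

theorem nst_eq_of {τ : Type*} {g : Half τ → Half τ} {x : Half τ} {k : ℕ} (hk : 1 ≤ k)
    (h1 : g ((rot g)^[k] x) = (rot g)^[k] x)
    (h2 : ∀ j, 1 ≤ j → j < k → g ((rot g)^[j] x) ≠ (rot g)^[j] x) : nst g x = k := by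
  classical
  have hex : ∃ k, 1 ≤ k ∧ g ((rot g)^[k] x) = (rot g)^[k] x := ⟨k, hk, h1⟩
  have h3 : Nat.find hex = k := (Nat.find_eq_iff hex).2 ⟨⟨hk, h1⟩, fun j hj h4 => h2 j h4.1 hj h4.2⟩
  unfold nst
  rw [dif_pos hex, h3]

/-- labels of the boundary half edges of a region: position and lifted direction -/
structure Lab {τ : Type*} (T : Finset τ) (g : Half τ → Half τ) (L : ℤ) (pos th : Half τ → ℤ) :
    Prop where
  rng : ∀ x, Bd T g x → 0 ≤ pos x ∧ pos x < L
  inj : ∀ x y, Bd T g x → Bd T g y → pos x = pos y → x = y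
  step : ∀ x, Bd T g x → pos x + 1 < L →
    pos (next g x) = pos x + 1 ∧ th (next g x) = th x + (2 - nst g x)

namespace Lab
variable {τ : Type*} {T : Finset τ} {g : Half τ → Half τ} {L : ℤ} {pos th : Half τ → ℤ}
  (h : Lab T g L pos th) (hG : Glu T g)
include h hG

theorem iter {x : Half τ} (hx : Bd T g x) : ∀ n : ℕ, pos x + n < L →
    pos ((next g)^[n] x) = pos x + n ∧
      th ((next g)^[n] x) = th x + ∑ j ∈ Finset.range n, (2 - (nst g ((next g)^[j] x) : ℤ)) := by
  intro n
  induction n with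
  | zero => intro _; simp
  | succ n ih =>
    intro hn
    have h1 := ih (by push_cast at hn; omega)
    have h2 := h.step _ (hG.bd_iter hx n) (by rw [h1.1]; push_cast at hn; omega)
    rw [iterate_succ_apply', Finset.sum_range_succ, h2.1, h2.2, h1.1, h1.2]
    push_cast
    constructor <;> ring

/-- the half edge at a later position is reached by iterating `next` -/
theorem reach {x y : Half τ} (hx : Bd T g x) (hy : Bd T g y) (hxy : pos x < pos y) :
    ∃ n : ℕ, 0 < n ∧ n < minimalPeriod (next g) x ∧ y = (next g)^[n] x ∧ (n : ℤ) = pos y - pos x ∧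
      ∑ j ∈ Finset.range n, (2 - (nst g ((next g)^[j] x) : ℤ)) = th y - th x := by
  have hn : ((pos y - pos x).toNat : ℤ) = pos y - pos x := by omega
  have hy2 := h.rng y hy
  have h1 := h.iter hG hx (pos y - pos x).toNat (by omega)
  have h2 : (next g)^[(pos y - pos x).toNat] x = y :=
    h.inj _ _ (hG.bd_iter hx _) hy (by rw [h1.1]; omega)
  refine ⟨(pos y - pos x).toNat, by omega, ?_, h2.symm, hn, ?_⟩
  · by_contra hc
    rw [not_lt] at hc
    have hp := (minimalPeriod_pos_of_mem_periodicPts (hG.next_periodic hx))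
    have h3 := h.iter hG hx (minimalPeriod (next g) x) (by omega)
    rw [iterate_minimalPeriod] at h3
    omega
  · rw [h2] at h1
    linarith [h1.2]

end Lab

/-- the three types of steps along the boundary of a plane region -/
theorem step_plane {T : Finset (ℤ × ℤ)} {t : ℤ × ℤ} {d : Dir} (h : Bd T (plane.glue T) (t, d)) :
    (t + d.ccw.vec ∉ T ∧ next (plane.glue T) (t, d) = (t, d.ccw) ∧ nst (plane.glue T) (t, d) = 1) ∨
    (t + d.ccw.vec ∈ T ∧ t + d.ccw.vec + d.vec ∉ T ∧
      next (plane.glue T) (t, d) = (t + d.ccw.vec, d) ∧ nst (plane.glue T) (t, d) = 2) ∨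
    (t + d.ccw.vec ∈ T ∧ t + d.ccw.vec + d.vec ∈ T ∧
      next (plane.glue T) (t, d) = (t + d.ccw.vec + d.vec, d.cw) ∧
      nst (plane.glue T) (t, d) = 3) := by
  have hb := bd_plane.1 h
  have hfix := (plane.glu T).next_fix h.2
  by_cases h1 : t + d.ccw.vec ∈ T
  · by_cases h2 : t + d.ccw.vec + d.vec ∈ T
    · obtain ⟨e1, e2, e3⟩ := next_rfx hb.1 hb.2 h1 h2
      rw [e1] at hfix
      exact Or.inr (Or.inr ⟨h1, h2, e1.trans e2, nst_eq_of (by norm_num) hfix e3⟩)
    · obtain ⟨e1, e2, e3⟩ := next_flat hb.1 hb.2 h1 h2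
      rw [e1] at hfix
      exact Or.inr (Or.inl ⟨h1, h2, e1.trans e2, nst_eq_of (by norm_num) hfix e3⟩)
  · obtain ⟨e1, e2⟩ := next_cvx hb.2 h1
    rw [e1] at hfix
    exact Or.inl ⟨h1, e1.trans e2, nst_eq_of le_rfl hfix (fun j h3 h4 => by omega)⟩

open Corner in
/-- labels of the square -/
theorem lab_Q (n : ℕ) : Lab (Q n) (plane.glue (Q n)) (4 * n) (posR n) thR := by
  refine ⟨?_, ?_, ?_⟩
  · rintro ⟨⟨i, j⟩, d⟩ hx
    rw [Shp.bd_plane] at hx
    cases d <;> simp only [Dir.vec, Prod.mk_add_mk, mem_Q, posR] at hx ⊢ <;> omega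
  · rintro ⟨⟨i, j⟩, d⟩ ⟨⟨i', j'⟩, d'⟩ hx hy hxy
    rw [Shp.bd_plane] at hx hy
    cases d <;> cases d' <;> simp only [Dir.vec, Prod.mk_add_mk, mem_Q, posR, Prod.mk.injEq,
      and_true, and_false, reduceCtorEq] at hx hy hxy ⊢ <;> omega
  · rintro ⟨⟨i, j⟩, d⟩ hx hL
    have hx' := Shp.bd_plane.1 hx
    rcases step_plane hx with ⟨h1, h2, h3⟩ | ⟨h1, h1', h2, h3⟩ | ⟨h1, h1', h2, h3⟩ <;>
      rw [h2, h3] <;> cases d <;>
      simp only [Dir.vec, Dir.ccw, Dir.cw, Prod.mk_add_mk, mem_Q, posR, thR] at * <;> omega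

open Corner in
/-- labels of the L-shape -/
theorem lab_Lsh (m : ℕ) : Lab (Lsh m) (plane.glue (Lsh m)) (16 * m) (posL m) thR := by
  refine ⟨?_, ?_, ?_⟩
  · rintro ⟨⟨i, j⟩, d⟩ hx
    rw [Shp.bd_plane] at hx
    cases d <;> simp only [Dir.vec, Prod.mk_add_mk, mem_Lsh, posL] at hx ⊢ <;> (try split_ifs) <;>
      omega
  · rintro ⟨⟨i, j⟩, d⟩ ⟨⟨i', j'⟩, d'⟩ hx hy hxy
    rw [Shp.bd_plane] at hx hy
    cases d <;> cases d' <;> simp only [Dir.vec, Prod.mk_add_mk, mem_Lsh, posL, Prod.mk.injEq,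
      and_true, and_false, reduceCtorEq] at hx hy hxy ⊢ <;> (try split_ifs at hxy) <;> omega
  · rintro ⟨⟨i, j⟩, d⟩ hx hL
    have hx' := Shp.bd_plane.1 hx
    rcases step_plane hx with ⟨h1, h2, h3⟩ | ⟨h1, h1', h2, h3⟩ | ⟨h1, h1', h2, h3⟩ <;>
      rw [h2, h3] <;> cases d <;>
      simp only [Dir.vec, Dir.ccw, Dir.cw, Prod.mk_add_mk, mem_Lsh, posL, thR] at * <;>
      (try split_ifs at hL ⊢) <;> omega

/-! ### simply connected -/

lemma down_path {T : Set (ℤ × ℤ)} {x y : ℤ} (h : ∀ j, (x, j) ∉ T) : ∀ n : ℕ,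
    Relation.ReflTransGen (fun a b => Disc.Nb a b ∧ b ∉ T) (x, y) (x, y - n) := by
  intro n
  induction n with
  | zero => simpa using Relation.ReflTransGen.refl
  | succ n ih =>
    refine ih.tail ⟨?_, h _⟩
    have h1 := Disc.Nb.down x (y - (n + 1 : ℕ))
    rwa [show y - ((n + 1 : ℕ) : ℤ) + 1 = y - n by push_cast; ring] at h1

/-- a region in the upper right quadrant whose rows are intervals starting at `0` -/
theorem free_of_rows {T : Finset (ℤ × ℤ)} (h0 : ∀ i j, (i, j) ∈ T → 0 ≤ i ∧ 0 ≤ j)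
    (h1 : ∀ i i' j, (i, j) ∈ T → 0 ≤ i' → i' ≤ i → (i', j) ∈ T) (c : ℤ × ℤ) (hc : c ∉ T) :
    Disc.Free (T : Set (ℤ × ℤ)) c := by
  obtain ⟨x, y⟩ := c
  by_cases hx : x < 0
  · have h2 : ∀ j, (x, j) ∉ (T : Set (ℤ × ℤ)) := fun j hj => by
      have := h0 x j (Finset.mem_coe.1 hj); omega
    refine ⟨(x, y - ((y.toNat + 1 : ℕ) : ℤ)), down_path h2 _, fun i hi hT => ?_⟩
    have := h0 i _ (Finset.mem_coe.1 hT)
    simp only at this
    omega
  · refine ⟨(x, y), Relation.ReflTransGen.refl, fun i hi hT => hc ?_⟩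
    exact h1 i x y (Finset.mem_coe.1 hT) (by omega) hi

open Corner in
theorem sc_Q (n : ℕ) : SC (Q n) (plane.glue (Q n)) := by
  refine isPlane_plane.sc (free_of_rows ?_ ?_)
  · intro i j h; rw [mem_Q] at h; simp only at h; omega
  · intro i i' j h h1 h2; rw [mem_Q] at h ⊢; simp only at h ⊢; omega

open Corner in
theorem sc_Lsh (m : ℕ) : SC (Lsh m) (plane.glue (Lsh m)) := by
  refine isPlane_plane.sc (free_of_rows ?_ ?_)
  · intro i j h; rw [mem_Lsh] at h; simp only at h; omega
  · intro i i' j h h1 h2; rw [mem_Lsh] at h ⊢; simp only at h ⊢; omega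

/-! ### plane regions are flat and open -/

theorem flat_plane (T : Finset (ℤ × ℤ)) : Turn.Flat T (plane.glue T) :=
  fun _ hz h => rot_four hz fun j _ => h j

lemma reach_E {g : Half (ℤ × ℤ) → Half (ℤ × ℤ)} (t : ℤ × ℤ) (d : Dir) : Turn.Reach g (t, d) (t, .E) := by
  have s : ∀ x : Half (ℤ × ℤ), Turn.Reach g x (rho x) := fun x =>
    Relation.ReflTransGen.single (Or.inl rfl)
  cases d
  · exact Relation.ReflTransGen.refl
  · exact ((s _).trans (s _)).trans (s _)
  · exact (s _).trans (s _)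
  · exact s _

theorem open_plane (T : Finset (ℤ × ℤ)) : Turn.Open T (plane.glue T) := by
  obtain ⟨M, hM⟩ : ∃ M : ℤ, ∀ t ∈ T, t.1 ≤ M := by
    induction T using Finset.induction_on with
    | empty => exact ⟨0, fun t ht => absurd ht (Finset.notMem_empty t)⟩
    | insert a s _ ih =>
      obtain ⟨M, hM⟩ := ih
      refine ⟨max M a.1, fun t ht => ?_⟩
      rcases Finset.mem_insert.1 ht with rfl | h
      · exact le_max_right _ _
      · exact (hM t h).trans (le_max_left _ _)
  have key : ∀ (n : ℕ) (t : ℤ × ℤ), t ∈ T → M < t.1 + n →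
      ∃ w, Turn.Reach (plane.glue T) (t, .E) w ∧ plane.glue T w = w := by
    intro n
    induction n with
    | zero => intro t ht h; have := hM t ht; push_cast at h; omega
    | succ n ih =>
      intro t ht h
      by_cases h1 : t + Dir.E.vec ∈ T
      · obtain ⟨w, h2, h3⟩ := ih (t + Dir.E.vec) h1 (by
          show M < t.1 + 1 + n
          push_cast at h
          omega)
        refine ⟨w, ?_, h3⟩
        refine Relation.ReflTransGen.head (b := plane.glue T (t, .E)) (Or.inr rfl) ?_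
        rw [glue_pos ht h1]
        exact (reach_E _ _).trans h2
      · exact ⟨(t, .E), Relation.ReflTransGen.refl, glue_neg h1⟩
  rintro ⟨t, d⟩ hz
  obtain ⟨w, h2, h3⟩ := key (M - t.1 + 1).toNat t hz (by have := hM t hz; omega)
  exact ⟨w, (reach_E t d).trans h2, h3⟩

end Full.Shp
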