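import Pool.Agent.Full.Corner.Holder

/-!
# Local factors `x ^ K` of a counting variable

If `E (4/3)^K ≤ B` then both `(2/√3)^K` and `(1/√3)^K` are admissible local factors with the
constant `B ^ 2`.
-/

namespace Full.Corner

open Finset Full.Mom

variable {ι : Type*} [Fintype ι] [DecidableEq ι]

/-- Jensen's inequality for the exponential function -/
lemma exp_avg_le (f : (ι → Bool) → ℝ) : Real.exp (avg f) ≤ avg fun ω => Real.exp (f ω) := by
  have hN : (0 : ℝ) < 2 ^ Fintype.card ι := by positivity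
  have hcard : (Fintype.card (ι → Bool) : ℝ) = 2 ^ Fintype.card ι := by
    rw [Fintype.card_fun, Fintype.card_bool]; push_cast; rfl
  have h := convexOn_exp.map_sum_le (t := (univ : Finset (ι → Bool)))
    (w := fun _ => (2 ^ Fintype.card ι : ℝ)⁻¹) (p := f) (fun _ _ => by positivity)
    (by
      rw [sum_const, card_univ, nsmul_eq_mul, hcard]
      exact mul_inv_cancel₀ hN.ne')
    (fun _ _ => Set.mem_univ _)
  simp only [smul_eq_mul] at h
  rw [← mul_sum, ← mul_sum] at h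
  unfold avg
  rw [div_eq_inv_mul, div_eq_inv_mul]
  exact h

/-- `y ^ (E K) ≤ E y ^ K` -/
lemma rpow_avg_le {y : ℝ} (hy : 0 < y) (K : (ι → Bool) → ℕ) :
    y ^ (avg fun ω => (K ω : ℝ)) ≤ avg fun ω => y ^ K ω := by
  have h := exp_avg_le (fun ω => Real.log y * (K ω : ℝ))
  rw [avg_mul_left] at h
  have e : ∀ ω, Real.exp (Real.log y * (K ω : ℝ)) = y ^ K ω := fun ω => by
    rw [← Real.rpow_def_of_pos hy, Real.rpow_natCast]
  simp only [e] at h
  rwa [← Real.rpow_def_of_pos hy] at h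

lemma sqrt3_pos : 0 < Real.sqrt 3 := Real.sqrt_pos.2 (by norm_num)

lemma one_le_two_div_sqrt3 : 1 ≤ 2 / Real.sqrt 3 := by
  rw [le_div_iff₀ sqrt3_pos, one_mul]
  rw [show (2 : ℝ) = Real.sqrt (2 ^ 2) by rw [Real.sqrt_sq (by norm_num)]]
  exact Real.sqrt_le_sqrt (by norm_num)

/-- a convex corner -/
theorem tame_convex {K : (ι → Bool) → ℕ} {B : ℝ} (hB : 1 ≤ B)
    (h : (avg fun ω => (4 / 3 : ℝ) ^ K ω) ≤ B) :
    Tame 2 (B ^ 2) fun ω => (2 / Real.sqrt 3) ^ K ω := by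
  refine Or.inl ⟨fun ω => one_le_pow₀ one_le_two_div_sqrt3, ?_⟩
  have e : ∀ ω, ((2 / Real.sqrt 3) ^ K ω) ^ (2 : ℝ) = (4 / 3 : ℝ) ^ K ω := fun ω => by
    rw [Real.rpow_two, ← pow_mul, mul_comm, pow_mul, div_pow, Real.sq_sqrt (by norm_num)]
    norm_num
  simp only [e]
  refine h.trans ?_
  calc B = B ^ 1 := (pow_one B).symm
    _ ≤ B ^ 2 := pow_le_pow_right₀ hB (by norm_num)

/-- a reflex corner, or a convex corner with a charge -/
theorem tame_reflex {K : (ι → Bool) → ℕ} {B : ℝ} (hB : 1 ≤ B)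
    (h : (avg fun ω => (4 / 3 : ℝ) ^ K ω) ≤ B) :
    Tame 2 (B ^ 2) fun ω => (1 / Real.sqrt 3) ^ K ω := by
  have hs : 1 ≤ Real.sqrt 3 := by
    rw [show (1 : ℝ) = Real.sqrt 1 by simp]
    exact Real.sqrt_le_sqrt (by norm_num)
  have h1 : 1 / Real.sqrt 3 ≤ 1 := by
    rw [div_le_one sqrt3_pos]; exact hs
  have h0 : (0 : ℝ) < 1 / Real.sqrt 3 := by have := sqrt3_pos; positivity
  refine Or.inr ⟨fun ω => ⟨by positivity, pow_le_one₀ h0.le h1⟩, ?_⟩
  set m : ℝ := avg fun ω => (K ω : ℝ) with hm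
  have hm0 : 0 ≤ m := avg_nonneg fun ω => by positivity
  have a1 : (4 / 3 : ℝ) ^ m ≤ B := (rpow_avg_le (by norm_num) K).trans h
  have a2 : (1 / Real.sqrt 3) ^ m ≤ avg fun ω => (1 / Real.sqrt 3) ^ K ω := rpow_avg_le h0 K
  have a3 : 1 ≤ ((4 / 3 : ℝ) ^ m) ^ 2 * (1 / Real.sqrt 3) ^ m := by
    rw [← Real.rpow_natCast, ← Real.rpow_mul (by norm_num), mul_comm m, Real.rpow_mul (by norm_num),
      ← Real.mul_rpow (by positivity) h0.le]
    apply Real.one_le_rpow _ hm0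
    push_cast
    rw [Real.rpow_two, mul_one_div, le_div_iff₀ sqrt3_pos, one_mul]
    rw [show ((4 / 3 : ℝ) ^ 2) = Real.sqrt (((4 / 3 : ℝ) ^ 2) ^ 2) by
      rw [Real.sqrt_sq (by norm_num)]]
    exact Real.sqrt_le_sqrt (by norm_num)
  calc (1 : ℝ) ≤ ((4 / 3 : ℝ) ^ m) ^ 2 * (1 / Real.sqrt 3) ^ m := a3
    _ ≤ B ^ 2 * avg fun ω => (1 / Real.sqrt 3) ^ K ω := by
      apply mul_le_mul
      · exact pow_le_pow_left₀ (by positivity) a1 2
      · exact a2
      · positivity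
      · positivity

/-- local factors are between `B⁻¹` and `B` -/
lemma Tame.avg_le {B : ℝ} (hB : 1 ≤ B) {X : (ι → Bool) → ℝ} (h : Tame 2 B X) : avg X ≤ B := by
  rcases h with h | h
  · refine le_trans (avg_mono fun ω => ?_) h.2
    rw [Real.rpow_two, sq]
    exact le_mul_of_one_le_left (zero_le_one.trans (h.1 ω)) (h.1 ω)
  · refine le_trans (avg_mono (g := fun _ => 1) fun ω => (h.1 ω).2) ?_
    rw [avg_const]; exact hB

lemma Tame.one_le {B : ℝ} (hB : 1 ≤ B) {X : (ι → Bool) → ℝ} (h : Tame 2 B X) :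
    1 ≤ B * avg X := by
  rcases h with h | h
  · have := one_le_avg h.1
    nlinarith
  · exact h.2

/-! ## upper decoupling with given upper bounds of the local means -/

/-- `u` is an upper bound of the mean of the local factor `X` (no lower bound of the mean of `X` is
needed: it is enough that `u ≥ 1 / B`) -/
def LocUp (B u : ℝ) (X : (ι → Bool) → ℝ) : Prop :=
  ((∀ ω, 1 ≤ X ω) ∧ (avg fun ω => X ω ^ (2 : ℝ)) ≤ B ∧ avg X ≤ u) ∨
    ((∀ ω, 0 ≤ X ω ∧ X ω ≤ 1) ∧ avg X ≤ u ∧ 1 ≤ B * u)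

lemma LocUp.nonneg {B u : ℝ} {X : (ι → Bool) → ℝ} (h : LocUp B u X) (ω : ι → Bool) :
    0 ≤ X ω := by
  rcases h with h | h
  · exact zero_le_one.trans (h.1 ω)
  · exact (h.1 ω).1

lemma Tame.locUp {B : ℝ} {X : (ι → Bool) → ℝ} (h : Tame 2 B X) : LocUp B (avg X) X := by
  rcases h with h | h
  · exact Or.inl ⟨h.1, h.2, le_rfl⟩
  · exact Or.inr ⟨h.1, le_rfl, h.2⟩

lemma LocUp.mono_u {B u v : ℝ} (hB : 0 ≤ B) {X : (ι → Bool) → ℝ} (h : LocUp B u X)
    (huv : u ≤ v) : LocUp B v X := by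
  rcases h with h | h
  · exact Or.inl ⟨h.1, h.2.1, h.2.2.trans huv⟩
  · exact Or.inr ⟨h.1, h.2.1.trans huv, h.2.2.trans (mul_le_mul_of_nonneg_left huv hB)⟩

/-- an event as a local factor -/
lemma LocUp.of_pr {B u : ℝ} {E : (ι → Bool) → Prop} (h : pr E ≤ u) (hB : 1 ≤ B * u) :
    LocUp B u fun ω => (open scoped Classical in if E ω then (1 : ℝ) else 0) := by
  refine Or.inr ⟨fun ω => ?_, h, hB⟩
  show 0 ≤ (open scoped Classical in if E ω then (1 : ℝ) else 0) ∧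
    (open scoped Classical in if E ω then (1 : ℝ) else 0) ≤ 1
  split_ifs <;> norm_num

lemma locUp_holder {B u η : ℝ} (hB : 1 ≤ B) (hη : 0 < η) (hη' : η < 1) {X : (ι → Bool) → ℝ}
    (h : LocUp B u X) : (avg fun ω => X ω ^ (1 + η)) ^ (1 / (1 + η)) ≤ B ^ η * u := by
  have hB0 : 0 < B := by linarith
  rcases h with h | h
  · refine (tame_up hB hη hη' (Or.inl ⟨h.1, h.2.1⟩)).trans ?_
    exact mul_le_mul_of_nonneg_left h.2.2 (by positivity)
  · have hX0 : ∀ ω, 0 ≤ X ω := fun ω => (h.1 ω).1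
    have hp0 : 0 < 1 + η := by linarith
    have hu : 0 < u := by
      by_contra hc
      have : B * u ≤ 0 := mul_nonpos_of_nonneg_of_nonpos hB0.le (not_lt.1 hc)
      linarith [h.2.2]
    have h1 : (avg fun ω => X ω ^ (1 + η)) ≤ u := by
      refine le_trans (avg_mono fun ω => ?_) h.2.1
      rcases (hX0 ω).eq_or_lt with h0 | h0
      · rw [← h0, Real.zero_rpow hp0.ne']
      · calc X ω ^ (1 + η) ≤ X ω ^ (1 : ℝ) :=
              Real.rpow_le_rpow_of_exponent_ge h0 (h.1 ω).2 (by linarith)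
          _ = X ω := Real.rpow_one _
    have h2 : u⁻¹ ≤ B := by
      rw [inv_le_iff_one_le_mul₀ hu]; exact h.2.2
    have h4 : 0 ≤ avg fun ω => X ω ^ (1 + η) := avg_nonneg fun ω => Real.rpow_nonneg (hX0 ω) _
    have h5 : 1 - 1 / (1 + η) ≤ η := by
      have : 1 - 1 / (1 + η) = η / (1 + η) := by field_simp; ring
      rw [this]
      exact div_le_self hη.le (by linarith)
    have h6 : 0 ≤ 1 - 1 / (1 + η) := by
      rw [sub_nonneg, div_le_one hp0]; linarith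
    calc (avg fun ω => X ω ^ (1 + η)) ^ (1 / (1 + η)) ≤ u ^ (1 / (1 + η)) :=
          Real.rpow_le_rpow h4 h1 (by positivity)
      _ = u⁻¹ ^ (1 - 1 / (1 + η)) * u := by
          have e : u = u ^ (1 : ℝ) := (Real.rpow_one _).symm
          conv_rhs => rw [Real.inv_rpow hu.le, ← Real.rpow_neg hu.le]; arg 2; rw [e]
          rw [← Real.rpow_add hu]
          congr 1
          ring
      _ ≤ B ^ (1 - 1 / (1 + η)) * u :=
          mul_le_mul_of_nonneg_right (Real.rpow_le_rpow (by positivity) h2 h6) hu.le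
      _ ≤ B ^ η * u :=
          mul_le_mul_of_nonneg_right (Real.rpow_le_rpow_of_exponent_le hB h5) hu.le

/-- **upper decoupling**, general form: `f ≤ ∏ X_k * a ^ M`, `E X_k ≤ u_k` -/
theorem decouple_upper' {κ : Type*} [DecidableEq κ] (s : Finset κ) {A : κ → Set ι}
    {X : κ → (ι → Bool) → ℝ} {u : κ → ℝ} {f : (ι → Bool) → ℝ} {M : (ι → Bool) → ℕ}
    {a B C η : ℝ} (hη : 0 < η) (hη' : η < 1) (hB : 1 ≤ B) (ha : 0 ≤ a) (hC : 1 ≤ C)
    (hA : ∀ k ∈ s, ∀ l ∈ s, k ≠ l → Disjoint (A k) (A l)) (hX : ∀ k ∈ s, Dep (A k) (X k))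
    (hT : ∀ k ∈ s, LocUp B (u k) (X k)) (hf : ∀ ω, f ω ≤ (∏ k ∈ s, X k ω) * a ^ M ω)
    (hM : (avg fun ω => (a ^ ((1 + η) / η)) ^ M ω) ≤ C) :
    avg f ≤ (B ^ η) ^ s.card * (∏ k ∈ s, u k) * C := by
  have hp1 : 1 < 1 + η := by linarith
  have hpq : (1 + η).HolderConjugate ((1 + η) / η) := by
    have := Real.HolderConjugate.conjExponent hp1
    have e : Real.conjExponent (1 + η) = (1 + η) / η := by
      rw [Real.conjExponent]; congr 1; ring
    rwa [e] at this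
  have h := upper s hA hX (fun k hk ω => (hT k hk).nonneg ω) (G := fun ω => a ^ M ω)
    (fun ω => by positivity) hf hpq
  have e1 : ∀ ω, (a ^ M ω) ^ ((1 + η) / η) = (a ^ ((1 + η) / η)) ^ M ω := fun ω => by
    rw [← Real.rpow_natCast, ← Real.rpow_natCast, ← Real.rpow_mul ha, ← Real.rpow_mul ha, mul_comm]
  simp only [e1] at h
  have h0 : 0 ≤ avg fun ω => (a ^ ((1 + η) / η)) ^ M ω := avg_nonneg fun ω => by positivity
  have h1 : (avg fun ω => (a ^ ((1 + η) / η)) ^ M ω) ^ (1 / ((1 + η) / η)) ≤ C := by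
    calc (avg fun ω => (a ^ ((1 + η) / η)) ^ M ω) ^ (1 / ((1 + η) / η))
        ≤ C ^ (1 / ((1 + η) / η)) := Real.rpow_le_rpow h0 hM (by positivity)
      _ ≤ C ^ (1 : ℝ) := by
          apply Real.rpow_le_rpow_of_exponent_le hC
          rw [one_div_div, div_le_one (by linarith)]; linarith
      _ = C := Real.rpow_one _
  have hu0 : ∀ k ∈ s, 0 ≤ u k := fun k hk => by
    have h2 := locUp_holder hB hη hη' (hT k hk)
    have h3 : 0 ≤ (avg fun ω => X k ω ^ (1 + η)) ^ (1 / (1 + η)) :=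
      Real.rpow_nonneg (avg_nonneg fun ω => Real.rpow_nonneg ((hT k hk).nonneg ω) _) _
    have h4 : 0 < B ^ η := by positivity
    exact nonneg_of_mul_nonneg_right (h3.trans h2) h4
  have h2 : ∏ k ∈ s, (avg fun ω => X k ω ^ (1 + η)) ^ (1 / (1 + η)) ≤
      (B ^ η) ^ s.card * ∏ k ∈ s, u k := by
    rw [← prod_const, ← prod_mul_distrib]
    apply prod_le_prod
    · intro k hk
      exact Real.rpow_nonneg (avg_nonneg fun ω => Real.rpow_nonneg ((hT k hk).nonneg ω) _) _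
    · intro k hk
      exact locUp_holder hB hη hη' (hT k hk)
  refine h.trans (mul_le_mul h2 h1 (Real.rpow_nonneg h0 _) ?_)
  exact mul_nonneg (by positivity) (prod_nonneg hu0)

end Full.Corner
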