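import Pool.Agent.Full.Walk.Fin
import Pool.Agent.Full.Corner.Count

/-!
# Averages of local functions of a uniform subset

The decoupling theorems for the uniform average `Ex T` over the subsets of `T`; the local factors
depend on the configuration in disjoint windows `W k ⊆ T`.
-/

set_option autoImplicit false

namespace Full.Corner
open Finset Full.Mom Full.Walk
open Full.Perc (Ex Ex_mono Ex_congr Ex_nonneg)

variable {E : Type*} [DecidableEq E]

lemma Ex_insert {F : Finset E} {t : E} (ht : t ∉ F) (f : Finset E → ℝ) :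
    Ex (insert t F) f = (Ex F f + Ex F (fun S => f (insert t S))) / 2 := by
  unfold Ex
  rw [sum_powerset_insert ht, card_insert_of_notMem ht, pow_succ]
  field_simp

/-- the average of a function which depends only on the configuration in `W` -/
theorem Ex_local {W T : Finset E} (hWT : W ⊆ T) {f : Finset E → ℝ}
    (hf : ∀ S, f (S ∩ W) = f S) : Ex T f = Ex W f := by
  have key : ∀ V : Finset E, Disjoint W V → Ex (W ∪ V) f = Ex W f := by
    intro V
    induction V using Finset.induction_on with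
    | empty => intro _; rw [union_empty]
    | insert t V ht ih =>
      intro hd
      rw [disjoint_insert_right] at hd
      have h1 : t ∉ W ∪ V := by
        rw [mem_union]; rintro (h | h)
        · exact hd.1 h
        · exact ht h
      rw [union_insert, Ex_insert h1, ih hd.2]
      have h2 : ∀ S, f (insert t S) = f S := by
        intro S
        rw [← hf, insert_inter_of_notMem hd.1, hf]
      simp only [h2]
      rw [ih hd.2]
      ring
  have := key (T \ W) disjoint_sdiff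
  rwa [union_sdiff_of_subset hWT] at this

/-- local factors, for uniform subsets -/
def TameE (B : ℝ) (W : Finset E) (X : Finset E → ℝ) : Prop :=
  ((∀ S, 1 ≤ X S) ∧ Ex W (fun S => X S ^ (2 : ℝ)) ≤ B) ∨
    ((∀ S, 0 ≤ X S ∧ X S ≤ 1) ∧ 1 ≤ B * Ex W X)

section tame
variable {W T : Finset E} {X : Finset E → ℝ} {B : ℝ}

lemma TameE.tame (h : TameE B W X) (hWT : W ⊆ T) (hX : ∀ S, X (S ∩ W) = X S) :
    Tame 2 B (fun ω : T → Bool => X (ofBits T ω)) := by
  rcases h with ⟨h1, h2⟩ | ⟨h1, h2⟩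
  · left
    refine ⟨fun ω => h1 _, ?_⟩
    rw [← Ex_eq_avg T (fun S => X S ^ (2 : ℝ)), Ex_local hWT (fun S => by rw [hX])]
    exact h2
  · right
    refine ⟨fun ω => h1 _, ?_⟩
    rw [← Ex_eq_avg T X, Ex_local hWT hX]
    exact h2

lemma TameE.mono (h : TameE B W X) {B' : ℝ} (hB : B ≤ B') : TameE B' W X := by
  rcases h with ⟨h1, h2⟩ | ⟨h1, h2⟩
  · exact Or.inl ⟨h1, h2.trans hB⟩
  · refine Or.inr ⟨h1, h2.trans ?_⟩
    exact mul_le_mul_of_nonneg_right hB (Ex_nonneg fun S _ => (h1 S).1)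

/-- a convex corner -/
theorem tameE_convex {K : Finset E → ℕ} (hB : 1 ≤ B) (h : Ex W (fun S => (4 / 3 : ℝ) ^ K S) ≤ B) :
    TameE (B ^ 2) W fun S => (2 / Real.sqrt 3) ^ K S := by
  rw [Ex_eq_avg] at h
  refine Or.inl ⟨fun ω => one_le_pow₀ one_le_two_div_sqrt3, ?_⟩
  rw [Ex_eq_avg]
  rcases tame_convex (K := fun ω : W → Bool => K (ofBits W ω)) hB h with h1 | h1
  · exact h1.2
  · refine le_trans (avg_mono (g := fun _ => 1) fun ω => ?_) ?_
    · exact Real.rpow_le_one (h1.1 ω).1 (h1.1 ω).2 (by norm_num)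
    · rw [avg_const]
      exact one_le_pow₀ hB

/-- a reflex corner -/
theorem tameE_reflex {K : Finset E → ℕ} (hB : 1 ≤ B) (h : Ex W (fun S => (4 / 3 : ℝ) ^ K S) ≤ B) :
    TameE (B ^ 2) W fun S => (1 / Real.sqrt 3) ^ K S := by
  rw [Ex_eq_avg] at h
  have hs : 1 ≤ Real.sqrt 3 := by
    rw [show (1 : ℝ) = Real.sqrt 1 by simp]
    exact Real.sqrt_le_sqrt (by norm_num)
  have h1 : 1 / Real.sqrt 3 ≤ 1 := by
    rw [div_le_one sqrt3_pos]; exact hs
  have h0 : (0 : ℝ) < 1 / Real.sqrt 3 := by have := sqrt3_pos; positivity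
  refine Or.inr ⟨fun ω => ⟨by positivity, pow_le_one₀ h0.le h1⟩, ?_⟩
  rw [Ex_eq_avg]
  exact (tame_reflex (K := fun ω : W → Bool => K (ofBits W ω)) hB h).one_le (one_le_pow₀ hB)

end tame

lemma dep_ofBits {T W : Finset E} {X : Finset E → ℝ} (hX : ∀ S, X (S ∩ W) = X S) :
    Dep {t : T | (t : E) ∈ W} (fun ω : T → Bool => X (ofBits T ω)) := by
  intro ω ω' h
  have : ofBits T ω ∩ W = ofBits T ω' ∩ W := by
    ext t
    rw [mem_inter, mem_inter, mem_ofBits, mem_ofBits]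
    constructor
    · rintro ⟨⟨h1, h2⟩, h3⟩
      exact ⟨⟨h1, by rw [← h ⟨t, h1⟩ h3]; exact h2⟩, h3⟩
    · rintro ⟨⟨h1, h2⟩, h3⟩
      exact ⟨⟨h1, by rw [h ⟨t, h1⟩ h3]; exact h2⟩, h3⟩
  show X _ = X _
  rw [← hX, this, hX]

/-- **upper decoupling** for uniform subsets -/
theorem Ex_upper {κ : Type*} [DecidableEq κ] (s : Finset κ) {T : Finset E} {W : κ → Finset E}
    {X : κ → Finset E → ℝ} {f : Finset E → ℝ} {M : Finset E → ℕ} {a B C η : ℝ}
    (hη : 0 < η) (hη' : η < 1) (hB : 1 ≤ B) (ha : 0 ≤ a) (hC : 1 ≤ C)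
    (hW : ∀ k ∈ s, W k ⊆ T) (hd : ∀ k ∈ s, ∀ l ∈ s, k ≠ l → Disjoint (W k) (W l))
    (hX : ∀ k ∈ s, ∀ S, X k (S ∩ W k) = X k S) (hT : ∀ k ∈ s, TameE B (W k) (X k))
    (hf : ∀ S ⊆ T, f S ≤ (∏ k ∈ s, X k S) * a ^ M S)
    (hM : Ex T (fun S => (a ^ ((1 + η) / η)) ^ M S) ≤ C) :
    Ex T f ≤ (B ^ η) ^ s.card * (∏ k ∈ s, Ex (W k) (X k)) * C := by
  rw [Ex_eq_avg] at hM ⊢
  have h1 : ∏ k ∈ s, Ex (W k) (X k) = ∏ k ∈ s, avg (fun ω : T → Bool => X k (ofBits T ω)) :=
    prod_congr rfl fun k hk => by rw [← Ex_local (hW k hk) (hX k hk), Ex_eq_avg]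
  rw [h1]
  refine decouple_upper (ι := T) s (A := fun k => {t : T | (t : E) ∈ W k})
    (X := fun k ω => X k (ofBits T ω)) (f := fun ω => f (ofBits T ω))
    (M := fun ω => M (ofBits T ω)) hη hη' hB ha hC ?_
    (fun k hk => dep_ofBits (hX k hk)) (fun k hk => (hT k hk).tame (hW k hk) (hX k hk)) ?_ hM
  · intro k hk l hl hkl
    rw [Set.disjoint_left]
    intro t h2 h3
    exact disjoint_left.1 (hd k hk l hl hkl) h2 h3
  · intro ω
    exact hf _ fun x hx => (mem_ofBits.1 hx).1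

/-- **lower decoupling** for uniform subsets -/
theorem Ex_lower {κ : Type*} [DecidableEq κ] (s : Finset κ) {T : Finset E} {W : κ → Finset E}
    {X : κ → Finset E → ℝ} {f : Finset E → ℝ} {M : Finset E → ℕ} {b B C η : ℝ}
    (hη : 0 < η) (hη' : η < 1) (hB : 1 ≤ B) (hb : 0 < b) (hC : 1 ≤ C)
    (hW : ∀ k ∈ s, W k ⊆ T) (hd : ∀ k ∈ s, ∀ l ∈ s, k ≠ l → Disjoint (W k) (W l))
    (hX : ∀ k ∈ s, ∀ S, X k (S ∩ W k) = X k S) (hT : ∀ k ∈ s, TameE B (W k) (X k))
    (hf : ∀ S ⊆ T, (∏ k ∈ s, X k S) * (b⁻¹) ^ M S ≤ f S)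
    (hM : Ex T (fun S => (b ^ (1 / η)) ^ M S) ≤ C) :
    ∏ k ∈ s, Ex (W k) (X k) ≤ (B ^ η) ^ s.card * (Ex T f * C) := by
  rw [Ex_eq_avg] at hM ⊢
  have h1 : ∏ k ∈ s, Ex (W k) (X k) = ∏ k ∈ s, avg (fun ω : T → Bool => X k (ofBits T ω)) :=
    prod_congr rfl fun k hk => by rw [← Ex_local (hW k hk) (hX k hk), Ex_eq_avg]
  rw [h1]
  refine decouple_lower (ι := T) s (A := fun k => {t : T | (t : E) ∈ W k})
    (X := fun k ω => X k (ofBits T ω)) (f := fun ω => f (ofBits T ω))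
    (M := fun ω => M (ofBits T ω)) hη hη' hB hb hC ?_
    (fun k hk => dep_ofBits (hX k hk)) (fun k hk => (hT k hk).tame (hW k hk) (hX k hk)) ?_ hM
  · intro k hk l hl hkl
    rw [Set.disjoint_left]
    intro t h2 h3
    exact disjoint_left.1 (hd k hk l hl hkl) h2 h3
  · intro ω
    exact hf _ fun x hx => (mem_ofBits.1 hx).1

end Full.Corner
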