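import Pool.Agent.Full.Disc.PlaneSC
import Pool.Agent.Full.Def.Inst

/-!
# The boundary of a plane region

`next_plane`: the next boundary half edge of a plane region, in terms of the cells of the region.
`Lab T g L pos th`: labels of the boundary half edges: `pos` = position, `th` = direction (quarter turns,
lifted along the boundary).
-/

set_option autoImplicit false

namespace Full.Shp
open Function Relation Full

section general
variable {τ : Type*} {g : Half τ → Half τ}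

/-- characterisation of `next` by the number of steps of the rotation -/
theorem next_eq_of {x : Half τ} {k : ℕ} (hk : 1 ≤ k) (h1 : g ((rot g)^[k] x) = (rot g)^[k] x)
    (h2 : ∀ j, 1 ≤ j → j < k → g ((rot g)^[j] x) ≠ (rot g)^[j] x) : next g x = (rot g)^[k] x := by
  classical
  have hex : ∃ k, 1 ≤ k ∧ g ((rot g)^[k] x) = (rot g)^[k] x := ⟨k, hk, h1⟩
  have h3 : Nat.find hex = k := (Nat.find_eq_iff hex).2 ⟨⟨hk, h1⟩, fun j hj h4 => h2 j h4.1 hj h4.2⟩
  unfold next
  rw [dif_pos hex, h3]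

end general

section plane
variable {T : Finset (ℤ × ℤ)}

theorem isPlane_plane : IsPlane plane := ⟨fun _ => rfl, fun _ => rfl⟩

lemma Dir.vec_cw_add (d : Dir) : d.ccw.vec + d.cw.vec = 0 := by cases d <;> rfl

lemma bd_plane {t : ℤ × ℤ} {d : Dir} : Bd T (plane.glue T) (t, d) ↔ t ∈ T ∧ t + d.vec ∉ T := by
  unfold Bd
  rw [plane_glue]
  constructor
  · rintro ⟨h1, h2⟩
    refine ⟨h1, fun h3 => ?_⟩
    rw [if_pos ⟨h1, h3⟩] at h2
    exact Dir.opp_ne d (congrArg Prod.snd h2)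
  · rintro ⟨h1, h2⟩
    exact ⟨h1, if_neg fun h => h2 h.2⟩

lemma glue_pos {t : ℤ × ℤ} {d : Dir} (h1 : t ∈ T) (h2 : t + d.vec ∈ T) :
    plane.glue T (t, d) = (t + d.vec, d.opp) := by rw [plane_glue, if_pos ⟨h1, h2⟩]

lemma glue_neg {t : ℤ × ℤ} {d : Dir} (h2 : t + d.vec ∉ T) :
    plane.glue T (t, d) = (t, d) := by rw [plane_glue, if_neg fun h => h2 h.2]

lemma rot_pos {t : ℤ × ℤ} {d : Dir} (h1 : t ∈ T) (h2 : t + d.vec ∈ T) :
    rot (plane.glue T) (t, d) = (t + d.vec, d.cw) := by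
  unfold rot
  rw [glue_pos h1 h2]
  show (t + d.vec, d.opp.ccw) = _
  rw [Dir.ccw_opp]

lemma rot_neg {t : ℤ × ℤ} {d : Dir} (h2 : t + d.vec ∉ T) :
    rot (plane.glue T) (t, d) = (t, d.ccw) := by
  unfold rot
  rw [glue_neg h2]
  rfl

lemma glue_ne {t : ℤ × ℤ} {d : Dir} (h1 : t ∈ T) (h2 : t + d.vec ∈ T) :
    plane.glue T (t, d) ≠ (t, d) := by
  rw [glue_pos h1 h2]
  exact fun h => Dir.opp_ne d (congrArg Prod.snd h)

/-- convex corner -/
theorem next_cvx {t : ℤ × ℤ} {d : Dir} (h0 : t + d.vec ∉ T) (h1 : t + d.ccw.vec ∉ T) :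
    next (plane.glue T) (t, d) = (rot (plane.glue T))^[1] (t, d) ∧
      (rot (plane.glue T))^[1] (t, d) = (t, d.ccw) := by
  have hr : (rot (plane.glue T))^[1] (t, d) = (t, d.ccw) := rot_neg h0
  refine ⟨next_eq_of le_rfl ?_ (fun j h2 h3 => by omega), hr⟩
  rw [hr, glue_neg h1]

/-- flat wall -/
theorem next_flat {t : ℤ × ℤ} {d : Dir} (ht : t ∈ T) (h0 : t + d.vec ∉ T) (h1 : t + d.ccw.vec ∈ T)
    (h2 : t + d.ccw.vec + d.vec ∉ T) :
    next (plane.glue T) (t, d) = (rot (plane.glue T))^[2] (t, d) ∧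
      (rot (plane.glue T))^[2] (t, d) = (t + d.ccw.vec, d) ∧
      ∀ j, 1 ≤ j → j < 2 →
        plane.glue T ((rot (plane.glue T))^[j] (t, d)) ≠ (rot (plane.glue T))^[j] (t, d) := by
  have hr1 : (rot (plane.glue T))^[1] (t, d) = (t, d.ccw) := rot_neg h0
  have hr : (rot (plane.glue T))^[2] (t, d) = (t + d.ccw.vec, d) := by
    rw [iterate_succ_apply', hr1, rot_pos ht h1, Dir.cw_ccw]
  have hm : ∀ j, 1 ≤ j → j < 2 →
      plane.glue T ((rot (plane.glue T))^[j] (t, d)) ≠ (rot (plane.glue T))^[j] (t, d) := by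
    intro j h3 h4
    obtain rfl : j = 1 := by omega
    rw [hr1]
    exact glue_ne ht h1
  refine ⟨next_eq_of (by norm_num) ?_ hm, hr, hm⟩
  rw [hr, glue_neg h2]

/-- reflex corner -/
theorem next_rfx {t : ℤ × ℤ} {d : Dir} (ht : t ∈ T) (h0 : t + d.vec ∉ T) (h1 : t + d.ccw.vec ∈ T)
    (h2 : t + d.ccw.vec + d.vec ∈ T) :
    next (plane.glue T) (t, d) = (rot (plane.glue T))^[3] (t, d) ∧
      (rot (plane.glue T))^[3] (t, d) = (t + d.ccw.vec + d.vec, d.cw) ∧
      ∀ j, 1 ≤ j → j < 3 →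
        plane.glue T ((rot (plane.glue T))^[j] (t, d)) ≠ (rot (plane.glue T))^[j] (t, d) := by
  have hr1 : (rot (plane.glue T))^[1] (t, d) = (t, d.ccw) := rot_neg h0
  have hr2 : (rot (plane.glue T))^[2] (t, d) = (t + d.ccw.vec, d) := by
    rw [iterate_succ_apply', hr1, rot_pos ht h1, Dir.cw_ccw]
  have hr : (rot (plane.glue T))^[3] (t, d) = (t + d.ccw.vec + d.vec, d.cw) := by
    rw [iterate_succ_apply', hr2, rot_pos h1 h2]
  have hm : ∀ j, 1 ≤ j → j < 3 →
      plane.glue T ((rot (plane.glue T))^[j] (t, d)) ≠ (rot (plane.glue T))^[j] (t, d) := by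
    intro j h3 h4
    obtain rfl | rfl : j = 1 ∨ j = 2 := by omega
    · rw [hr1]; exact glue_ne ht h1
    · rw [hr2]; exact glue_ne h1 h2
  refine ⟨next_eq_of (by norm_num) ?_ hm, hr, hm⟩
  rw [hr]
  refine glue_neg ?_
  have h3 : t + d.ccw.vec + d.vec + d.cw.vec = t + d.vec := by
    have := Dir.vec_cw_add d
    calc t + d.ccw.vec + d.vec + d.cw.vec = t + d.vec + (d.ccw.vec + d.cw.vec) := by abel
      _ = t + d.vec := by rw [this, add_zero]
  rw [h3]
  exact h0

/-- an inner vertex has four corners -/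
theorem rot_four {x : Half (ℤ × ℤ)} (hx : x.1 ∈ T)
    (h : ∀ j, j < 4 → plane.glue T ((rot (plane.glue T))^[j] x) ≠ (rot (plane.glue T))^[j] x) :
    (rot (plane.glue T))^[4] x = x := by
  obtain ⟨t, d⟩ := x
  have key : ∀ {t : ℤ × ℤ} {d : Dir}, plane.glue T (t, d) ≠ (t, d) → t ∈ T ∧ t + d.vec ∈ T := by
    intro t d h
    by_contra h1
    exact h (by rw [plane_glue, if_neg h1])
  have h0 := key (h 0 (by norm_num))
  have e1 : (rot (plane.glue T))^[1] (t, d) = (t + d.vec, d.cw) := rot_pos h0.1 h0.2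
  have h1 := h 1 (by norm_num)
  rw [e1] at h1
  have h1 := key h1
  have e2 : (rot (plane.glue T))^[2] (t, d) = (t + d.vec + d.cw.vec, d.cw.cw) := by
    rw [iterate_succ_apply', e1, rot_pos h1.1 h1.2]
  have h2 := h 2 (by norm_num)
  rw [e2] at h2
  have h2 := key h2
  have e3 : (rot (plane.glue T))^[3] (t, d) =
      (t + d.vec + d.cw.vec + d.cw.cw.vec, d.cw.cw.cw) := by
    rw [iterate_succ_apply', e2, rot_pos h2.1 h2.2]
  have h3 := h 3 (by norm_num)
  rw [e3] at h3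
  have h3 := key h3
  rw [iterate_succ_apply', e3, rot_pos h3.1 h3.2]
  refine Prod.ext ?_ ?_
  · show t + d.vec + d.cw.vec + d.cw.cw.vec + d.cw.cw.cw.vec = t
    cases d <;> simp [Dir.cw, Dir.vec, Prod.ext_iff]
  · show d.cw.cw.cw.cw = d
    cases d <;> rfl

end plane

end Full.Shp
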