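import Pool.Agent.Full.Def.Surf
import Pool.Agent.Full.Perc.BK

/-!
# Counting strands, windows

`cnt T g ω A B` is the number of strands of the region `(T, g)` from `A` to `B`.  `Win W h T g`: the
region `(W, h)` is a window of the region `(T, g)`.  A strand of the window between two boundary half
edges of `(T, g)` is a strand of `(T, g)`, and a strand of `(T, g)` which stays in the window is a
strand of the window.
-/

set_option autoImplicit false
set_option linter.unusedSectionVars false

namespace Full.Corner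
open Function Relation Finset Full
open Full.Perc (Ex Ex_mono Ex_congr Ex_nonneg)

variable {τ : Type*} [DecidableEq τ]

/-- the boundary half edges -/
def bdF (T : Finset τ) (g : Half τ → Half τ) : Finset (Half τ) :=
  (T ×ˢ (univ : Finset Dir)).filter fun x => g x = x

lemma mem_bdF {T : Finset τ} {g : Half τ → Half τ} {x : Half τ} : x ∈ bdF T g ↔ Bd T g x := by
  unfold bdF Bd
  rw [mem_filter, mem_product]
  simp

open scoped Classical in
/-- the number of strands from `A` to `B` -/
noncomputable def cnt (T : Finset τ) (g : Half τ → Half τ) (ω : Finset τ) (A B : Set (Half τ)) : ℕ :=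
  ((bdF T g).filter fun x => x ∈ A ∧ other (mate ω) g x ∈ B).card

/-- the strands depend only on the configuration in the region -/
lemma cnt_congr {T : Finset τ} {g : Half τ → Half τ} (hG : Glu T g) {ω ω' : Finset τ}
    (h : ∀ t ∈ T, t ∈ ω ↔ t ∈ ω') (A B : Set (Half τ)) : cnt T g ω' A B = cnt T g ω A B := by
  classical
  unfold cnt
  congr 1
  apply filter_congr
  intro x hx
  rw [mem_bdF] at hx
  rw [other_congr_conf hG h hx.1]

lemma cnt_inter {T : Finset τ} {g : Half τ → Half τ} (hG : Glu T g) (ω : Finset τ)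
    (A B : Set (Half τ)) : cnt T g (ω ∩ T) A B = cnt T g ω A B :=
  cnt_congr hG (fun t ht => by rw [mem_inter]; exact ⟨fun h => ⟨h, ht⟩, fun h => h.1⟩) A B

lemma cnt_symm {T : Finset τ} {g : Half τ → Half τ} (hG : Glu T g) (ω : Finset τ)
    (A B : Set (Half τ)) : cnt T g ω A B = cnt T g ω B A := by
  classical
  have key : ∀ A B : Set (Half τ), cnt T g ω A B ≤ cnt T g ω B A := by
    intro A B
    unfold cnt
    apply card_le_card_of_injOn (fun x => other (mate ω) g x)
    · intro x hx
      rw [mem_coe, mem_filter, mem_bdF] at hx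
      rw [mem_coe, mem_filter, mem_bdF]
      refine ⟨hG.other_bd hx.1, hx.2.2, ?_⟩
      rw [hG.other_other hx.1]
      exact hx.2.1
    · intro x hx y hy hxy
      rw [mem_coe, mem_filter, mem_bdF] at hx hy
      have := congrArg (other (mate ω) g) hxy
      simp only at this
      rwa [hG.other_other hx.1, hG.other_other hy.1] at this
  exact le_antisymm (key A B) (key B A)

lemma cnt_mono {T : Finset τ} {g : Half τ → Half τ} {ω : Finset τ} {A B A' B' : Set (Half τ)}
    (hA : A ⊆ A') (hB : B ⊆ B') : cnt T g ω A B ≤ cnt T g ω A' B' := by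
  classical
  unfold cnt
  apply card_le_card
  intro x hx
  rw [mem_filter] at hx ⊢
  exact ⟨hx.1, hA hx.2.1, hB hx.2.2⟩

/-! ### windows -/

/-- `(W, h)` is a window of `(T, g)` -/
structure Win (W : Finset τ) (h : Half τ → Half τ) (T : Finset τ) (g : Half τ → Half τ) : Prop where
  glu : Glu W h
  big : Glu T g
  sub : W ⊆ T
  ext : ∀ x, h x ≠ x → g x = h x
  inn : ∀ x, x.1 ∈ W → (g x).1 ∈ W → h x = g x

/-- windows of a surface -/
theorem win_glue (S : Surf τ) {W T : Finset τ} (hWT : W ⊆ T) : Win W (S.glue W) T (S.glue T) := by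
  have hext : ∀ x, S.glue W x ≠ x → S.glue T x = S.glue W x := by
    intro x hx
    rcases S.glue_cases (T := W) x with h1 | ⟨t', h1, h2, h3, h4⟩
    · exact absurd h1 hx
    · rw [h4]
      exact Surf.glue_of_mem h1 (hWT h2) (hWT h3)
  refine ⟨S.glu W, S.glu T, hWT, hext, ?_⟩
  intro x hx hg
  rcases S.glue_cases (T := T) x with h1 | ⟨t', h1, h2, h3, h4⟩
  · by_contra h2
    apply h2
    by_cases h3 : S.glue W x = x
    · rw [h1, h3]
    · exact (hext x h3).symm
  · rw [h4] at hg ⊢
    exact Surf.glue_of_mem h1 hx hg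

namespace Win
variable {W T : Finset τ} {h g : Half τ → Half τ} (H : Win W h T g) {ω : Finset τ}
include H

lemma conn {x y : Half τ} (hc : Full.Conn (mate ω) h x y) : Full.Conn (mate ω) g x y := by
  induction hc with
  | refl => exact Full.Conn.refl _
  | @tail b c _ h2 ih =>
    rcases h2 with h2 | h2
    · rw [h2]; exact ih.trans (Full.Conn.m_step _)
    · by_cases h3 : h b = b
      · rw [h2, h3]; exact ih
      · rw [h2, ← H.ext b h3]; exact ih.trans (Full.Conn.g_step _)

lemma bd {x : Half τ} (hx : Bd T g x) (hW : x.1 ∈ W) : Bd W h x := by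
  refine ⟨hW, ?_⟩
  rw [H.inn x hW (by rw [hx.2]; exact hW)]
  exact hx.2

/-- a strand of the window between two boundary half edges of the region -/
lemma other_up {x : Half τ} (hx : Bd T g x) (hW : x.1 ∈ W)
    (hy : g (other (mate ω) h x) = other (mate ω) h x) :
    other (mate ω) g x = other (mate ω) h x := by
  have hb := H.bd hx hW
  have hb2 := H.glu.other_bd (ω := ω) hb
  have hc : Full.Conn (mate ω) g x (other (mate ω) h x) := H.conn (Two.conn_other x)
  exact (H.big.other_eq_iff hx ⟨H.sub hb2.1, hy⟩).2 ⟨H.glu.other_ne hb, hc⟩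

/-- a strand of the region which stays in the window -/
lemma other_down {x : Half τ} (hx : Bd T g x)
    (hst : ∀ z, Full.Conn (mate ω) g x z → z.1 ∈ W) :
    other (mate ω) h x = other (mate ω) g x := by
  have hW : x.1 ∈ W := hst x (Full.Conn.refl x)
  have hc : ∀ z, Full.Conn (mate ω) g x z → Full.Conn (mate ω) h x z := by
    intro z hz
    induction hz with
    | refl => exact Full.Conn.refl _
    | @tail b c h1 h2 ih =>
      rcases h2 with h2 | h2
      · rw [h2]; exact ih.trans (Full.Conn.m_step _)
      · have hb : b.1 ∈ W := hst b h1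
        have hc : (g b).1 ∈ W := by
          have := hst c (h1.tail (Or.inr h2))
          rwa [h2] at this
        rw [h2, ← H.inn b hb hc]
        exact ih.trans (Full.Conn.g_step _)
  have hx' := H.bd hx hW
  have hy := H.big.other_bd (ω := ω) hx
  have hy' := H.bd hy (hst _ (Two.conn_other x))
  exact (H.glu.other_eq_iff hx' hy').2 ⟨H.big.other_ne hx, hc _ (Two.conn_other x)⟩

/-- the strands of the window between real walls are strands of the region -/
theorem cnt_le {A B : Set (Half τ)} (hA : ∀ x, x ∈ A → Bd W h x → g x = x)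
    (hB : ∀ x, x ∈ B → Bd W h x → g x = x) : cnt W h ω A B ≤ cnt T g ω A B := by
  classical
  unfold cnt
  apply card_le_card
  intro x hx
  rw [mem_filter, mem_bdF] at hx ⊢
  obtain ⟨h1, h2, h3⟩ := hx
  have hx' : Bd T g x := ⟨H.sub h1.1, hA x h2 h1⟩
  have h4 := H.glu.other_bd (ω := ω) h1
  have h5 := H.other_up hx' h1.1 (hB _ h3 h4)
  exact ⟨hx', h2, by rw [h5]; exact h3⟩

open scoped Classical in
/-- the other strands are long -/
theorem cnt_ge {A B A' B' : Set (Half τ)} {L : Half τ → Prop}
    (hL : ∀ x, Bd T g x → x ∈ A → other (mate ω) g x ∈ B → ¬ L x → x ∈ A' ∧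
      other (mate ω) g x ∈ B' ∧ ∀ z, Full.Conn (mate ω) g x z → z.1 ∈ W) :
    cnt T g ω A B ≤ cnt W h ω A' B' + ((bdF T g).filter L).card := by
  unfold cnt
  rw [← card_filter_add_card_filter_not (s := (bdF T g).filter fun x => x ∈ A ∧
    other (mate ω) g x ∈ B) (fun x => ¬ L x)]
  apply add_le_add
  · apply card_le_card
    intro x hx
    rw [mem_filter, mem_filter, mem_bdF] at hx
    obtain ⟨⟨h1, h2, h3⟩, h4⟩ := hx
    obtain ⟨h5, h6, h7⟩ := hL x h1 h2 h3 h4
    rw [mem_filter, mem_bdF]
    refine ⟨H.bd h1 (h7 x (Full.Conn.refl x)), h5, ?_⟩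
    rw [H.other_down h1 h7]
    exact h6
  · apply card_le_card
    intro x hx
    rw [mem_filter, mem_filter] at hx
    rw [mem_filter]
    exact ⟨hx.1.1, not_not.1 hx.2⟩

end Win

end Full.Corner
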