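import Pool.Agent.Full.Def.Inst
import Pool.Agent.Full.Corner.Local

/-!
# Charts of windows, symmetries of the square lattice

`Chart W h W' h'`: an isomorphism of the region `(W, h)` onto the region `(W', h')`, possibly with a
rotation or a reflection of the tiles.  The average of the number of strands is the same.
-/

set_option autoImplicit false
set_option linter.unusedSectionVars false

namespace Full.Corner
open Function Relation Finset Full
open Full.Perc (Ex Ex_mono Ex_congr Ex_nonneg)

variable {τ τ' : Type*} [DecidableEq τ] [DecidableEq τ']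

/-- an isomorphism of regions; the bits are flipped if `fl` -/
structure Chart (W : Finset τ) (h : Half τ → Half τ) (W' : Finset τ') (h' : Half τ' → Half τ') where
  /-- the map of the tiles -/
  φ : τ → τ'
  /-- the map of the directions -/
  σ : Dir → Dir
  /-- flip of the bits -/
  fl : Bool
  inj : ∀ t ∈ W, ∀ t' ∈ W, φ t = φ t' → t = t'
  img : W.image φ = W'
  sinj : ∀ d d', σ d = σ d' → d = d'
  mt : ∀ b d, σ (Dir.mt b d) = Dir.mt (b ^^ fl) (σ d)
  glue : ∀ x, x.1 ∈ W → h' (φ x.1, σ x.2) = (φ (h x).1, σ (h x).2)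

namespace Chart
variable {W : Finset τ} {h : Half τ → Half τ} {W' : Finset τ'} {h' : Half τ' → Half τ'}
  (C : Chart W h W' h')

/-- the map of the half edges -/
def hf (x : Half τ) : Half τ' := (C.φ x.1, C.σ x.2)

lemma hf_inj {x y : Half τ} (hx : x.1 ∈ W) (hy : y.1 ∈ W) (he : C.hf x = C.hf y) : x = y :=
  Prod.ext (C.inj _ hx _ hy (congrArg Prod.fst he)) (C.sinj _ _ (congrArg Prod.snd he))

lemma phi_mem {t : τ} (ht : t ∈ W) : C.φ t ∈ W' := by
  exact (Finset.ext_iff.1 C.img _).1 (mem_image_of_mem C.φ ht)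

lemma exists_phi {y : τ'} (hy : y ∈ W') : ∃ t ∈ W, C.φ t = y := by
  have h2 := C.img
  have h1 : y ∈ W.image C.φ := (Finset.ext_iff.1 h2 y).2 hy
  exact mem_image.1 h1

/-- the map of the configurations -/
def conf (ω : Finset τ) : Finset τ' := if C.fl then (W \ ω).image C.φ else ω.image C.φ

lemma mem_conf {ω : Finset τ} (hω : ω ⊆ W) {t : τ} (ht : t ∈ W) :
    C.φ t ∈ C.conf ω ↔ (t ∈ ω ↔ C.fl = false) := by
  unfold conf
  cases hf : C.fl
  · rw [if_neg (by simp), mem_image]
    constructor
    · rintro ⟨t', h1, h2⟩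
      rw [← C.inj _ (hω h1) _ ht h2]
      simpa using h1
    · intro h1
      exact ⟨t, by simpa using h1, rfl⟩
  · rw [if_pos rfl, mem_image]
    constructor
    · rintro ⟨t', h1, h2⟩
      rw [mem_sdiff] at h1
      rw [← C.inj _ h1.1 _ ht h2]
      simpa using h1.2
    · intro h1
      exact ⟨t, mem_sdiff.2 ⟨ht, by simpa using h1⟩, rfl⟩

lemma mate_hf {ω : Finset τ} (hω : ω ⊆ W) {x : Half τ} (hx : x.1 ∈ W) :
    mate (C.conf ω) (C.hf x) = C.hf (mate ω x) := by
  unfold mate hf
  simp only
  rw [C.mt]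
  congr 2
  have h1 := C.mem_conf hω hx
  by_cases h2 : x.1 ∈ ω
  · cases hf : C.fl
    · rw [hf] at h1
      simp only [h2, Bool.xor_false, decide_true, decide_eq_true_eq]
      exact h1.2 (by simp [h2])
    · rw [hf] at h1
      simp only [h2, decide_true, Bool.xor_self, decide_eq_false_iff_not]
      intro h3
      have := h1.1 h3
      simp [h2] at this
  · cases hf : C.fl
    · rw [hf] at h1
      simp only [h2, decide_false, Bool.xor_self, decide_eq_false_iff_not]
      intro h3
      have := h1.1 h3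
      simp [h2] at this
    · rw [hf] at h1
      simp only [h2, decide_false, Bool.xor_true, Bool.not_false, decide_eq_true_eq]
      exact h1.2 (by simp [h2])

lemma glue_hf {x : Half τ} (hx : x.1 ∈ W) : h' (C.hf x) = C.hf (h x) := C.glue x hx

variable (hG : Glu W h)
include hG

lemma iter_hf {ω : Finset τ} (hω : ω ⊆ W) {x : Half τ} (hx : x.1 ∈ W) (k : ℕ) :
    (h' ∘ mate (C.conf ω))^[k] (C.hf x) = C.hf ((h ∘ mate ω)^[k] x) ∧
      ((h ∘ mate ω)^[k] x).1 ∈ W := by
  induction k with
  | zero => exact ⟨rfl, hx⟩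
  | succ k ih =>
    rw [iterate_succ_apply', iterate_succ_apply', ih.1]
    have h1 : (mate ω ((h ∘ mate ω)^[k] x)).1 ∈ W := ih.2
    refine ⟨?_, hG.mem _ h1⟩
    show h' (mate (C.conf ω) (C.hf _)) = C.hf (h (mate ω _))
    rw [C.mate_hf hω ih.2, C.glue_hf h1]

theorem other_hf {ω : Finset τ} (hω : ω ⊆ W) {x : Half τ} (hx : x.1 ∈ W) :
    other (mate (C.conf ω)) h' (C.hf x) = C.hf (other (mate ω) h x) := by
  have h1 : minimalPeriod (h' ∘ mate (C.conf ω)) (C.hf x) = minimalPeriod (h ∘ mate ω) x := by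
    refine minimalPeriod_eq_minimalPeriod_iff.2 fun n => ?_
    show (h' ∘ mate (C.conf ω))^[n] (C.hf x) = C.hf x ↔ (h ∘ mate ω)^[n] x = x
    obtain ⟨h2, h3⟩ := C.iter_hf hG hω hx n
    rw [h2]
    exact ⟨fun h4 => C.hf_inj h3 hx h4, fun h4 => by rw [h4]⟩
  unfold other
  rw [h1, (C.iter_hf hG hω hx _).1]

omit hG in
lemma bd_hf {x : Half τ} (hx : Bd W h x) : Bd W' h' (C.hf x) := by
  refine ⟨?_, ?_⟩
  · exact C.phi_mem hx.1
  · rw [C.glue_hf hx.1, hx.2]

lemma exists_hf {σi : Dir → Dir} (hσ : ∀ d, C.σ (σi d) = d) {y : Half τ'} (hy : Bd W' h' y) :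
    ∃ x, Bd W h x ∧ C.hf x = y := by
  obtain ⟨t, ht, h2⟩ := C.exists_phi hy.1
  have h3 : C.hf (t, σi y.2) = y := Prod.ext h2 (hσ _)
  refine ⟨(t, σi y.2), ⟨ht, ?_⟩, h3⟩
  apply C.hf_inj (hG.mem _ ht) ht
  rw [← C.glue_hf (x := (t, σi y.2)) ht, h3, hy.2]

lemma exists_sinv : ∃ σi : Dir → Dir, ∀ d, C.σ (σi d) = d := by
  have h1 : Surjective C.σ := by
    have : Injective C.σ := fun d d' h => C.sinj d d' h
    exact Finite.injective_iff_surjective.1 this
  exact ⟨surjInv h1, surjInv_eq h1⟩

/-- the number of strands in a chart -/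
theorem cnt_hf {ω : Finset τ} (hω : ω ⊆ W) {A B : Set (Half τ)} {A' B' : Set (Half τ')}
    (hA : ∀ x, Bd W h x → (C.hf x ∈ A' ↔ x ∈ A)) (hB : ∀ x, Bd W h x → (C.hf x ∈ B' ↔ x ∈ B)) :
    cnt W' h' (C.conf ω) A' B' = cnt W h ω A B := by
  classical
  obtain ⟨σi, hσ⟩ := C.exists_sinv hG
  unfold cnt
  symm
  apply card_bij (fun x _ => C.hf x)
  · intro x hx
    rw [mem_filter, mem_bdF] at hx ⊢
    refine ⟨C.bd_hf hx.1, (hA x hx.1).2 hx.2.1, ?_⟩
    rw [C.other_hf hG hω hx.1.1]
    exact (hB _ (hG.other_bd hx.1)).2 hx.2.2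
  · intro x hx y hy hxy
    rw [mem_filter, mem_bdF] at hx hy
    exact C.hf_inj hx.1.1 hy.1.1 hxy
  · intro y hy
    rw [mem_filter, mem_bdF] at hy
    obtain ⟨x, hx, rfl⟩ := C.exists_hf hG hσ hy.1
    refine ⟨x, ?_, rfl⟩
    rw [mem_filter, mem_bdF]
    refine ⟨hx, (hA x hx).1 hy.2.1, ?_⟩
    have h1 := hy.2.2
    rw [C.other_hf hG hω hx.1] at h1
    exact (hB _ (hG.other_bd hx)).1 h1

omit hG

lemma sum_conf (F : Finset τ' → ℝ) : ∑ S ∈ W'.powerset, F S = ∑ S ∈ W.powerset, F (C.conf S) := by
  classical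
  have h0 : ∑ S ∈ W'.powerset, F S = ∑ S ∈ W.powerset, F (S.image C.φ) := by
    symm
    apply sum_bij (fun S _ => S.image C.φ)
    · intro S hS
      rw [mem_powerset] at hS ⊢
      intro y hy
      obtain ⟨t, ht, rfl⟩ := mem_image.1 hy
      exact C.phi_mem (hS ht)
    · intro S hS S' hS' he
      rw [mem_powerset] at hS hS'
      ext t
      constructor
      · intro ht
        have h1 : C.φ t ∈ S'.image C.φ := by rw [← he]; exact mem_image_of_mem _ ht
        obtain ⟨t', h2, h3⟩ := mem_image.1 h1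
        rwa [← C.inj _ (hS' h2) _ (hS ht) h3]
      · intro ht
        have h1 : C.φ t ∈ S.image C.φ := by rw [he]; exact mem_image_of_mem _ ht
        obtain ⟨t', h2, h3⟩ := mem_image.1 h1
        rwa [← C.inj _ (hS h2) _ (hS' ht) h3]
    · intro S hS
      rw [mem_powerset] at hS
      refine ⟨W.filter fun t => C.φ t ∈ S, mem_powerset.2 (filter_subset _ _), ?_⟩
      ext t
      rw [mem_image]
      constructor
      · rintro ⟨t', h1, rfl⟩
        exact (mem_filter.1 h1).2
      · intro ht
        obtain ⟨t', h2, h3⟩ := C.exists_phi (hS ht)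
        exact ⟨t', mem_filter.2 ⟨h2, by rw [h3]; exact ht⟩, h3⟩
    · intro S _; rfl
  rw [h0]
  unfold conf
  cases C.fl
  · simp
  · simp only [if_true]
    symm
    apply sum_bij (fun S _ => W \ S)
    · intro S _
      exact mem_powerset.2 sdiff_subset
    · intro S hS S' hS' he
      rw [mem_powerset] at hS hS'
      rw [← Finset.sdiff_sdiff_eq_self hS, ← Finset.sdiff_sdiff_eq_self hS']
      have he' : W \ S = W \ S' := he
      rw [he']
    · intro S hS
      rw [mem_powerset] at hS
      exact ⟨W \ S, mem_powerset.2 sdiff_subset, Finset.sdiff_sdiff_eq_self hS⟩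
    · intro S _; rfl

/-- averages in a chart -/
theorem Ex_conf (F : Finset τ' → ℝ) : Ex W' F = Ex W (fun S => F (C.conf S)) := by
  unfold Ex
  rw [C.sum_conf]
  have h0 : W'.card = W.card := by
    have h2 := C.img
    rw [← h2, card_image_of_injOn]
    intro t ht t' ht' h1
    exact C.inj _ ht _ ht' h1
  rw [h0]

/-- **the average of a function of the number of strands in a chart** -/
theorem Ex_cnt (hG : Glu W h) {A B : Set (Half τ)} {A' B' : Set (Half τ')}
    (hA : ∀ x, Bd W h x → (C.hf x ∈ A' ↔ x ∈ A)) (hB : ∀ x, Bd W h x → (C.hf x ∈ B' ↔ x ∈ B))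
    (F : ℕ → ℝ) : Ex W' (fun S => F (cnt W' h' S A' B')) = Ex W (fun S => F (cnt W h S A B)) := by
  rw [C.Ex_conf]
  exact Ex_congr fun S hS => by rw [C.cnt_hf hG hS hA hB]

end Chart

/-! ### isometries of the plane -/

/-- an isometry of the plane of tiles -/
structure PIso where
  /-- the map of the tiles -/
  φ : ℤ × ℤ → ℤ × ℤ
  /-- the map of the directions -/
  σ : Dir → Dir
  /-- flip of the bits -/
  fl : Bool
  inj : ∀ t t', φ t = φ t' → t = t'
  sinj : ∀ d d', σ d = σ d' → d = d'
  opp : ∀ d, σ d.opp = (σ d).opp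
  mt : ∀ b d, σ (Dir.mt b d) = Dir.mt (b ^^ fl) (σ d)
  vec : ∀ t d, φ (t + d.vec) = φ t + (σ d).vec

/-- the chart given by an isometry -/
def PIso.chart (I : PIso) (W : Finset (ℤ × ℤ)) :
    Chart W (plane.glue W) (W.image I.φ) (plane.glue (W.image I.φ)) where
  φ := I.φ
  σ := I.σ
  fl := I.fl
  inj := fun t _ t' _ h => I.inj t t' h
  img := rfl
  sinj := I.sinj
  mt := I.mt
  glue := by
    rintro ⟨t, d⟩ ht
    have h1 : ∀ u, I.φ u ∈ W.image I.φ ↔ u ∈ W := by
      intro u
      rw [mem_image]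
      constructor
      · rintro ⟨v, hv, h1⟩
        rwa [← I.inj _ _ h1]
      · intro hu
        exact ⟨u, hu, rfl⟩
    simp only
    rw [plane_glue, plane_glue, ← I.vec]
    by_cases h2 : t ∈ W ∧ t + d.vec ∈ W
    · rw [if_pos h2, if_pos ⟨(h1 _).2 h2.1, (h1 _).2 h2.2⟩]
      simp only [I.opp]
    · rw [if_neg h2, if_neg (fun h3 => h2 ⟨(h1 _).1 h3.1, (h1 _).1 h3.2⟩)]

/-- translation -/
def trans (a b : ℤ) : PIso where
  φ := fun t => (t.1 + a, t.2 + b)
  σ := id
  fl := false
  inj := fun t t' h => by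
    simp only [Prod.mk.injEq, add_left_inj] at h
    exact Prod.ext h.1 h.2
  sinj := fun _ _ h => h
  opp := fun _ => rfl
  mt := fun b d => by simp
  vec := fun t d => by
    simp only [id_eq]
    ext <;> simp only [Prod.fst_add, Prod.snd_add] <;> ring

/-- reflection of the first coordinate, and translation -/
def reflX (a b : ℤ) : PIso where
  φ := fun t => (a - t.1, t.2 + b)
  σ := fun d => match d with | .E => .W | .W => .E | .N => .N | .S => .S
  fl := true
  inj := fun t t' h => by
    simp only [Prod.mk.injEq, add_left_inj, sub_right_inj] at h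
    exact Prod.ext h.1 h.2
  sinj := fun d d' h => by revert h; cases d <;> cases d' <;> simp
  opp := fun d => by cases d <;> rfl
  mt := fun b d => by cases b <;> cases d <;> rfl
  vec := fun t d => by
    cases d <;> simp only [Dir.vec, Prod.fst_add, Prod.snd_add] <;> ext <;> simp <;> ring

/-- reflection of the second coordinate, and translation -/
def reflY (a b : ℤ) : PIso where
  φ := fun t => (t.1 + a, b - t.2)
  σ := fun d => match d with | .E => .E | .W => .W | .N => .S | .S => .N
  fl := true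
  inj := fun t t' h => by
    simp only [Prod.mk.injEq, add_left_inj, sub_right_inj] at h
    exact Prod.ext h.1 h.2
  sinj := fun d d' h => by revert h; cases d <;> cases d' <;> simp
  opp := fun d => by cases d <;> rfl
  mt := fun b d => by cases b <;> cases d <;> rfl
  vec := fun t d => by
    cases d <;> simp only [Dir.vec, Prod.fst_add, Prod.snd_add] <;> ext <;> simp <;> ring

/-- rotation by a half turn, and translation -/
def reflXY (a b : ℤ) : PIso where
  φ := fun t => (a - t.1, b - t.2)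
  σ := Dir.opp
  fl := false
  inj := fun t t' h => by
    simp only [Prod.mk.injEq, sub_right_inj] at h
    exact Prod.ext h.1 h.2
  sinj := fun d d' h => by revert h; cases d <;> cases d' <;> simp [Dir.opp]
  opp := fun d => by cases d <;> rfl
  mt := fun b d => by cases b <;> cases d <;> rfl
  vec := fun t d => by
    cases d <;> simp only [Dir.vec, Dir.opp, Prod.fst_add, Prod.snd_add] <;> ext <;> simp <;> ring

/-- the reflection at the diagonal, and translation -/
def transp (a b : ℤ) : PIso where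
  φ := fun t => (t.2 + a, t.1 + b)
  σ := fun d => match d with | .E => .N | .N => .E | .W => .S | .S => .W
  fl := false
  inj := fun t t' h => by
    simp only [Prod.mk.injEq, add_left_inj] at h
    exact Prod.ext h.2 h.1
  sinj := fun d d' h => by revert h; cases d <;> cases d' <;> simp
  opp := fun d => by cases d <;> rfl
  mt := fun b d => by cases b <;> cases d <;> rfl
  vec := fun t d => by
    cases d <;> simp only [Dir.vec, Prod.fst_add, Prod.snd_add] <;> ext <;> simp <;> ring

end Full.Corner
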