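import Pool.Agent.Full.Mom.Avg

/-!
# Decoupling by Hölder's inequality

A nonnegative function of fair bits which is, up to a factor with good moments, a product of
functions of disjoint sets of bits.  The average is the product of the averages up to `B ^ ε`.
-/

namespace Full.Corner

open Finset Full.Mom

variable {ι : Type*} [Fintype ι] [DecidableEq ι]

/-- Hölder's inequality for averages -/
lemma avg_holder {p q : ℝ} (hpq : p.HolderConjugate q) {f g : (ι → Bool) → ℝ}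
    (hf : ∀ ω, 0 ≤ f ω) (hg : ∀ ω, 0 ≤ g ω) :
    avg (fun ω => f ω * g ω) ≤
      (avg fun ω => f ω ^ p) ^ (1 / p) * (avg fun ω => g ω ^ q) ^ (1 / q) := by
  have h := Real.inner_le_Lp_mul_Lq_of_nonneg univ hpq (fun ω _ => hf ω) (fun ω _ => hg ω)
  have hN : (0 : ℝ) < 2 ^ Fintype.card ι := by positivity
  have h1 : (0 : ℝ) ≤ ∑ ω, f ω ^ p := sum_nonneg fun ω _ => Real.rpow_nonneg (hf ω) p
  have h2 : (0 : ℝ) ≤ ∑ ω, g ω ^ q := sum_nonneg fun ω _ => Real.rpow_nonneg (hg ω) q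
  unfold avg
  rw [Real.div_rpow h1 hN.le, Real.div_rpow h2 hN.le, div_mul_div_comm, ← Real.rpow_add hN]
  have h3 : 1 / p + 1 / q = 1 := by
    have := hpq.inv_add_inv_eq_one
    simpa [one_div] using this
  rw [h3, Real.rpow_one]
  gcongr

/-- a product of independent factors times a factor with good moments: upper bound -/
theorem upper {κ : Type*} [DecidableEq κ] (s : Finset κ) {A : κ → Set ι}
    {X : κ → (ι → Bool) → ℝ} {f G : (ι → Bool) → ℝ}
    (hA : ∀ k ∈ s, ∀ l ∈ s, k ≠ l → Disjoint (A k) (A l)) (hX : ∀ k ∈ s, Dep (A k) (X k))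
    (hX0 : ∀ k ∈ s, ∀ ω, 0 ≤ X k ω) (hG : ∀ ω, 0 ≤ G ω) (hf : ∀ ω, f ω ≤ (∏ k ∈ s, X k ω) * G ω)
    {p q : ℝ} (hpq : p.HolderConjugate q) :
    avg f ≤ (∏ k ∈ s, (avg fun ω => X k ω ^ p) ^ (1 / p)) * (avg fun ω => G ω ^ q) ^ (1 / q) := by
  have h0 : ∀ ω, 0 ≤ ∏ k ∈ s, X k ω := fun ω => prod_nonneg fun k hk => hX0 k hk ω
  refine (avg_mono hf).trans ((avg_holder hpq h0 hG).trans (le_of_eq ?_))
  congr 1
  have h1 : (avg fun ω => (∏ k ∈ s, X k ω) ^ p) = ∏ k ∈ s, avg fun ω => X k ω ^ p := by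
    rw [← avg_prod s hA (fun k hk => (hX k hk).comp fun y => y ^ p)]
    congr 1
    funext ω
    exact (Real.finsetProd_rpow s (fun k => X k ω) (fun k hk => hX0 k hk ω) p).symm
  rw [h1, Real.finsetProd_rpow]
  intro k hk
  exact avg_nonneg fun ω => Real.rpow_nonneg (hX0 k hk ω) p

/-- a product of independent factors times a factor with good negative moments: lower bound -/
theorem lower {κ : Type*} [DecidableEq κ] (s : Finset κ) {A : κ → Set ι}
    {X : κ → (ι → Bool) → ℝ} {f g : (ι → Bool) → ℝ}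
    (hA : ∀ k ∈ s, ∀ l ∈ s, k ≠ l → Disjoint (A k) (A l)) (hX : ∀ k ∈ s, Dep (A k) (X k))
    (hX0 : ∀ k ∈ s, ∀ ω, 0 ≤ X k ω) (hg : ∀ ω, 0 < g ω) (hf : ∀ ω, (∏ k ∈ s, X k ω) * g ω ≤ f ω)
    {p : ℝ} (hp : 1 < p) :
    ∏ k ∈ s, (avg fun ω => X k ω ^ (1 / p)) ^ p ≤
      avg f * (avg fun ω => g ω ^ (-(1 / (p - 1)))) ^ (p - 1) := by
  have hp0 : 0 < p := by linarith
  have hp1 : 0 < p - 1 := by linarith
  have hpq : p.HolderConjugate (p / (p - 1)) := Real.HolderConjugate.conjExponent hp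
  have h0 : ∀ ω, 0 ≤ ∏ k ∈ s, X k ω := fun ω => prod_nonneg fun k hk => hX0 k hk ω
  have hf0 : ∀ ω, 0 ≤ f ω := fun ω => (mul_nonneg (h0 ω) (hg ω).le).trans (hf ω)
  set F : (ι → Bool) → ℝ := fun ω => ((∏ k ∈ s, X k ω) * g ω) ^ (1 / p) with hF
  set H : (ι → Bool) → ℝ := fun ω => g ω ^ (-(1 / p)) with hH
  have e1 : ∀ ω, F ω * H ω = ∏ k ∈ s, X k ω ^ (1 / p) := fun ω => by
    rw [hF, hH]
    simp only
    rw [Real.mul_rpow (h0 ω) (hg ω).le, mul_assoc, ← Real.rpow_add (hg ω), add_neg_cancel,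
      Real.rpow_zero, mul_one, Real.finsetProd_rpow _ _ (fun k hk => hX0 k hk ω)]
  have e2 : ∀ ω, F ω ^ p = (∏ k ∈ s, X k ω) * g ω := fun ω => by
    rw [hF]
    simp only
    rw [← Real.rpow_mul (mul_nonneg (h0 ω) (hg ω).le), one_div_mul_cancel hp0.ne', Real.rpow_one]
  have e3 : ∀ ω, H ω ^ (p / (p - 1)) = g ω ^ (-(1 / (p - 1))) := fun ω => by
    rw [hH]
    simp only
    rw [← Real.rpow_mul (hg ω).le]
    congr 1
    field_simp
  have h1 := avg_holder hpq (f := F) (g := H)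
    (fun ω => Real.rpow_nonneg (mul_nonneg (h0 ω) (hg ω).le) _)
    (fun ω => Real.rpow_nonneg (hg ω).le _)
  simp only [e1, e2, e3] at h1
  rw [avg_prod s hA (fun k hk => (hX k hk).comp fun y => y ^ (1 / p))] at h1
  have hM : 0 ≤ avg fun ω => (∏ k ∈ s, X k ω) * g ω :=
    avg_nonneg fun ω => mul_nonneg (h0 ω) (hg ω).le
  have hN : 0 ≤ avg fun ω => g ω ^ (-(1 / (p - 1))) :=
    avg_nonneg fun ω => Real.rpow_nonneg (hg ω).le _
  have hL : 0 ≤ ∏ k ∈ s, avg fun ω => X k ω ^ (1 / p) :=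
    prod_nonneg fun k hk => avg_nonneg fun ω => Real.rpow_nonneg (hX0 k hk ω) _
  have h2 := Real.rpow_le_rpow hL h1 hp0.le
  rw [Real.mul_rpow (Real.rpow_nonneg hM _) (Real.rpow_nonneg hN _), ← Real.rpow_mul hM,
    ← Real.rpow_mul hN, one_div_mul_cancel hp0.ne', Real.rpow_one] at h2
  have e4 : 1 / (p / (p - 1)) * p = p - 1 := by field_simp
  rw [e4] at h2
  have e5 : ∏ k ∈ s, (avg fun ω => X k ω ^ (1 / p)) ^ p =
      (∏ k ∈ s, avg fun ω => X k ω ^ (1 / p)) ^ p :=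
    Real.finsetProd_rpow s _
      (fun k hk => avg_nonneg fun ω => Real.rpow_nonneg (hX0 k hk ω) _) p
  rw [e5]
  refine h2.trans ?_
  gcongr
  exact avg_mono hf

/-! ## continuity in the exponent -/

/-- the two kinds of local factors: `X ≥ 1` with a bound of a higher moment, or `0 ≤ X ≤ 1` with a
lower bound of the mean -/
def Tame (P B : ℝ) (X : (ι → Bool) → ℝ) : Prop :=
  ((∀ ω, 1 ≤ X ω) ∧ (avg fun ω => X ω ^ P) ≤ B) ∨
    ((∀ ω, 0 ≤ X ω ∧ X ω ≤ 1) ∧ 1 ≤ B * avg X)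

lemma Tame.nonneg {P B : ℝ} {X : (ι → Bool) → ℝ} (h : Tame P B X) (ω : ι → Bool) : 0 ≤ X ω := by
  rcases h with h | h
  · exact zero_le_one.trans (h.1 ω)
  · exact (h.1 ω).1

/-- log convexity of the moments -/
lemma moment_convex {X : (ι → Bool) → ℝ} (hX : ∀ ω, 0 < X ω) {a b t : ℝ} (ht : 0 < t)
    (ht' : t < 1) :
    (avg fun ω => X ω ^ ((1 - t) * a + t * b)) ≤
      (avg fun ω => X ω ^ a) ^ (1 - t) * (avg fun ω => X ω ^ b) ^ t := by
  have h1t : 0 < 1 - t := by linarith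
  have hpq : (1 / (1 - t)).HolderConjugate (1 / t) := by
    rw [Real.holderConjugate_iff]
    refine ⟨?_, ?_⟩
    · rw [lt_div_iff₀ h1t]; linarith
    · simp
  have h := avg_holder hpq (f := fun ω => X ω ^ ((1 - t) * a)) (g := fun ω => X ω ^ (t * b))
    (fun ω => Real.rpow_nonneg (hX ω).le _) (fun ω => Real.rpow_nonneg (hX ω).le _)
  have e1 : ∀ ω, X ω ^ ((1 - t) * a) * X ω ^ (t * b) = X ω ^ ((1 - t) * a + t * b) := fun ω =>
    (Real.rpow_add (hX ω) _ _).symm
  have e2 : ∀ ω, (X ω ^ ((1 - t) * a)) ^ (1 / (1 - t)) = X ω ^ a := fun ω => by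
    rw [← Real.rpow_mul (hX ω).le]
    congr 1
    field_simp
  have e3 : ∀ ω, (X ω ^ (t * b)) ^ (1 / t) = X ω ^ b := fun ω => by
    rw [← Real.rpow_mul (hX ω).le]
    congr 1
    field_simp
  simp only [e1, e2, e3] at h
  simpa [one_div_one_div] using h

lemma one_le_avg {X : (ι → Bool) → ℝ} (h : ∀ ω, 1 ≤ X ω) : 1 ≤ avg X := by
  rw [← avg_const (ι := ι) 1]
  exact avg_mono h

/-- `p = 1 + η (P - 1)` -/
lemma tame_upper {P B η : ℝ} (hP : 1 < P) (hB : 1 ≤ B) (hη : 0 < η) (hη' : η < 1)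
    {X : (ι → Bool) → ℝ} (h : Tame P B X) {p : ℝ} (hp : p = 1 + η * (P - 1))
    (hp' : p - 1 ≤ η) :
    (avg fun ω => X ω ^ p) ^ (1 / p) ≤ B ^ η * avg X := by
  have hp1 : 1 < p := by rw [hp]; nlinarith
  have hp0 : 0 < p := by linarith
  have hB0 : 0 < B := by linarith
  rcases h with h | h
  · have hX : ∀ ω, 0 < X ω := fun ω => zero_lt_one.trans_le (h.1 ω)
    have hφp : 1 ≤ avg fun ω => X ω ^ p := one_le_avg fun ω => Real.one_le_rpow (h.1 ω) hp0.le
    have h1 : 1 ≤ avg X := one_le_avg h.1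
    have h2 := moment_convex hX (a := 1) (b := P) hη hη'
    have e : (1 - η) * 1 + η * P = p := by rw [hp]; ring
    rw [e] at h2
    simp only [Real.rpow_one] at h2
    calc (avg fun ω => X ω ^ p) ^ (1 / p) ≤ (avg fun ω => X ω ^ p) ^ (1 : ℝ) := by
          apply Real.rpow_le_rpow_of_exponent_le hφp
          rw [div_le_iff₀ hp0]; linarith
      _ = avg fun ω => X ω ^ p := Real.rpow_one _
      _ ≤ avg X ^ (1 - η) * (avg fun ω => X ω ^ P) ^ η := h2
      _ ≤ avg X ^ (1 : ℝ) * B ^ η := by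
          apply mul_le_mul
          · exact Real.rpow_le_rpow_of_exponent_le h1 (by linarith)
          · exact Real.rpow_le_rpow (avg_nonneg fun ω => Real.rpow_nonneg (hX ω).le _) h.2 hη.le
          · exact Real.rpow_nonneg (avg_nonneg fun ω => Real.rpow_nonneg (hX ω).le _) _
          · positivity
      _ = B ^ η * avg X := by rw [Real.rpow_one]; ring
  · have hX0 : ∀ ω, 0 ≤ X ω := fun ω => (h.1 ω).1
    have ha : 0 < avg X := by
      by_contra hc
      have : B * avg X ≤ 0 := mul_nonpos_of_nonneg_of_nonpos hB0.le (not_lt.1 hc)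
      linarith [h.2]
    have h1 : (avg fun ω => X ω ^ p) ≤ avg X := avg_mono fun ω => by
      rcases (hX0 ω).eq_or_lt with h0 | h0
      · rw [← h0, Real.zero_rpow hp0.ne']
      · calc X ω ^ p ≤ X ω ^ (1 : ℝ) :=
              Real.rpow_le_rpow_of_exponent_ge h0 (h.1 ω).2 hp1.le
          _ = X ω := Real.rpow_one _
    have h2 : (avg X)⁻¹ ≤ B := by
      rw [inv_le_iff_one_le_mul₀ ha]; exact h.2
    have h4 : 0 ≤ avg fun ω => X ω ^ p := avg_nonneg fun ω => Real.rpow_nonneg (hX0 ω) _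
    have h5 : 1 - 1 / p ≤ η := by
      have : 1 - 1 / p = (p - 1) / p := by field_simp
      rw [this]
      calc (p - 1) / p ≤ p - 1 := div_le_self (by linarith) hp1.le
        _ ≤ η := hp'
    calc (avg fun ω => X ω ^ p) ^ (1 / p) ≤ (avg X) ^ (1 / p) :=
          Real.rpow_le_rpow h4 h1 (by positivity)
      _ = (avg X)⁻¹ ^ (1 - 1 / p) * avg X := by
          have e : avg X = avg X ^ (1 : ℝ) := (Real.rpow_one _).symm
          conv_rhs => rw [Real.inv_rpow ha.le, ← Real.rpow_neg ha.le]; arg 2; rw [e]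
          rw [← Real.rpow_add ha]
          congr 1
          ring
      _ ≤ B ^ (1 - 1 / p) * avg X := by
          apply mul_le_mul_of_nonneg_right _ ha.le
          apply Real.rpow_le_rpow (by positivity) h2
          rw [sub_nonneg, div_le_one hp0]; exact hp1.le
      _ ≤ B ^ η * avg X := by
          apply mul_le_mul_of_nonneg_right _ ha.le
          exact Real.rpow_le_rpow_of_exponent_le hB h5

lemma tame_lower {P B η : ℝ} (hB : 1 ≤ B) {X : (ι → Bool) → ℝ} (h : Tame P B X)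
    {p : ℝ} (hp : 1 < p) (hη : 0 < η) (hη' : η < 1) (hpP : (1 - η) * (1 / p) + η * P = 1)
    (hp' : p - 1 ≤ η) :
    avg X ≤ B ^ η * (avg fun ω => X ω ^ (1 / p)) ^ p := by
  have hp0 : 0 < p := by linarith
  have hB0 : 0 < B := by linarith
  rcases h with h | h
  · have hX : ∀ ω, 0 < X ω := fun ω => zero_lt_one.trans_le (h.1 ω)
    have hφ : 1 ≤ avg fun ω => X ω ^ (1 / p) :=
      one_le_avg fun ω => Real.one_le_rpow (h.1 ω) (by positivity)
    have h2 := moment_convex hX (a := 1 / p) (b := P) hη hη'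
    rw [hpP] at h2
    simp only [Real.rpow_one] at h2
    calc avg X ≤ (avg fun ω => X ω ^ (1 / p)) ^ (1 - η) * (avg fun ω => X ω ^ P) ^ η := h2
      _ ≤ (avg fun ω => X ω ^ (1 / p)) ^ p * B ^ η := by
          apply mul_le_mul
          · exact Real.rpow_le_rpow_of_exponent_le hφ (by linarith)
          · exact Real.rpow_le_rpow (avg_nonneg fun ω => Real.rpow_nonneg (hX ω).le _) h.2 hη.le
          · exact Real.rpow_nonneg (avg_nonneg fun ω => Real.rpow_nonneg (hX ω).le _) _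
          · positivity
      _ = B ^ η * (avg fun ω => X ω ^ (1 / p)) ^ p := mul_comm _ _
  · have hX0 : ∀ ω, 0 ≤ X ω := fun ω => (h.1 ω).1
    have ha : 0 < avg X := by
      by_contra hc
      have : B * avg X ≤ 0 := mul_nonpos_of_nonneg_of_nonpos hB0.le (not_lt.1 hc)
      linarith [h.2]
    have h1 : avg X ≤ avg fun ω => X ω ^ (1 / p) := avg_mono fun ω => by
      rcases (hX0 ω).eq_or_lt with h0 | h0
      · rw [← h0, Real.zero_rpow (by positivity)]
      · calc X ω = X ω ^ (1 : ℝ) := (Real.rpow_one _).symm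
          _ ≤ X ω ^ (1 / p) := Real.rpow_le_rpow_of_exponent_ge h0 (h.1 ω).2
              (by rw [div_le_one hp0]; exact hp.le)
    have h2 : (avg X)⁻¹ ≤ B := by
      rw [inv_le_iff_one_le_mul₀ ha]; exact h.2
    calc avg X = (avg X)⁻¹ ^ (p - 1) * avg X ^ p := by
          rw [Real.inv_rpow ha.le, ← Real.rpow_neg ha.le, ← Real.rpow_add ha]
          have e : -(p - 1) + p = 1 := by ring
          rw [e, Real.rpow_one]
      _ ≤ B ^ (p - 1) * (avg fun ω => X ω ^ (1 / p)) ^ p := by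
          apply mul_le_mul
          · exact Real.rpow_le_rpow (by positivity) h2 (by linarith)
          · exact Real.rpow_le_rpow ha.le h1 hp0.le
          · positivity
          · positivity
      _ ≤ B ^ η * (avg fun ω => X ω ^ (1 / p)) ^ p := by
          apply mul_le_mul_of_nonneg_right (Real.rpow_le_rpow_of_exponent_le hB hp')
          exact Real.rpow_nonneg (avg_nonneg fun ω => Real.rpow_nonneg (hX0 ω) _) _

/-- the exponent `p = 1 + η`, second moments -/
lemma tame_up {B η : ℝ} (hB : 1 ≤ B) (hη : 0 < η) (hη' : η < 1) {X : (ι → Bool) → ℝ}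
    (h : Tame 2 B X) : (avg fun ω => X ω ^ (1 + η)) ^ (1 / (1 + η)) ≤ B ^ η * avg X :=
  tame_upper (by norm_num) hB hη hη' h (by ring) (by linarith)

lemma tame_low {B η : ℝ} (hB : 1 ≤ B) (hη : 0 < η) {X : (ι → Bool) → ℝ}
    (h : Tame 2 B X) : avg X ≤ B ^ η * (avg fun ω => X ω ^ (1 / (1 + η))) ^ (1 + η) := by
  by_cases hs : ∀ ω, 1 ≤ X ω
  · -- the first case: use the exponent `t = η / (1 + 2 η)`
    have hX : ∀ ω, 0 < X ω := fun ω => zero_lt_one.trans_le (hs ω)
    have hmom : (avg fun ω => X ω ^ (2 : ℝ)) ≤ B := by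
      rcases h with h | h
      · exact h.2
      · refine le_trans (avg_mono (g := fun _ => 1) fun ω => ?_) (by rw [avg_const]; exact hB)
        exact Real.rpow_le_one (h.1 ω).1 (h.1 ω).2 (by norm_num)
    set t : ℝ := η / (1 + 2 * η) with ht
    have h12 : 0 < 1 + 2 * η := by linarith
    have ht0 : 0 < t := by rw [ht]; positivity
    have ht1 : t < 1 := by rw [ht, div_lt_one h12]; linarith
    have htη : t ≤ η := by
      rw [ht]; exact div_le_self hη.le (by linarith)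
    have hφ : 1 ≤ avg fun ω => X ω ^ (1 / (1 + η)) :=
      one_le_avg fun ω => Real.one_le_rpow (hs ω) (by positivity)
    have h2 := moment_convex hX (a := 1 / (1 + η)) (b := 2) ht0 ht1
    have e : (1 - t) * (1 / (1 + η)) + t * 2 = 1 := by
      rw [ht]; field_simp; ring
    rw [e] at h2
    simp only [Real.rpow_one] at h2
    calc avg X ≤ (avg fun ω => X ω ^ (1 / (1 + η))) ^ (1 - t) * (avg fun ω => X ω ^ (2 : ℝ)) ^ t := h2
      _ ≤ (avg fun ω => X ω ^ (1 / (1 + η))) ^ (1 + η) * B ^ η := by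
          apply mul_le_mul
          · exact Real.rpow_le_rpow_of_exponent_le hφ (by linarith)
          · calc (avg fun ω => X ω ^ (2 : ℝ)) ^ t ≤ B ^ t :=
                Real.rpow_le_rpow (avg_nonneg fun ω => Real.rpow_nonneg (hX ω).le _) hmom ht0.le
              _ ≤ B ^ η := Real.rpow_le_rpow_of_exponent_le hB htη
          · exact Real.rpow_nonneg (avg_nonneg fun ω => Real.rpow_nonneg (hX ω).le _) _
          · positivity
      _ = B ^ η * (avg fun ω => X ω ^ (1 / (1 + η))) ^ (1 + η) := mul_comm _ _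
  · have h' : (∀ ω, 0 ≤ X ω ∧ X ω ≤ 1) ∧ 1 ≤ B * avg X := by
      rcases h with h | h
      · exact absurd h.1 hs
      · exact h
    have hX0 : ∀ ω, 0 ≤ X ω := fun ω => (h'.1 ω).1
    have hp0 : 0 < 1 + η := by linarith
    have hB0 : 0 < B := by linarith
    have ha : 0 < avg X := by
      by_contra hc
      have : B * avg X ≤ 0 := mul_nonpos_of_nonneg_of_nonpos hB0.le (not_lt.1 hc)
      linarith [h'.2]
    have h1 : avg X ≤ avg fun ω => X ω ^ (1 / (1 + η)) := avg_mono fun ω => by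
      rcases (hX0 ω).eq_or_lt with h0 | h0
      · rw [← h0, Real.zero_rpow (by positivity)]
      · calc X ω = X ω ^ (1 : ℝ) := (Real.rpow_one _).symm
          _ ≤ X ω ^ (1 / (1 + η)) := Real.rpow_le_rpow_of_exponent_ge h0 (h'.1 ω).2
              (by rw [div_le_one hp0]; linarith)
    have h2 : (avg X)⁻¹ ≤ B := by
      rw [inv_le_iff_one_le_mul₀ ha]; exact h'.2
    calc avg X = (avg X)⁻¹ ^ η * avg X ^ (1 + η) := by
          rw [Real.inv_rpow ha.le, ← Real.rpow_neg ha.le, ← Real.rpow_add ha]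
          have e : -η + (1 + η) = 1 := by ring
          rw [e, Real.rpow_one]
      _ ≤ B ^ η * (avg fun ω => X ω ^ (1 / (1 + η))) ^ (1 + η) := by
          apply mul_le_mul
          · exact Real.rpow_le_rpow (by positivity) h2 hη.le
          · exact Real.rpow_le_rpow ha.le h1 hp0.le
          · positivity
          · positivity

/-! ## the decoupling theorems -/

/-- **upper decoupling**: `f ≤ ∏ X_k * a ^ M` with local factors `X_k` depending on disjoint sets
of bits and `M` with good exponential moments -/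
theorem decouple_upper {κ : Type*} [DecidableEq κ] (s : Finset κ) {A : κ → Set ι}
    {X : κ → (ι → Bool) → ℝ} {f : (ι → Bool) → ℝ} {M : (ι → Bool) → ℕ} {a B C η : ℝ}
    (hη : 0 < η) (hη' : η < 1) (hB : 1 ≤ B) (ha : 0 ≤ a) (hC : 1 ≤ C)
    (hA : ∀ k ∈ s, ∀ l ∈ s, k ≠ l → Disjoint (A k) (A l)) (hX : ∀ k ∈ s, Dep (A k) (X k))
    (hT : ∀ k ∈ s, Tame 2 B (X k)) (hf : ∀ ω, f ω ≤ (∏ k ∈ s, X k ω) * a ^ M ω)
    (hM : (avg fun ω => (a ^ ((1 + η) / η)) ^ M ω) ≤ C) :
    avg f ≤ (B ^ η) ^ s.card * (∏ k ∈ s, avg (X k)) * C := by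
  have hp1 : 1 < 1 + η := by linarith
  have hpq : (1 + η).HolderConjugate ((1 + η) / η) := by
    have := Real.HolderConjugate.conjExponent hp1
    have e : Real.conjExponent (1 + η) = (1 + η) / η := by
      rw [Real.conjExponent]; congr 1; ring
    rwa [e] at this
  have h := upper s hA hX (fun k hk ω => (hT k hk).nonneg ω) (G := fun ω => a ^ M ω)
    (fun ω => by positivity) hf hpq
  have e1 : ∀ ω, (a ^ M ω) ^ ((1 + η) / η) = (a ^ ((1 + η) / η)) ^ M ω := fun ω => by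
    rw [← Real.rpow_natCast, ← Real.rpow_natCast, ← Real.rpow_mul ha, ← Real.rpow_mul ha, mul_comm]
  simp only [e1] at h
  have h0 : 0 ≤ avg fun ω => (a ^ ((1 + η) / η)) ^ M ω := avg_nonneg fun ω => by positivity
  have h1 : (avg fun ω => (a ^ ((1 + η) / η)) ^ M ω) ^ (1 / ((1 + η) / η)) ≤ C := by
    calc (avg fun ω => (a ^ ((1 + η) / η)) ^ M ω) ^ (1 / ((1 + η) / η))
        ≤ C ^ (1 / ((1 + η) / η)) := Real.rpow_le_rpow h0 hM (by positivity)
      _ ≤ C ^ (1 : ℝ) := by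
          apply Real.rpow_le_rpow_of_exponent_le hC
          rw [one_div_div, div_le_one (by linarith)]; linarith
      _ = C := Real.rpow_one _
  have h2 : ∏ k ∈ s, (avg fun ω => X k ω ^ (1 + η)) ^ (1 / (1 + η)) ≤
      (B ^ η) ^ s.card * ∏ k ∈ s, avg (X k) := by
    rw [← prod_const, ← prod_mul_distrib]
    apply prod_le_prod
    · intro k hk
      exact Real.rpow_nonneg (avg_nonneg fun ω => Real.rpow_nonneg ((hT k hk).nonneg ω) _) _
    · intro k hk
      exact tame_up hB hη hη' (hT k hk)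
  refine h.trans (mul_le_mul h2 h1 (Real.rpow_nonneg h0 _) ?_)
  apply mul_nonneg (by positivity)
  exact prod_nonneg fun k hk => avg_nonneg fun ω => (hT k hk).nonneg ω

/-- **lower decoupling**: `∏ X_k * (1 / b) ^ M ≤ f` -/
theorem decouple_lower {κ : Type*} [DecidableEq κ] (s : Finset κ) {A : κ → Set ι}
    {X : κ → (ι → Bool) → ℝ} {f : (ι → Bool) → ℝ} {M : (ι → Bool) → ℕ} {b B C η : ℝ}
    (hη : 0 < η) (hη' : η < 1) (hB : 1 ≤ B) (hb : 0 < b) (hC : 1 ≤ C)
    (hA : ∀ k ∈ s, ∀ l ∈ s, k ≠ l → Disjoint (A k) (A l)) (hX : ∀ k ∈ s, Dep (A k) (X k))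
    (hT : ∀ k ∈ s, Tame 2 B (X k)) (hf : ∀ ω, (∏ k ∈ s, X k ω) * (b⁻¹) ^ M ω ≤ f ω)
    (hM : (avg fun ω => (b ^ (1 / η)) ^ M ω) ≤ C) :
    ∏ k ∈ s, avg (X k) ≤ (B ^ η) ^ s.card * (avg f * C) := by
  have hp1 : 1 < 1 + η := by linarith
  have h := lower s hA hX (fun k hk ω => (hT k hk).nonneg ω) (g := fun ω => (b⁻¹) ^ M ω)
    (fun ω => by positivity) hf hp1
  have e1 : ∀ ω, ((b⁻¹) ^ M ω) ^ (-(1 / (1 + η - 1))) = (b ^ (1 / η)) ^ M ω := fun ω => by
    have e : 1 + η - 1 = η := by ring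
    rw [e, ← Real.rpow_natCast, ← Real.rpow_natCast, Real.inv_rpow hb.le, ← Real.rpow_neg hb.le,
      ← Real.rpow_mul hb.le, ← Real.rpow_mul hb.le]
    congr 1
    ring
  simp only [e1] at h
  have e2 : 1 + η - 1 = η := by ring
  rw [e2] at h
  have h0 : 0 ≤ avg fun ω => (b ^ (1 / η)) ^ M ω := avg_nonneg fun ω => by positivity
  have h1 : (avg fun ω => (b ^ (1 / η)) ^ M ω) ^ η ≤ C := by
    calc (avg fun ω => (b ^ (1 / η)) ^ M ω) ^ η ≤ C ^ η := Real.rpow_le_rpow h0 hM hη.le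
      _ ≤ C ^ (1 : ℝ) := Real.rpow_le_rpow_of_exponent_le hC hη'.le
      _ = C := Real.rpow_one _
  have hf0 : 0 ≤ avg f := avg_nonneg fun ω =>
    (mul_nonneg (prod_nonneg fun k hk => (hT k hk).nonneg ω) (by positivity)).trans (hf ω)
  have h2 : ∏ k ∈ s, avg (X k) ≤
      (B ^ η) ^ s.card * ∏ k ∈ s, (avg fun ω => X k ω ^ (1 / (1 + η))) ^ (1 + η) := by
    rw [← prod_const, ← prod_mul_distrib]
    apply prod_le_prod
    · intro k hk
      exact avg_nonneg fun ω => (hT k hk).nonneg ω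
    · intro k hk
      exact tame_low hB hη (hT k hk)
  refine h2.trans (mul_le_mul_of_nonneg_left (h.trans ?_) (by positivity))
  exact mul_le_mul_of_nonneg_left h1 hf0

end Full.Corner
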