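import Pool.Agent.Full.Corner.Shape

/-!
# The corner products

`rect_bound`: the flip identity of the square gives `1 ≤ C m ^ ε (cvx m) ^ 3 (cvx' m)`.
`lsh_bound`: the flip identity of the L-shape gives `(cvx m) ^ 4 (rflx m) (cvx' m) ≤ C m ^ ε`.
`corner_product`: `cvx m * rflx m ≤ C m ^ ε`.
-/

set_option autoImplicit false
set_option linter.unusedSectionVars false

namespace Full.Corner
open Function Relation Finset Full
open Full.Perc (Ex Ex_mono Ex_congr Ex_nonneg)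

/-- `2/√3` -/
noncomputable def kap : ℝ := 2 / Real.sqrt 3
/-- `1/√3` -/
noncomputable def rh : ℝ := 1 / Real.sqrt 3

lemma one_le_kap : 1 ≤ kap := one_le_two_div_sqrt3
lemma kap_pos : 0 < kap := zero_lt_one.trans_le one_le_kap
lemma rh_pos : 0 < rh := by unfold rh; have := sqrt3_pos; positivity
lemma rh_le_one : rh ≤ 1 := by
  have hs : 1 ≤ Real.sqrt 3 := by
    rw [show (1 : ℝ) = Real.sqrt 1 by simp]
    exact Real.sqrt_le_sqrt (by norm_num)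
  unfold rh
  rw [div_le_one sqrt3_pos]; exact hs

/-- (H) exponential moments of the number of long strands, for every region in a box -/
def LongMoments : Prop := ∀ K : ℝ, 1 ≤ K → ∃ C : ℝ, ∀ m : ℕ, 1 ≤ m → ∀ T : Finset (ℤ × ℤ),
  (∀ t ∈ T, (0 ≤ t.1 ∧ t.1 < 4 * m) ∧ 0 ≤ t.2 ∧ t.2 < 4 * m) → Ex T (fun ω => K ^ lng T ω m) ≤ C

/-- (N2) polynomial moments of the number of the strands around a corner -/
def CornerMoments : Prop := ∃ A C : ℝ, 0 ≤ A ∧ 1 ≤ C ∧ ∀ m : ℕ, 1 ≤ m →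
  Ex (Q m) (fun ω => (4 / 3 : ℝ) ^ pc (Q m) ω (dset .W) (dset .S)) ≤ C * (m : ℝ) ^ A ∧
  Ex (Lw m) (fun ω => (4 / 3 : ℝ) ^ pc (Lw m) ω RA RB) ≤ C * (m : ℝ) ^ A

/-- the integrand of the flip identity of the square -/
noncomputable def fRect (m : ℕ) (ω : Finset (ℤ × ℤ)) : ℝ :=
  kap ^ pc (Q (2 * m)) ω (dset .W) (dset .S) * kap ^ pc (Q (2 * m)) ω (dset .E) (dset .S) *
    kap ^ pc (Q (2 * m)) ω (dset .E) (dset .N) * rh ^ pc (Q (2 * m)) ω (dset .W) (dset .N)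

/-- the isometry which maps `[0, m)²` onto the `k`-th corner window of the square -/
def isoR (m : ℕ) : Fin 4 → PIso
  | 0 => trans 0 0
  | 1 => reflX (2 * m - 1) 0
  | 2 => reflXY (2 * m - 1) (2 * m - 1)
  | 3 => reflY 0 (2 * m - 1)

/-- the base of the weights of a window of the square -/
noncomputable def bsR : Fin 4 → ℝ
  | 0 => kap | 1 => kap | 2 => kap | 3 => rh

/-- the vertical sides of the windows of the square -/
def vsR : Fin 4 → Set (Half (ℤ × ℤ))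
  | 0 => dset .W | 1 => dset .E | 2 => dset .E | 3 => dset .W

/-- the horizontal sides of the windows of the square -/
def hsR : Fin 4 → Set (Half (ℤ × ℤ))
  | 0 => dset .S | 1 => dset .S | 2 => dset .N | 3 => dset .N

/-- the windows of the square -/
noncomputable def winR (m : ℕ) (k : Fin 4) : Finset (ℤ × ℤ) := (Q m).image (isoR m k).φ

lemma mem_winR {m : ℕ} {k : Fin 4} {t : ℤ × ℤ} : t ∈ winR m k ↔
    match k with
    | 0 => (0 ≤ t.1 ∧ t.1 < m) ∧ 0 ≤ t.2 ∧ t.2 < m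
    | 1 => (m ≤ t.1 ∧ t.1 < 2 * m) ∧ 0 ≤ t.2 ∧ t.2 < m
    | 2 => (m ≤ t.1 ∧ t.1 < 2 * m) ∧ m ≤ t.2 ∧ t.2 < 2 * m
    | 3 => (0 ≤ t.1 ∧ t.1 < m) ∧ m ≤ t.2 ∧ t.2 < 2 * m := by
  obtain ⟨i, j⟩ := t
  unfold winR
  rw [mem_image]
  fin_cases k <;> simp only [isoR, trans, reflX, reflY, reflXY, mem_Q]
  · constructor
    · rintro ⟨⟨a, b⟩, h1, h2⟩
      simp only [Prod.mk.injEq] at h1 h2 ⊢
      omega
    · intro h
      exact ⟨(i, j), by simp only at h ⊢; omega, by simp⟩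
  · constructor
    · rintro ⟨⟨a, b⟩, h1, h2⟩
      simp only [Prod.mk.injEq] at h1 h2 ⊢
      omega
    · intro h
      exact ⟨(2 * m - 1 - i, j), by simp only at h ⊢; omega, by simp⟩
  · constructor
    · rintro ⟨⟨a, b⟩, h1, h2⟩
      simp only [Prod.mk.injEq] at h1 h2 ⊢
      omega
    · intro h
      exact ⟨(2 * m - 1 - i, 2 * m - 1 - j), by simp only at h ⊢; omega, by simp⟩
  · constructor
    · rintro ⟨⟨a, b⟩, h1, h2⟩
      simp only [Prod.mk.injEq] at h1 h2 ⊢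
      omega
    · intro h
      exact ⟨(i, 2 * m - 1 - j), by simp only at h ⊢; omega, by simp⟩

lemma winR_sub (m : ℕ) (k : Fin 4) : winR m k ⊆ Q (2 * m) := by
  intro t ht
  rw [mem_winR] at ht
  rw [mem_Q]
  push_cast
  fin_cases k <;> simp only at ht <;> omega

lemma winR_disj (m : ℕ) {k l : Fin 4} (hkl : k ≠ l) : Disjoint (winR m k) (winR m l) := by
  rw [disjoint_left]
  intro t h1 h2
  rw [mem_winR] at h1 h2
  fin_cases k <;> fin_cases l <;> first | exact hkl rfl | (simp only at h1 h2; omega)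

/-- the averages over the windows of the square -/
lemma Ex_winR (m : ℕ) (k : Fin 4) (F : ℕ → ℝ) :
    Ex (winR m k) (fun ω => F (pc (winR m k) ω (vsR k) (hsR k))) =
      Ex (Q m) (fun ω => F (pc (Q m) ω (dset .W) (dset .S))) := by
  refine Ex_pc (isoR m k) (Q m) ?_ ?_ F
  · rintro ⟨t, d⟩ -
    fin_cases k <;> cases d <;> simp [isoR, trans, reflX, reflY, reflXY, vsR, dset, Dir.opp]
  · rintro ⟨t, d⟩ -
    fin_cases k <;> cases d <;> simp [isoR, trans, reflX, reflY, reflXY, hsR, dset, Dir.opp]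

/-- the local factor of a window of the square -/
noncomputable def XR (m : ℕ) (k : Fin 4) (ω : Finset (ℤ × ℤ)) : ℝ :=
  bsR k ^ pc (winR m k) ω (vsR k) (hsR k)

lemma pcR_upper (m : ℕ) (k : Fin 4) (ω : Finset (ℤ × ℤ)) :
    pc (Q (2 * m)) ω (vsR k) (hsR k) ≤ pc (winR m k) ω (vsR k) (hsR k) + lng (Q (2 * m)) ω m := by
  refine pc_upper (winR_sub m k) (a := match k with | 0 => 0 | 1 => 2 * m - 1 | 2 => 2 * m - 1 | 3 => 0)
    (b := match k with | 0 => 0 | 1 => 0 | 2 => 2 * m - 1 | 3 => 2 * m - 1) ?_ ?_ ?_ ω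
  · rintro ⟨⟨i, j⟩, d⟩ hx hd
    obtain ⟨h1, h2⟩ := bd_plane.1 hx
    rw [mem_Q] at h1 h2
    push_cast at h1 h2
    fin_cases k <;> simp only [vsR, dset, Set.mem_ofPred_eq] at hd <;> subst hd <;>
      simp only [Dir.vec, Prod.mk_add_mk] at h1 h2 ⊢ <;> omega
  · rintro ⟨⟨i, j⟩, d⟩ hx hd
    obtain ⟨h1, h2⟩ := bd_plane.1 hx
    rw [mem_Q] at h1 h2
    push_cast at h1 h2
    fin_cases k <;> simp only [hsR, dset, Set.mem_ofPred_eq] at hd <;> subst hd <;>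
      simp only [Dir.vec, Prod.mk_add_mk] at h1 h2 ⊢ <;> omega
  · intro t ht h1 h2
    rw [mem_Q] at ht
    push_cast at ht
    rw [abs_lt] at h1 h2
    rw [mem_winR]
    fin_cases k <;> simp only at h1 h2 ⊢ <;> omega

lemma pcR_lower (m : ℕ) (k : Fin 4) (ω : Finset (ℤ × ℤ)) :
    pc (winR m k) ω (vsR k) (hsR k) ≤ pc (Q (2 * m)) ω (vsR k) (hsR k) := by
  refine pc_lower (winR_sub m k) ?_ ?_ ω
  · rintro ⟨⟨i, j⟩, d⟩ h1 hd h2
    rw [mem_winR] at h1 h2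
    rw [mem_Q]
    push_cast
    fin_cases k <;> simp only [vsR, dset, Set.mem_ofPred_eq] at hd <;> subst hd <;>
      simp only [Dir.vec, Prod.mk_add_mk] at h1 h2 ⊢ <;> omega
  · rintro ⟨⟨i, j⟩, d⟩ h1 hd h2
    rw [mem_winR] at h1 h2
    rw [mem_Q]
    push_cast
    fin_cases k <;> simp only [hsR, dset, Set.mem_ofPred_eq] at hd <;> subst hd <;>
      simp only [Dir.vec, Prod.mk_add_mk] at h1 h2 ⊢ <;> omega

lemma Ex_XR (m : ℕ) (k : Fin 4) : Ex (winR m k) (XR m k) =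
    Ex (Q m) (fun ω => bsR k ^ pc (Q m) ω (dset .W) (dset .S)) := Ex_winR m k (fun n => bsR k ^ n)

/-- the flip integrand of the square is bounded by the local factors -/
lemma fRect_le (m : ℕ) (ω : Finset (ℤ × ℤ)) :
    fRect m ω ≤ (∏ k : Fin 4, XR m k ω) * (kap ^ 3) ^ lng (Q (2 * m)) ω m := by
  have h0 := pcR_upper m 0 ω
  have h1 := pcR_upper m 1 ω
  have h2 := pcR_upper m 2 ω
  have h3 := pcR_lower m 3 ω
  rw [Fin.prod_univ_four]
  unfold fRect XR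
  simp only [vsR, hsR, bsR] at *
  set M := lng (Q (2 * m)) ω m
  have k0 := kap_pos
  have k1 := one_le_kap
  have r0 := rh_pos
  calc kap ^ pc (Q (2 * m)) ω (dset .W) (dset .S) * kap ^ pc (Q (2 * m)) ω (dset .E) (dset .S) *
        kap ^ pc (Q (2 * m)) ω (dset .E) (dset .N) * rh ^ pc (Q (2 * m)) ω (dset .W) (dset .N)
      ≤ kap ^ (pc (winR m 0) ω (dset .W) (dset .S) + M) * kap ^ (pc (winR m 1) ω (dset .E) (dset .S) + M) *
        kap ^ (pc (winR m 2) ω (dset .E) (dset .N) + M) * rh ^ pc (winR m 3) ω (dset .W) (dset .N) := by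
        refine mul_le_mul ?_ (pow_le_pow_of_le_one r0.le rh_le_one h3) (by positivity)
          (by positivity)
        gcongr
    _ = _ := by rw [pow_add, pow_add, pow_add, ← pow_mul]; ring

lemma cvx_nonneg (m : ℕ) : 0 ≤ cvx m := Ex_nonneg fun S _ => by positivity
lemma cvx'_nonneg (m : ℕ) : 0 ≤ cvx' m := Ex_nonneg fun S _ => by positivity
lemma rflx_nonneg (m : ℕ) : 0 ≤ rflx m := Ex_nonneg fun S _ => by positivity

/-- bookkeeping of the loss -/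
lemma loss_le {A C0 η ε : ℝ} (hC : 1 ≤ C0) (hη : 0 < η) (hη' : η < 1) {n m : ℕ}
    (hm : 1 ≤ m) (hε : 2 * n * A * η ≤ ε) :
    (((C0 * (m : ℝ) ^ A) ^ 2) ^ η) ^ n ≤ C0 ^ (2 * n) * (m : ℝ) ^ ε := by
  have hm' : (1 : ℝ) ≤ m := by exact_mod_cast hm
  have hm0 : (0 : ℝ) ≤ m := by linarith
  have hC0 : 0 ≤ C0 := by linarith
  have h1 : 0 ≤ (m : ℝ) ^ A := Real.rpow_nonneg hm0 _
  have h2 : 0 ≤ C0 * (m : ℝ) ^ A := mul_nonneg hC0 h1
  rw [← Real.rpow_natCast, ← Real.rpow_natCast, ← Real.rpow_mul h2, ← Real.rpow_mul h2,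
    Real.mul_rpow hC0 h1, ← Real.rpow_mul hm0]
  apply mul_le_mul
  · rw [← Real.rpow_natCast]
    apply Real.rpow_le_rpow_of_exponent_le hC
    push_cast
    have : (0 : ℝ) ≤ n := by positivity
    nlinarith
  · apply Real.rpow_le_rpow_of_exponent_le hm'
    push_cast
    calc A * (2 * η * n) = 2 * n * A * η := by ring
      _ ≤ ε := hε
  · positivity
  · positivity

/-- existence of a good exponent -/
lemma exists_eta {A ε : ℝ} (hA : 0 ≤ A) (hε : 0 < ε) (n : ℕ) :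
    ∃ η : ℝ, 0 < η ∧ η < 1 ∧ 2 * n * A * η ≤ ε := by
  have h1 : 0 ≤ 2 * (n : ℝ) * A := by positivity
  refine ⟨min (1 / 2) (ε / (2 * n * A + 1)), lt_min (by norm_num) (by positivity),
    lt_of_le_of_lt (min_le_left _ _) (by norm_num), ?_⟩
  calc 2 * (n : ℝ) * A * min (1 / 2) (ε / (2 * n * A + 1))
      ≤ 2 * n * A * (ε / (2 * n * A + 1)) := by
        apply mul_le_mul_of_nonneg_left (min_le_right _ _) h1
    _ = ε * (2 * n * A / (2 * n * A + 1)) := by ring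
    _ ≤ ε * 1 := by
        apply mul_le_mul_of_nonneg_left _ hε.le
        rw [div_le_one (by linarith)]
        linarith
    _ = ε := mul_one ε

/-- **the square**: `1 ≤ C m ^ ε (cvx m) ^ 3 (cvx' m)` -/
theorem rect_bound (H : LongMoments) (H2 : CornerMoments)
    (hF : ∀ m : ℕ, 1 ≤ m → Ex (Q (2 * m)) (fRect m) = 1) {ε : ℝ} (hε : 0 < ε) :
    ∃ C : ℝ, 1 ≤ C ∧ ∀ m : ℕ, 1 ≤ m → 1 ≤ C * (m : ℝ) ^ ε * (cvx m ^ 3 * cvx' m) := by
  obtain ⟨A, C0, hA, hC0, h2⟩ := H2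
  obtain ⟨η, hη, hη', hε'⟩ := exists_eta hA hε 4
  have hbase : 1 ≤ (kap ^ 3) ^ ((1 + η) / η) :=
    Real.one_le_rpow (one_le_pow₀ one_le_kap) (by positivity)
  obtain ⟨C1, h1⟩ := H _ hbase
  refine ⟨C0 ^ (2 * 4) * max C1 1, ?_, ?_⟩
  · exact one_le_mul_of_one_le_of_one_le (one_le_pow₀ hC0) (le_max_right _ _)
  intro m hm
  have hm' : (1 : ℝ) ≤ m := by exact_mod_cast hm
  set B : ℝ := C0 * (m : ℝ) ^ A with hB
  have hB1 : 1 ≤ B := one_le_mul_of_one_le_of_one_le hC0 (Real.one_le_rpow hm' hA)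
  have hT : ∀ k ∈ (univ : Finset (Fin 4)), TameE (B ^ 2) (winR m k) (XR m k) := by
    intro k _
    have h3 : Ex (winR m k) (fun ω => (4 / 3 : ℝ) ^ pc (winR m k) ω (vsR k) (hsR k)) ≤ B := by
      rw [Ex_winR m k (fun n => (4 / 3 : ℝ) ^ n)]
      exact (h2 m hm).1
    fin_cases k
    · exact tameE_convex hB1 h3
    · exact tameE_convex hB1 h3
    · exact tameE_convex hB1 h3
    · exact tameE_reflex hB1 h3
  have key := Ex_upper (univ : Finset (Fin 4)) (T := Q (2 * m)) (W := winR m) (X := XR m)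
    (f := fRect m) (M := fun ω => lng (Q (2 * m)) ω m) (a := kap ^ 3) (B := B ^ 2)
    (C := max C1 1) (η := η) hη hη' (one_le_pow₀ hB1) (by have := kap_pos; positivity)
    (le_max_right _ _) (fun k _ => winR_sub m k) (fun k _ l _ hkl => winR_disj m hkl)
    (fun k _ S => by unfold XR; rw [pc_inter]) hT (fun S _ => fRect_le m S)
    ((h1 m hm (Q (2 * m)) (fun t ht => by
      rw [mem_Q] at ht; push_cast at ht; omega)).trans (le_max_left _ _))
  rw [hF m hm, card_univ, Fintype.card_fin, Fin.prod_univ_four] at key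
  rw [Ex_XR, Ex_XR, Ex_XR, Ex_XR] at key
  change 1 ≤ ((B ^ 2) ^ η) ^ 4 * (cvx m * cvx m * cvx m * cvx' m) * max C1 1 at key
  have h4 := loss_le hC0 hη hη' hm hε'
  have n0 := cvx_nonneg m
  have n1 := cvx'_nonneg m
  calc (1 : ℝ) ≤ ((B ^ 2) ^ η) ^ 4 * (cvx m * cvx m * cvx m * cvx' m) * max C1 1 := key
    _ ≤ (C0 ^ (2 * 4) * (m : ℝ) ^ ε) * (cvx m * cvx m * cvx m * cvx' m) * max C1 1 := by
        gcongr
    _ = _ := by ring

/-! ### the L-shape -/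

/-- sides of the L-shape: top of the upper arm, right side of the upper arm, top of the right arm,
right side of the right arm -/
def lA (m : ℕ) : Set (Half (ℤ × ℤ)) := {x | x.2 = .N ∧ x.1.1 < 2 * m}
/-- right side of the upper arm -/
def lB (m : ℕ) : Set (Half (ℤ × ℤ)) := {x | x.2 = .E ∧ 2 * m ≤ x.1.2}
/-- top of the right arm -/
def lC (m : ℕ) : Set (Half (ℤ × ℤ)) := {x | x.2 = .N ∧ 2 * m ≤ x.1.1}
/-- right side of the right arm -/
def lD (m : ℕ) : Set (Half (ℤ × ℤ)) := {x | x.2 = .E ∧ x.1.2 < 2 * m}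

/-- the integrand of the flip identity of the L-shape -/
noncomputable def fL (m : ℕ) (ω : Finset (ℤ × ℤ)) : ℝ :=
  (kap ^ pc (Lsh m) ω (dset .W) (dset .S) * kap ^ pc (Lsh m) ω (lD m) (dset .S) *
    kap ^ pc (Lsh m) ω (lD m) (lC m) * kap ^ pc (Lsh m) ω (lB m) (lA m) *
    rh ^ pc (Lsh m) ω (dset .W) (lA m) * rh ^ pc (Lsh m) ω (lB m) (lC m)) *
    (kap ^ pc (Lsh m) ω (lB m) (dset .S) * kap ^ pc (Lsh m) ω (lD m) (lA m) *
    rh ^ pc (Lsh m) ω (dset .W) (lC m))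

/-- the isometry of the `k`-th window of the L-shape -/
def isoL (m : ℕ) : Fin 6 → PIso
  | 0 => trans 0 0
  | 1 => reflX (4 * m - 1) 0
  | 2 => reflXY (4 * m - 1) (2 * m - 1)
  | 3 => reflXY (2 * m - 1) (4 * m - 1)
  | 4 => reflY 0 (4 * m - 1)
  | 5 => trans (2 * m) (2 * m)

/-- the base of the weights of a window of the L-shape -/
noncomputable def bsL : Fin 6 → ℝ
  | 0 => kap | 1 => kap | 2 => kap | 3 => kap | 4 => rh | 5 => rh

/-- the vertical sides of the windows of the L-shape -/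
def vsL (m : ℕ) : Fin 6 → Set (Half (ℤ × ℤ))
  | 0 => dset .W | 1 => lD m | 2 => lD m | 3 => lB m | 4 => dset .W | 5 => lB m

/-- the horizontal sides of the windows of the L-shape -/
def hsL (m : ℕ) : Fin 6 → Set (Half (ℤ × ℤ))
  | 0 => dset .S | 1 => dset .S | 2 => lC m | 3 => lA m | 4 => lA m | 5 => lC m

/-- the model window -/
noncomputable def mdL (m : ℕ) : Fin 6 → Finset (ℤ × ℤ)
  | 0 => Q m | 1 => Q m | 2 => Q m | 3 => Q m | 4 => Q m | 5 => Lw m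

/-- the vertical side of the model window -/
def mvL : Fin 6 → Set (Half (ℤ × ℤ))
  | 0 => dset .W | 1 => dset .W | 2 => dset .W | 3 => dset .W | 4 => dset .W | 5 => RA

/-- the horizontal side of the model window -/
def mhL : Fin 6 → Set (Half (ℤ × ℤ))
  | 0 => dset .S | 1 => dset .S | 2 => dset .S | 3 => dset .S | 4 => dset .S | 5 => RB

/-- the windows of the L-shape -/
noncomputable def winL (m : ℕ) (k : Fin 6) : Finset (ℤ × ℤ) := (mdL m k).image (isoL m k).φ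

lemma mem_winL {m : ℕ} {k : Fin 6} {t : ℤ × ℤ} : t ∈ winL m k ↔
    match k with
    | 0 => (0 ≤ t.1 ∧ t.1 < m) ∧ 0 ≤ t.2 ∧ t.2 < m
    | 1 => (3 * m ≤ t.1 ∧ t.1 < 4 * m) ∧ 0 ≤ t.2 ∧ t.2 < m
    | 2 => (3 * m ≤ t.1 ∧ t.1 < 4 * m) ∧ m ≤ t.2 ∧ t.2 < 2 * m
    | 3 => (m ≤ t.1 ∧ t.1 < 2 * m) ∧ 3 * m ≤ t.2 ∧ t.2 < 4 * m
    | 4 => (0 ≤ t.1 ∧ t.1 < m) ∧ 3 * m ≤ t.2 ∧ t.2 < 4 * m
    | 5 => ((m ≤ t.1 ∧ t.1 < 3 * m) ∧ m ≤ t.2 ∧ t.2 < 3 * m) ∧ ¬ (2 * m ≤ t.1 ∧ 2 * m ≤ t.2) := by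
  obtain ⟨i, j⟩ := t
  unfold winL
  rw [mem_image]
  fin_cases k <;> simp only [isoL, mdL, trans, reflX, reflY, reflXY, mem_Q, mem_Lw]
  · constructor
    · rintro ⟨⟨a, b⟩, h1, h2⟩
      simp only [Prod.mk.injEq] at h1 h2 ⊢
      omega
    · intro h
      exact ⟨(i, j), by simp only at h ⊢; omega, by simp⟩
  · constructor
    · rintro ⟨⟨a, b⟩, h1, h2⟩
      simp only [Prod.mk.injEq] at h1 h2 ⊢
      omega
    · intro h
      exact ⟨(4 * m - 1 - i, j), by simp only at h ⊢; omega, by simp⟩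
  · constructor
    · rintro ⟨⟨a, b⟩, h1, h2⟩
      simp only [Prod.mk.injEq] at h1 h2 ⊢
      omega
    · intro h
      exact ⟨(4 * m - 1 - i, 2 * m - 1 - j), by simp only at h ⊢; omega, by simp⟩
  · constructor
    · rintro ⟨⟨a, b⟩, h1, h2⟩
      simp only [Prod.mk.injEq] at h1 h2 ⊢
      omega
    · intro h
      exact ⟨(2 * m - 1 - i, 4 * m - 1 - j), by simp only at h ⊢; omega, by simp⟩
  · constructor
    · rintro ⟨⟨a, b⟩, h1, h2⟩
      simp only [Prod.mk.injEq] at h1 h2 ⊢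
      omega
    · intro h
      exact ⟨(i, 4 * m - 1 - j), by simp only at h ⊢; omega, by simp⟩
  · constructor
    · rintro ⟨⟨a, b⟩, h1, h2⟩
      simp only [Prod.mk.injEq] at h1 h2 ⊢
      omega
    · intro h
      exact ⟨(i - 2 * m, j - 2 * m), by simp only at h ⊢; omega, by simp⟩

lemma winL_sub (m : ℕ) (k : Fin 6) : winL m k ⊆ Lsh m := by
  intro t ht
  rw [mem_winL] at ht
  rw [mem_Lsh]
  fin_cases k <;> simp only at ht <;> omega

lemma winL_disj (m : ℕ) {k l : Fin 6} (hkl : k ≠ l) : Disjoint (winL m k) (winL m l) := by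
  rw [disjoint_left]
  intro t h1 h2
  rw [mem_winL] at h1 h2
  fin_cases k <;> fin_cases l <;> first | exact hkl rfl | (simp only at h1 h2; omega)

/-- the averages over the windows of the L-shape -/
lemma Ex_winL (m : ℕ) (k : Fin 6) (F : ℕ → ℝ) :
    Ex (winL m k) (fun ω => F (pc (winL m k) ω (vsL m k) (hsL m k))) =
      Ex (mdL m k) (fun ω => F (pc (mdL m k) ω (mvL k) (mhL k))) := by
  refine Ex_pc (isoL m k) (mdL m k) ?_ ?_ F
  · rintro ⟨⟨i, j⟩, d⟩ hx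
    obtain ⟨h1, h2⟩ := bd_plane.1 hx
    fin_cases k <;> cases d <;>
      simp [isoL, trans, reflX, reflY, reflXY, vsL, mvL, mdL, mem_Q, mem_Lw, RA, lD, lB, dset, Dir.opp,
        Dir.vec] at h1 h2 ⊢ <;> omega
  · rintro ⟨⟨i, j⟩, d⟩ hx
    obtain ⟨h1, h2⟩ := bd_plane.1 hx
    fin_cases k <;> cases d <;>
      simp [isoL, trans, reflX, reflY, reflXY, hsL, mhL, mdL, mem_Q, mem_Lw, RB, lA, lC, dset, Dir.opp,
        Dir.vec] at h1 h2 ⊢ <;> omega

/-- the local factor of a window of the L-shape -/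
noncomputable def XL (m : ℕ) (k : Fin 6) (ω : Finset (ℤ × ℤ)) : ℝ :=
  bsL k ^ pc (winL m k) ω (vsL m k) (hsL m k)

lemma Ex_XL (m : ℕ) (k : Fin 6) : Ex (winL m k) (XL m k) =
    Ex (mdL m k) (fun ω => bsL k ^ pc (mdL m k) ω (mvL k) (mhL k)) := Ex_winL m k (fun n => bsL k ^ n)

lemma pcL_upper (m : ℕ) (k : Fin 6) (ω : Finset (ℤ × ℤ)) :
    pc (Lsh m) ω (vsL m k) (hsL m k) ≤ pc (winL m k) ω (vsL m k) (hsL m k) + lng (Lsh m) ω m := by
  refine pc_upper (winL_sub m k)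
    (a := match k with
      | 0 => 0 | 1 => 4 * m - 1 | 2 => 4 * m - 1 | 3 => 2 * m - 1 | 4 => 0 | 5 => 2 * m - 1)
    (b := match k with
      | 0 => 0 | 1 => 0 | 2 => 2 * m - 1 | 3 => 4 * m - 1 | 4 => 4 * m - 1 | 5 => 2 * m - 1)
    ?_ ?_ ?_ ω
  · rintro ⟨⟨i, j⟩, d⟩ hx hd
    obtain ⟨h1, h2⟩ := bd_plane.1 hx
    rw [mem_Lsh] at h1 h2
    fin_cases k <;> simp only [vsL, lD, lB, dset, Set.mem_ofPred_eq] at hd <;>
      first
      | (subst hd; simp only [Dir.vec, Prod.mk_add_mk] at h1 h2 ⊢; omega)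
      | (obtain ⟨hd, hd2⟩ := hd; subst hd; simp only [Dir.vec, Prod.mk_add_mk] at h1 h2 ⊢; omega)
  · rintro ⟨⟨i, j⟩, d⟩ hx hd
    obtain ⟨h1, h2⟩ := bd_plane.1 hx
    rw [mem_Lsh] at h1 h2
    fin_cases k <;> simp only [hsL, lA, lC, dset, Set.mem_ofPred_eq] at hd <;>
      first
      | (subst hd; simp only [Dir.vec, Prod.mk_add_mk] at h1 h2 ⊢; omega)
      | (obtain ⟨hd, hd2⟩ := hd; subst hd; simp only [Dir.vec, Prod.mk_add_mk] at h1 h2 ⊢; omega)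
  · intro t ht h1 h2
    rw [mem_Lsh] at ht
    rw [abs_lt] at h1 h2
    rw [mem_winL]
    fin_cases k <;> simp only at h1 h2 ⊢ <;> omega

lemma pcL_lower (m : ℕ) (k : Fin 6) (ω : Finset (ℤ × ℤ)) :
    pc (winL m k) ω (vsL m k) (hsL m k) ≤ pc (Lsh m) ω (vsL m k) (hsL m k) := by
  refine pc_lower (winL_sub m k) ?_ ?_ ω
  · rintro ⟨⟨i, j⟩, d⟩ h1 hd h2
    rw [mem_winL] at h1 h2
    rw [mem_Lsh]
    fin_cases k <;> simp only [vsL, lD, lB, dset, Set.mem_ofPred_eq] at hd <;>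
      first
      | (subst hd; simp only [Dir.vec, Prod.mk_add_mk] at h1 h2 ⊢; omega)
      | (obtain ⟨hd, hd2⟩ := hd; subst hd; simp only [Dir.vec, Prod.mk_add_mk] at h1 h2 ⊢; omega)
  · rintro ⟨⟨i, j⟩, d⟩ h1 hd h2
    rw [mem_winL] at h1 h2
    rw [mem_Lsh]
    fin_cases k <;> simp only [hsL, lA, lC, dset, Set.mem_ofPred_eq] at hd <;>
      first
      | (subst hd; simp only [Dir.vec, Prod.mk_add_mk] at h1 h2 ⊢; omega)
      | (obtain ⟨hd, hd2⟩ := hd; subst hd; simp only [Dir.vec, Prod.mk_add_mk] at h1 h2 ⊢; omega)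

/-- left side and top of the right arm -/
lemma pcL_FC (m : ℕ) (ω : Finset (ℤ × ℤ)) :
    pc (Lsh m) ω (dset .W) (lC m) ≤ lng (Lsh m) ω m := by
  refine pc_long ?_ ω
  rintro ⟨⟨i, j⟩, d⟩ ⟨⟨i', j'⟩, d'⟩ hx hd hy hd'
  obtain ⟨h1, h2⟩ := bd_plane.1 hx
  obtain ⟨h3, h4⟩ := bd_plane.1 hy
  rw [mem_Lsh] at h1 h2 h3 h4
  simp only [lC, dset, Set.mem_ofPred_eq] at hd hd'
  obtain ⟨hd', hd2⟩ := hd'
  subst hd hd'
  simp only [Dir.vec, Prod.mk_add_mk] at h1 h2 h3 h4 ⊢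
  left
  have := neg_abs_le (i - i')
  omega

/-- the flip integrand of the L-shape is bounded below by the local factors -/
lemma le_fL (m : ℕ) (ω : Finset (ℤ × ℤ)) :
    (∏ k : Fin 6, XL m k ω) * ((rh⁻¹ ^ 3)⁻¹) ^ lng (Lsh m) ω m ≤ fL m ω := by
  have h0 := pcL_lower m 0 ω
  have h1 := pcL_lower m 1 ω
  have h2 := pcL_lower m 2 ω
  have h3 := pcL_lower m 3 ω
  have h4 := pcL_upper m 4 ω
  have h5 := pcL_upper m 5 ω
  have h6 := pcL_FC m ω
  have e : (∏ k : Fin 6, XL m k ω) = XL m 0 ω * XL m 1 ω * XL m 2 ω * XL m 3 ω * XL m 4 ω * XL m 5 ω := by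
    rw [Fin.prod_univ_six]
  rw [e]
  unfold fL XL
  simp only [vsL, hsL, bsL] at *
  set M := lng (Lsh m) ω m
  have k0 := kap_pos
  have k1 := one_le_kap
  have r0 := rh_pos
  have e2 : ((rh⁻¹ ^ 3)⁻¹) ^ M = rh ^ M * rh ^ M * rh ^ M := by
    have e3 : (rh⁻¹ ^ 3)⁻¹ = rh ^ 3 := by rw [inv_pow rh 3, inv_inv]
    rw [e3, ← pow_mul, mul_comm 3 M, pow_mul]; ring
  rw [e2]
  have a4 : rh ^ (pc (winL m 4) ω (dset .W) (lA m) + M) ≤ rh ^ pc (Lsh m) ω (dset .W) (lA m) :=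
    pow_le_pow_of_le_one r0.le rh_le_one h4
  have a5 : rh ^ (pc (winL m 5) ω (lB m) (lC m) + M) ≤ rh ^ pc (Lsh m) ω (lB m) (lC m) :=
    pow_le_pow_of_le_one r0.le rh_le_one h5
  have a6 : rh ^ M ≤ rh ^ pc (Lsh m) ω (dset .W) (lC m) :=
    pow_le_pow_of_le_one r0.le rh_le_one h6
  have a0 : kap ^ pc (winL m 0) ω (dset .W) (dset .S) ≤ kap ^ pc (Lsh m) ω (dset .W) (dset .S) :=
    pow_le_pow_right₀ k1 h0
  have a1 : kap ^ pc (winL m 1) ω (lD m) (dset .S) ≤ kap ^ pc (Lsh m) ω (lD m) (dset .S) :=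
    pow_le_pow_right₀ k1 h1
  have a2 : kap ^ pc (winL m 2) ω (lD m) (lC m) ≤ kap ^ pc (Lsh m) ω (lD m) (lC m) :=
    pow_le_pow_right₀ k1 h2
  have a3 : kap ^ pc (winL m 3) ω (lB m) (lA m) ≤ kap ^ pc (Lsh m) ω (lB m) (lA m) :=
    pow_le_pow_right₀ k1 h3
  have b1 : 1 ≤ kap ^ pc (Lsh m) ω (lB m) (dset .S) := one_le_pow₀ k1
  have b2 : 1 ≤ kap ^ pc (Lsh m) ω (lD m) (lA m) := one_le_pow₀ k1
  calc kap ^ pc (winL m 0) ω (dset .W) (dset .S) * kap ^ pc (winL m 1) ω (lD m) (dset .S) *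
          kap ^ pc (winL m 2) ω (lD m) (lC m) * kap ^ pc (winL m 3) ω (lB m) (lA m) *
          rh ^ pc (winL m 4) ω (dset .W) (lA m) * rh ^ pc (winL m 5) ω (lB m) (lC m) *
          (rh ^ M * rh ^ M * rh ^ M)
      = (kap ^ pc (winL m 0) ω (dset .W) (dset .S) * kap ^ pc (winL m 1) ω (lD m) (dset .S) *
          kap ^ pc (winL m 2) ω (lD m) (lC m) * kap ^ pc (winL m 3) ω (lB m) (lA m) *
          rh ^ (pc (winL m 4) ω (dset .W) (lA m) + M) * rh ^ (pc (winL m 5) ω (lB m) (lC m) + M)) *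
          (1 * 1 * rh ^ M) := by rw [pow_add, pow_add]; ring
    _ ≤ (kap ^ pc (Lsh m) ω (dset .W) (dset .S) * kap ^ pc (Lsh m) ω (lD m) (dset .S) *
          kap ^ pc (Lsh m) ω (lD m) (lC m) * kap ^ pc (Lsh m) ω (lB m) (lA m) *
          rh ^ pc (Lsh m) ω (dset .W) (lA m) * rh ^ pc (Lsh m) ω (lB m) (lC m)) *
          (kap ^ pc (Lsh m) ω (lB m) (dset .S) * kap ^ pc (Lsh m) ω (lD m) (lA m) *
          rh ^ pc (Lsh m) ω (dset .W) (lC m)) := by
        refine mul_le_mul ?_ ?_ (by positivity) (by positivity)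
        · refine mul_le_mul (mul_le_mul (mul_le_mul (mul_le_mul (mul_le_mul a0 a1 ?_ ?_) a2 ?_ ?_)
            a3 ?_ ?_) a4 ?_ ?_) a5 ?_ ?_ <;> positivity
        · refine mul_le_mul (mul_le_mul b1 b2 ?_ ?_) a6 ?_ ?_ <;> positivity

/-- **the L-shape**: `(cvx m) ^ 4 (rflx m) (cvx' m) ≤ C m ^ ε` -/
theorem lsh_bound (H : LongMoments) (H2 : CornerMoments)
    (hF : ∀ m : ℕ, 1 ≤ m → Ex (Lsh m) (fL m) = 1) {ε : ℝ} (hε : 0 < ε) :
    ∃ C : ℝ, 1 ≤ C ∧ ∀ m : ℕ, 1 ≤ m → cvx m ^ 4 * cvx' m * rflx m ≤ C * (m : ℝ) ^ ε := by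
  obtain ⟨A, C0, hA, hC0, h2⟩ := H2
  obtain ⟨η, hη, hη', hε'⟩ := exists_eta hA hε 6
  have hr : 1 ≤ rh⁻¹ := by
    rw [one_le_inv₀ rh_pos]
    exact rh_le_one
  have hb : (0 : ℝ) < rh⁻¹ ^ 3 := by
    have := rh_pos; positivity
  have hbase : 1 ≤ (rh⁻¹ ^ 3) ^ (1 / η) :=
    Real.one_le_rpow (one_le_pow₀ hr) (by positivity)
  obtain ⟨C1, h1⟩ := H _ hbase
  refine ⟨C0 ^ (2 * 6) * max C1 1, ?_, ?_⟩
  · exact one_le_mul_of_one_le_of_one_le (one_le_pow₀ hC0) (le_max_right _ _)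
  intro m hm
  have hm' : (1 : ℝ) ≤ m := by exact_mod_cast hm
  set B : ℝ := C0 * (m : ℝ) ^ A with hB
  have hB1 : 1 ≤ B := one_le_mul_of_one_le_of_one_le hC0 (Real.one_le_rpow hm' hA)
  have hT : ∀ k ∈ (univ : Finset (Fin 6)), TameE (B ^ 2) (winL m k) (XL m k) := by
    intro k _
    have h3 : Ex (winL m k) (fun ω => (4 / 3 : ℝ) ^ pc (winL m k) ω (vsL m k) (hsL m k)) ≤ B := by
      rw [Ex_winL m k (fun n => (4 / 3 : ℝ) ^ n)]
      fin_cases k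
      · exact (h2 m hm).1
      · exact (h2 m hm).1
      · exact (h2 m hm).1
      · exact (h2 m hm).1
      · exact (h2 m hm).1
      · exact (h2 m hm).2
    fin_cases k
    · exact tameE_convex hB1 h3
    · exact tameE_convex hB1 h3
    · exact tameE_convex hB1 h3
    · exact tameE_convex hB1 h3
    · exact tameE_reflex hB1 h3
    · exact tameE_reflex hB1 h3
  have key := Ex_lower (univ : Finset (Fin 6)) (T := Lsh m) (W := winL m) (X := XL m)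
    (f := fL m) (M := fun ω => lng (Lsh m) ω m) (b := rh⁻¹ ^ 3) (B := B ^ 2)
    (C := max C1 1) (η := η) hη hη' (one_le_pow₀ hB1) hb
    (le_max_right _ _) (fun k _ => winL_sub m k) (fun k _ l _ hkl => winL_disj m hkl)
    (fun k _ S => by unfold XL; rw [pc_inter]) hT (fun S _ => le_fL m S)
    ((h1 m hm (Lsh m) (fun t ht => by
      rw [mem_Lsh] at ht; exact ht.1)).trans (le_max_left _ _))
  rw [hF m hm, card_univ, Fintype.card_fin, Fin.prod_univ_six] at key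
  rw [Ex_XL, Ex_XL, Ex_XL, Ex_XL, Ex_XL, Ex_XL] at key
  change cvx m * cvx m * cvx m * cvx m * cvx' m * rflx m ≤ ((B ^ 2) ^ η) ^ 6 * (1 * max C1 1) at key
  have h4 := loss_le hC0 hη hη' hm hε'
  calc cvx m ^ 4 * cvx' m * rflx m = cvx m * cvx m * cvx m * cvx m * cvx' m * rflx m := by ring
    _ ≤ ((B ^ 2) ^ η) ^ 6 * (1 * max C1 1) := key
    _ ≤ (C0 ^ (2 * 6) * (m : ℝ) ^ ε) * (1 * max C1 1) := by
        have : (0 : ℝ) ≤ 1 * max C1 1 := by rw [one_mul]; exact zero_le_one.trans (le_max_right _ _)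
        exact mul_le_mul_of_nonneg_right h4 this
    _ = _ := by ring

/-- **the corner product**: the factor of a convex corner times the factor of a reflex corner is at
most `C m ^ ε` -/
theorem corner_product (H : LongMoments) (H2 : CornerMoments)
    (hF : ∀ m : ℕ, 1 ≤ m → Ex (Q (2 * m)) (fRect m) = 1)
    (hF' : ∀ m : ℕ, 1 ≤ m → Ex (Lsh m) (fL m) = 1) {ε : ℝ} (hε : 0 < ε) :
    ∃ C : ℝ, 1 ≤ C ∧ ∀ m : ℕ, 1 ≤ m → cvx m * rflx m ≤ C * (m : ℝ) ^ ε := by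
  obtain ⟨C1, hC1, h1⟩ := rect_bound H H2 hF (half_pos hε)
  obtain ⟨C2, hC2, h2⟩ := lsh_bound H H2 hF' (half_pos hε)
  refine ⟨C1 * C2, one_le_mul_of_one_le_of_one_le hC1 hC2, fun m hm => ?_⟩
  have hm' : (0 : ℝ) < m := by exact_mod_cast hm
  have h3 := h1 m hm
  have h4 := h2 m hm
  have h5 : 0 ≤ cvx m * rflx m := mul_nonneg (cvx_nonneg m) (rflx_nonneg m)
  calc cvx m * rflx m ≤ cvx m * rflx m * (C1 * (m : ℝ) ^ (ε / 2) * (cvx m ^ 3 * cvx' m)) :=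
        le_mul_of_one_le_right h5 h3
    _ = C1 * (m : ℝ) ^ (ε / 2) * (cvx m ^ 4 * cvx' m * rflx m) := by ring
    _ ≤ C1 * (m : ℝ) ^ (ε / 2) * (C2 * (m : ℝ) ^ (ε / 2)) := by
        apply mul_le_mul_of_nonneg_left h4
        positivity
    _ = C1 * C2 * ((m : ℝ) ^ (ε / 2) * (m : ℝ) ^ (ε / 2)) := by ring
    _ = C1 * C2 * (m : ℝ) ^ ε := by rw [← Real.rpow_add hm', add_halves]

end Full.Corner
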