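import Pool.Agent.Full.Walk.Far
import Pool.Agent.Full.Corner.Prod

/-!
# `LongMoments` and `LongBound`, unconditionally
-/

set_option autoImplicit false

namespace Full.Corner

open Finset Full Full.Walk
open Full.Perc (Ex Ex_mono Ex_const)

/-- helper99's form, all constants -/
theorem longBound_all (K : ℕ) {Q : ℝ} (hQ : 1 ≤ Q) : ∃ D : ℝ, 1 ≤ D ∧ LongBound K Q D := by
  obtain ⟨q, hq⟩ := exists_q
  exact longBound hq K hQ

lemma lng_le_farc {T ω : Finset (ℤ × ℤ)} {m r : ℕ} (hr : 2 * r ≤ m + 1) : lng T ω m ≤ farc T ω r := by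
  classical
  unfold lng farc bdF
  apply card_le_card
  intro x hx
  rw [mem_filter, mem_filter] at hx
  rw [mem_filter]
  refine ⟨hx.1.1, hx.1.2, ?_⟩
  obtain ⟨z, h1, h2⟩ := hx.2
  refine ⟨z, h1, ?_⟩
  unfold sd
  rw [le_max_iff]
  rcases h2 with h2 | h2
  · left
    have h3 : |x.1.1 - z.1.1| = ((x.1.1 - z.1.1).natAbs : ℤ) := (Int.natCast_natAbs _).symm
    omega
  · right
    have h3 : |x.1.2 - z.1.2| = ((x.1.2 - z.1.2).natAbs : ℤ) := (Int.natCast_natAbs _).symm
    omega

/-- helper10's form -/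
theorem longMoments : LongMoments := by
  intro K hK
  obtain ⟨q, hq⟩ := exists_q
  obtain ⟨C, hC1, hC⟩ := exp_far hq (δ := 1 / 32) (Q := K) (by norm_num) hK
  refine ⟨max C (K ^ 256), ?_⟩
  intro m hm T hT
  rcases lt_or_ge m 3 with hm3 | hm3
  · refine le_max_of_le_right ?_
    have h1 : ∀ S ⊆ T, K ^ lng T S m ≤ K ^ 256 := by
      intro S _
      apply pow_le_pow_right₀ hK
      have h2 := (lng_le_farc (T := T) (ω := S) (m := m) (r := 0) (by omega)).trans (farc_le T S 0)
      have h3 : T ⊆ Ico (0 : ℤ) 8 ×ˢ Ico (0 : ℤ) 8 := by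
        intro t ht
        have := hT t ht
        rw [mem_product, mem_Ico, mem_Ico]
        omega
      have h4 := card_le_card h3
      have h5 : (Ico (0 : ℤ) 8 ×ˢ Ico (0 : ℤ) 8).card = 64 := by decide
      omega
    refine (Ex_mono (g := fun _ => K ^ 256) h1).trans ?_
    rw [Ex_const]
  · refine le_max_of_le_left ?_
    have h1 := hC (4 * m) ((m + 1) / 2 / 2) 0 0 T (by omega) (by omega) ?_ ?_
    · refine le_trans (Ex_mono ?_) h1
      intro S _
      apply pow_le_pow_right₀ hK
      apply lng_le_farc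
      omega
    · have h2 : m ≤ 8 * ((m + 1) / 2 / 2) := by omega
      have h3 : (m : ℝ) ≤ 8 * (((m + 1) / 2 / 2 : ℕ) : ℝ) := by exact_mod_cast h2
      push_cast
      linarith
    · intro t ht
      have := hT t ht
      push_cast
      omega

end Full.Corner
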