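import Pool.Agent.Full.Corner.Long

/-!
# Monotonicity of the corner factors
-/

set_option autoImplicit false
set_option linter.unusedSectionVars false

namespace Full.Corner
open Function Relation Finset Full
open Full.Perc (Ex Ex_mono Ex_congr Ex_nonneg)

lemma Q_sub {m n : ℕ} (h : m ≤ n) : Q m ⊆ Q n := by
  intro t ht
  rw [mem_Q] at ht ⊢
  omega

lemma Lw_sub {m n : ℕ} (h : m ≤ n) : Lw m ⊆ Lw n := by
  intro t ht
  rw [mem_Lw] at ht ⊢
  omega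

lemma pcQ_mono {m n : ℕ} (h : m ≤ n) (ω : Finset (ℤ × ℤ)) :
    pc (Q m) ω (dset .W) (dset .S) ≤ pc (Q n) ω (dset .W) (dset .S) := by
  refine pc_lower (Q_sub h) ?_ ?_ ω
  · rintro ⟨⟨i, j⟩, d⟩ h1 hd h2
    simp only [dset, Set.mem_ofPred_eq] at hd
    subst hd
    rw [mem_Q] at h1 h2 ⊢
    simp only [Dir.vec, Prod.mk_add_mk] at h1 h2 ⊢
    omega
  · rintro ⟨⟨i, j⟩, d⟩ h1 hd h2
    simp only [dset, Set.mem_ofPred_eq] at hd
    subst hd
    rw [mem_Q] at h1 h2 ⊢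
    simp only [Dir.vec, Prod.mk_add_mk] at h1 h2 ⊢
    omega

lemma pcL_mono {m n : ℕ} (h : m ≤ n) (ω : Finset (ℤ × ℤ)) :
    pc (Lw m) ω RA RB ≤ pc (Lw n) ω RA RB := by
  refine pc_lower (Lw_sub h) ?_ ?_ ω
  · rintro ⟨⟨i, j⟩, d⟩ h1 hd h2
    simp only [RA, Set.mem_ofPred_eq] at hd
    obtain ⟨hd, h3, h4⟩ := hd
    subst hd
    rw [mem_Lw] at h1 h2 ⊢
    simp only [Dir.vec, Prod.mk_add_mk] at h1 h2 ⊢
    omega
  · rintro ⟨⟨i, j⟩, d⟩ h1 hd h2
    simp only [RB, Set.mem_ofPred_eq] at hd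
    obtain ⟨hd, h3, h4⟩ := hd
    subst hd
    rw [mem_Lw] at h1 h2 ⊢
    simp only [Dir.vec, Prod.mk_add_mk] at h1 h2 ⊢
    omega

/-- the factor of a convex corner is increasing -/
theorem cvx_mono {m n : ℕ} (h : m ≤ n) : cvx m ≤ cvx n := by
  unfold cvx
  rw [← Ex_local (Q_sub h) (f := fun ω => (2 / Real.sqrt 3) ^ pc (Q m) ω (dset .W) (dset .S))
    (fun S => by rw [pc_inter])]
  exact Ex_mono fun ω _ => pow_le_pow_right₀ one_le_kap (pcQ_mono h ω)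

/-- `cvx'` is decreasing -/
theorem cvx'_anti {m n : ℕ} (h : m ≤ n) : cvx' n ≤ cvx' m := by
  unfold cvx'
  rw [← Ex_local (Q_sub h) (f := fun ω => (1 / Real.sqrt 3) ^ pc (Q m) ω (dset .W) (dset .S))
    (fun S => by rw [pc_inter])]
  exact Ex_mono fun ω _ => pow_le_pow_of_le_one rh_pos.le rh_le_one (pcQ_mono h ω)

/-- the factor of a reflex corner is decreasing -/
theorem rflx_anti {m n : ℕ} (h : m ≤ n) : rflx n ≤ rflx m := by
  unfold rflx
  rw [← Ex_local (Lw_sub h) (f := fun ω => (1 / Real.sqrt 3) ^ pc (Lw m) ω RA RB)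
    (fun S => by rw [pc_inter])]
  exact Ex_mono fun ω _ => pow_le_pow_of_le_one rh_pos.le rh_le_one (pcL_mono h ω)

lemma one_le_cvx (m : ℕ) : 1 ≤ cvx m := by
  rw [← Full.Perc.Ex_const (Q m) 1]
  exact Ex_mono fun ω _ => one_le_pow₀ one_le_kap

lemma rflx_le_one (m : ℕ) : rflx m ≤ 1 := by
  rw [← Full.Perc.Ex_const (Lw m) 1]
  exact Ex_mono fun ω _ => pow_le_one₀ rh_pos.le rh_le_one

end Full.Corner
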