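import Pool.Agent.Full.Corner.Chart
import Pool.Agent.Full.Corner.ExLocal

/-!
# Squares, L-shapes, their corner windows

* `Q m = [0, m)²`, `cvx m` = average of `(2/√3) ^ (strands from the left side to the lower side)`,
  `cvx' m` the same with `1/√3`;
* `Lw m = [-m, m)² \ [0, m)²`, `rflx m` = average of `(1/√3) ^ (strands between the two sides of the
  removed quadrant)`;
* `Lsh m = [0, 4m) × [0, 2m) ∪ [0, 2m) × [0, 4m)`.
-/

set_option autoImplicit false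
set_option linter.unusedSectionVars false

namespace Full.Corner
open Function Relation Finset Full
open Full.Perc (Ex Ex_mono Ex_congr Ex_nonneg)

/-- the strands of a region of the plane -/
noncomputable def pc (T : Finset (ℤ × ℤ)) (ω : Finset (ℤ × ℤ)) (A B : Set (Half (ℤ × ℤ))) : ℕ :=
  cnt T (plane.glue T) ω A B

/-- the half edges with a given direction -/
def dset (d : Dir) : Set (Half (ℤ × ℤ)) := {x | x.2 = d}

lemma bd_plane {T : Finset (ℤ × ℤ)} {x : Half (ℤ × ℤ)} :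
    Bd T (plane.glue T) x ↔ x.1 ∈ T ∧ x.1 + x.2.vec ∉ T := by
  obtain ⟨t, d⟩ := x
  unfold Bd
  rw [plane_glue]
  by_cases h : t ∈ T ∧ t + d.vec ∈ T
  · rw [if_pos h]
    constructor
    · rintro ⟨-, h2⟩
      exact absurd (congrArg Prod.snd h2) (Dir.opp_ne d)
    · rintro ⟨-, h2⟩
      exact absurd h.2 h2
  · rw [if_neg h]
    exact ⟨fun h1 => ⟨h1.1, fun h2 => h ⟨h1.1, h2⟩⟩, fun h1 => ⟨h1.1, rfl⟩⟩

/-- the square -/
noncomputable def Q (m : ℕ) : Finset (ℤ × ℤ) := Finset.Ico 0 (m : ℤ) ×ˢ Finset.Ico 0 (m : ℤ)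

lemma mem_Q {m : ℕ} {t : ℤ × ℤ} : t ∈ Q m ↔ (0 ≤ t.1 ∧ t.1 < m) ∧ 0 ≤ t.2 ∧ t.2 < m := by
  unfold Q
  rw [mem_product, mem_Ico, mem_Ico]

/-- the window of a reflex corner -/
noncomputable def Lw (m : ℕ) : Finset (ℤ × ℤ) :=
  (Finset.Ico (-(m : ℤ)) m ×ˢ Finset.Ico (-(m : ℤ)) m).filter fun t => ¬ (0 ≤ t.1 ∧ 0 ≤ t.2)

lemma mem_Lw {m : ℕ} {t : ℤ × ℤ} : t ∈ Lw m ↔
    ((-(m : ℤ) ≤ t.1 ∧ t.1 < m) ∧ -(m : ℤ) ≤ t.2 ∧ t.2 < m) ∧ ¬ (0 ≤ t.1 ∧ 0 ≤ t.2) := by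
  unfold Lw
  rw [mem_filter, mem_product, mem_Ico, mem_Ico]

/-- the two walls of a reflex corner -/
def RA : Set (Half (ℤ × ℤ)) := {x | x.2 = .E ∧ x.1.1 = -1 ∧ 0 ≤ x.1.2}
/-- the two walls of a reflex corner -/
def RB : Set (Half (ℤ × ℤ)) := {x | x.2 = .N ∧ x.1.2 = -1 ∧ 0 ≤ x.1.1}

/-- the L-shape -/
noncomputable def Lsh (m : ℕ) : Finset (ℤ × ℤ) :=
  (Finset.Ico 0 (4 * m : ℤ) ×ˢ Finset.Ico 0 (4 * m : ℤ)).filter fun t => t.1 < 2 * m ∨ t.2 < 2 * m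

lemma mem_Lsh {m : ℕ} {t : ℤ × ℤ} : t ∈ Lsh m ↔
    ((0 ≤ t.1 ∧ t.1 < 4 * m) ∧ 0 ≤ t.2 ∧ t.2 < 4 * m) ∧ (t.1 < 2 * m ∨ t.2 < 2 * m) := by
  unfold Lsh
  rw [mem_filter, mem_product, mem_Ico, mem_Ico]

/-- the factor of a convex corner -/
noncomputable def cvx (m : ℕ) : ℝ := Ex (Q m) fun ω => (2 / Real.sqrt 3) ^ pc (Q m) ω (dset .W) (dset .S)

/-- the factor of a convex corner at the end of the order -/
noncomputable def cvx' (m : ℕ) : ℝ := Ex (Q m) fun ω => (1 / Real.sqrt 3) ^ pc (Q m) ω (dset .W) (dset .S)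

/-- the factor of a reflex corner -/
noncomputable def rflx (m : ℕ) : ℝ := Ex (Lw m) fun ω => (1 / Real.sqrt 3) ^ pc (Lw m) ω RA RB

/-- the number of long strands: the strand of a boundary half edge visits a tile at distance at
least `m / 2` -/
def Long (T : Finset (ℤ × ℤ)) (ω : Finset (ℤ × ℤ)) (m : ℕ) (x : Half (ℤ × ℤ)) : Prop :=
  ∃ z, Full.Conn (mate ω) (plane.glue T) x z ∧
    ((m : ℤ) ≤ 2 * |x.1.1 - z.1.1| ∨ (m : ℤ) ≤ 2 * |x.1.2 - z.1.2|)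

open scoped Classical in
/-- the number of long strands -/
noncomputable def lng (T : Finset (ℤ × ℤ)) (ω : Finset (ℤ × ℤ)) (m : ℕ) : ℕ :=
  ((bdF T (plane.glue T)).filter (Long T ω m)).card

/-- the strands from a vertical side to a horizontal side are in a window or long -/
theorem pc_upper {T W : Finset (ℤ × ℤ)} (hWT : W ⊆ T) {m : ℕ} {A B : Set (Half (ℤ × ℤ))} {a b : ℤ}
    (hA : ∀ x, Bd T (plane.glue T) x → x ∈ A → x.1.1 = a)
    (hB : ∀ x, Bd T (plane.glue T) x → x ∈ B → x.1.2 = b)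
    (hW : ∀ t ∈ T, |t.1 - a| < m → |t.2 - b| < m → t ∈ W) (ω : Finset (ℤ × ℤ)) :
    pc T ω A B ≤ pc W ω A B + lng T ω m := by
  refine (win_glue plane hWT).cnt_ge ?_
  intro x hx hxA hyB hl
  refine ⟨hxA, hyB, fun z hz => ?_⟩
  have hl' : ∀ z, Full.Conn (mate ω) (plane.glue T) x z →
      2 * |x.1.1 - z.1.1| < m ∧ 2 * |x.1.2 - z.1.2| < m := by
    intro z hz
    by_contra hc
    apply hl
    refine ⟨z, hz, ?_⟩
    by_contra hc2
    rw [not_or, not_le, not_le] at hc2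
    exact hc hc2
  have h1 := hl' z hz
  have h2 := hl' _ (Two.conn_other x)
  have h3 := hA x hx hxA
  have h4 := hB _ ((plane.glu T).other_bd (ω := ω) hx) hyB
  refine hW z.1 ((plane.glu T).conn_mem hz hx.1) ?_ ?_
  · rw [abs_lt]
    have := h1.1
    rw [h3] at this
    have h5 := abs_lt.1 (show |a - z.1.1| < (m : ℤ) by omega)
    omega
  · rw [h4] at h2
    have h6 := abs_lt.1 (show |x.1.2 - b| < (m : ℤ) by omega)
    have h7 := abs_lt.1 (show |x.1.2 - z.1.2| < (m : ℤ) by omega)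
    have h8 := h1.2
    have h9 := h2.2
    rw [abs_lt]
    have h10 : |z.1.2 - b| ≤ |x.1.2 - z.1.2| + |x.1.2 - b| := by
      have := abs_sub_abs_le_abs_sub (x.1.2 - b) (x.1.2 - z.1.2)
      have h11 := abs_add_le (-(x.1.2 - z.1.2)) (x.1.2 - b)
      rw [abs_neg] at h11
      have e : -(x.1.2 - z.1.2) + (x.1.2 - b) = z.1.2 - b := by ring
      rw [e] at h11
      exact h11
    have h12 := abs_lt.1 (show |z.1.2 - b| < (m : ℤ) by omega)
    omega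

/-- no window -/
theorem pc_long {T : Finset (ℤ × ℤ)} {m : ℕ} {A B : Set (Half (ℤ × ℤ))}
    (hA : ∀ x y, Bd T (plane.glue T) x → x ∈ A → Bd T (plane.glue T) y → y ∈ B →
      (m : ℤ) ≤ 2 * |x.1.1 - y.1.1| ∨ (m : ℤ) ≤ 2 * |x.1.2 - y.1.2|) (ω : Finset (ℤ × ℤ)) :
    pc T ω A B ≤ lng T ω m := by
  classical
  unfold pc cnt lng
  apply card_le_card
  intro x hx
  rw [mem_filter, mem_bdF] at hx
  rw [mem_filter, mem_bdF]
  refine ⟨hx.1, _, Two.conn_other x, ?_⟩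
  exact hA x _ hx.1 hx.2.1 ((plane.glu T).other_bd hx.1) hx.2.2

/-- the strands of a window between real walls -/
theorem pc_lower {T W : Finset (ℤ × ℤ)} (hWT : W ⊆ T) {A B : Set (Half (ℤ × ℤ))}
    (hA : ∀ x, x.1 ∈ W → x ∈ A → x.1 + x.2.vec ∉ W → x.1 + x.2.vec ∉ T)
    (hB : ∀ x, x.1 ∈ W → x ∈ B → x.1 + x.2.vec ∉ W → x.1 + x.2.vec ∉ T) (ω : Finset (ℤ × ℤ)) :
    pc W ω A B ≤ pc T ω A B := by
  refine (win_glue plane hWT).cnt_le ?_ ?_
  · intro x hx hb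
    have h1 := (bd_plane.1 hb)
    exact (bd_plane.2 ⟨hWT h1.1, hA x h1.1 hx h1.2⟩).2
  · intro x hx hb
    have h1 := (bd_plane.1 hb)
    exact (bd_plane.2 ⟨hWT h1.1, hB x h1.1 hx h1.2⟩).2

lemma pc_inter (T ω : Finset (ℤ × ℤ)) (A B : Set (Half (ℤ × ℤ))) :
    pc T (ω ∩ T) A B = pc T ω A B := cnt_inter (plane.glu T) ω A B

/-- the corner factors of a window given by an isometry -/
theorem Ex_pc (I : PIso) (W : Finset (ℤ × ℤ)) {A B A' B' : Set (Half (ℤ × ℤ))}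
    (hA : ∀ x, Bd W (plane.glue W) x → ((I.φ x.1, I.σ x.2) ∈ A' ↔ x ∈ A))
    (hB : ∀ x, Bd W (plane.glue W) x → ((I.φ x.1, I.σ x.2) ∈ B' ↔ x ∈ B)) (F : ℕ → ℝ) :
    Ex (W.image I.φ) (fun ω => F (pc (W.image I.φ) ω A' B')) = Ex W (fun ω => F (pc W ω A B)) :=
  (I.chart W).Ex_cnt (plane.glu W) hA hB F

end Full.Corner
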